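import Pool.Agent.Lib.MP_64d474_lc.GF.SF1_99

/-!
# Cramer's rule for partial fractions over a domain
-/

set_option autoImplicit false

open Polynomial

namespace Pool.Agent.Lib.MP_64d474_lc.GF

section cramer

variable {S : Type*} [CommRing S]

/-- the columns -/
noncomputable def ccol (n : ℕ) (B G : S[X]) (j : ℕ) : S[X] :=
  if j < n then X ^ j * B else X ^ (j - n) * G

/-- the matrix of `(U, V) ↦ U * B + V * G` -/
noncomputable def cmat (n N : ℕ) (B G : S[X]) : Matrix (Fin (n + N)) (Fin (n + N)) S :=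
  Matrix.of fun i j => (ccol n B G j).coeff i

/-- the first part of a vector -/
noncomputable def cU (n N : ℕ) (v : Fin (n + N) → S) : S[X] :=
  ∑ j : Fin (n + N), if (j : ℕ) < n then C (v j) * X ^ (j : ℕ) else 0

/-- the second part of a vector -/
noncomputable def cV (n N : ℕ) (v : Fin (n + N) → S) : S[X] :=
  ∑ j : Fin (n + N), if (j : ℕ) < n then 0 else C (v j) * X ^ ((j : ℕ) - n)

theorem cU_mul_add (n N : ℕ) (B G : S[X]) (v : Fin (n + N) → S) :
    cU n N v * B + cV n N v * G = ∑ j : Fin (n + N), C (v j) * ccol n B G j := by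
  rw [cU, cV, Finset.sum_mul, Finset.sum_mul, ← Finset.sum_add_distrib]
  refine Finset.sum_congr rfl fun j _ => ?_
  rw [ccol]
  split_ifs
  · ring
  · ring

theorem coeff_sum_ccol (n N : ℕ) (B G : S[X]) (v : Fin (n + N) → S) (i : Fin (n + N)) :
    (∑ j : Fin (n + N), C (v j) * ccol n B G j).coeff i = (cmat n N B G).mulVec v i := by
  rw [finset_sum_coeff, Matrix.mulVec, dotProduct]
  refine Finset.sum_congr rfl fun j _ => ?_
  rw [coeff_C_mul, cmat, Matrix.of_apply, mul_comm]

theorem coeff_ccol_zero {n N : ℕ} {B G : S[X]} (hB : B.natDegree ≤ N) (hG : G.natDegree ≤ n)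
    (j : Fin (n + N)) (i : ℕ) (hi : n + N ≤ i) : (ccol n B G j).coeff i = 0 := by
  rw [ccol]
  split_ifs with hj
  · rw [coeff_X_pow_mul', if_pos (by omega)]
    exact coeff_eq_zero_of_natDegree_lt (by omega)
  · have := j.2
    rw [coeff_X_pow_mul', if_pos (by omega)]
    exact coeff_eq_zero_of_natDegree_lt (by omega)

theorem eq_of_mulVec {n N : ℕ} {B G A : S[X]} (hB : B.natDegree ≤ N) (hG : G.natDegree ≤ n)
    (hA : ∀ i, n + N ≤ i → A.coeff i = 0) (v : Fin (n + N) → S)
    (h : (cmat n N B G).mulVec v = fun i : Fin (n + N) => A.coeff (i : ℕ)) :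
    cU n N v * B + cV n N v * G = A := by
  rw [cU_mul_add]
  ext i
  by_cases hi : i < n + N
  · have h1 := coeff_sum_ccol n N B G v ⟨i, hi⟩
    rw [h] at h1
    exact h1
  · rw [hA i (by omega), finset_sum_coeff]
    refine Finset.sum_eq_zero fun j _ => ?_
    rw [coeff_C_mul, coeff_ccol_zero hB hG j i (by omega), mul_zero]

theorem coeff_cU (n N : ℕ) (v : Fin (n + N) → S) (i : ℕ) :
    (cU n N v).coeff i = if h : i < n then v ⟨i, by omega⟩ else 0 := by
  rw [cU, finset_sum_coeff]
  split_ifs with h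
  · rw [Finset.sum_eq_single (⟨i, by omega⟩ : Fin (n + N))]
    · simp [h]
    · intro j _ hj
      split_ifs with h1
      · rw [coeff_C_mul_X_pow, if_neg]
        intro h2
        exact hj (Fin.ext h2.symm)
      · simp
    · intro h2
      exact absurd (Finset.mem_univ _) h2
  · refine Finset.sum_eq_zero fun j _ => ?_
    split_ifs with h1
    · rw [coeff_C_mul_X_pow, if_neg (by omega)]
    · simp

theorem coeff_cV (n N : ℕ) (v : Fin (n + N) → S) (i : ℕ) (hi : i < N) :
    (cV n N v).coeff i = v ⟨n + i, by omega⟩ := by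
  rw [cV, finset_sum_coeff]
  rw [Finset.sum_eq_single (⟨n + i, by omega⟩ : Fin (n + N))]
  · simp
  · intro j _ hj
    split_ifs with h1
    · simp
    · rw [coeff_C_mul_X_pow, if_neg]
      intro h2
      apply hj
      apply Fin.ext
      simp only
      omega
  · intro h2
    exact absurd (Finset.mem_univ _) h2

theorem degree_cU_lt (n N : ℕ) (v : Fin (n + N) → S) :
    (cU n N v).degree < (n : WithBot ℕ) := by
  rw [degree_lt_iff_coeff_zero]
  intro i hi
  rw [coeff_cU, dif_neg (by omega)]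

theorem det_cmat_ne [IsDomain S] {n N : ℕ} {B G : S[X]} (hB : B.natDegree ≤ N)
    (hG : G.natDegree ≤ n)
    (hinj : ∀ U V : S[X], U.degree < (n : WithBot ℕ) → U * B + V * G = 0 → U = 0 ∧ V = 0) :
    (cmat n N B G).det ≠ 0 := by
  intro h0
  obtain ⟨v, hv, h1⟩ := Matrix.exists_mulVec_eq_zero_iff.mpr h0
  have h2 := eq_of_mulVec (A := 0) hB hG (by simp) v (by rw [h1]; ext; simp)
  obtain ⟨h3, h4⟩ := hinj _ _ (degree_cU_lt n N v) h2
  apply hv
  ext j
  by_cases hj : (j : ℕ) < n
  · have h5 := coeff_cU n N v j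
    rw [h3, dif_pos hj] at h5
    simpa using h5.symm
  · have hj2 := j.2
    have h5 := coeff_cV n N v (j - n) (by omega)
    rw [h4] at h5
    have h6 : (⟨n + (j - n), by omega⟩ : Fin (n + N)) = j := Fin.ext (by simp only; omega)
    rw [h6] at h5
    simpa using h5.symm

theorem cramer_eq {n N : ℕ} {B G A : S[X]} (hB : B.natDegree ≤ N) (hG : G.natDegree ≤ n)
    (hA : ∀ i, n + N ≤ i → A.coeff i = 0) :
    cU n N ((cmat n N B G).cramer fun i : Fin (n + N) => A.coeff (i : ℕ)) * B +
      cV n N ((cmat n N B G).cramer fun i : Fin (n + N) => A.coeff (i : ℕ)) * G = C (cmat n N B G).det * A := by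
  apply eq_of_mulVec hB hG
  · intro i hi
    rw [coeff_C_mul, hA i hi, mul_zero]
  · rw [Matrix.mulVec_cramer]
    ext i
    simp

end cramer

/-- the specialised residue -/
theorem isRes_of_identity {S k L : Type*} [CommRing S] [Field k] [Field L] [Algebra k[X] L]
    [IsFractionRing k[X] L] (φ : S →+* k) {P B A U V U₁ V₁ : S[X]} {o : ℕ} {s : S}
    (hU : U.degree < (((o + 1) * P.natDegree : ℕ) : WithBot ℕ))
    (h : U * B + V * P ^ (o + 1) = C s * A) (h₁ : U₁ * B + V₁ * P ^ (o + 1) = C s)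
    (hs : φ s ≠ 0) (hl : φ P.leadingCoeff ≠ 0) :
    (B.map φ) ≠ 0 → IsRes (P.map φ)
      (algebraMap k[X] L (A.map φ) / algebraMap k[X] L ((P ^ (o + 1) * B).map φ))
      (φ (U.coeff ((o + 1) * P.natDegree - 1)) / φ (s * P.leadingCoeff ^ (o + 1))) := by
  intro hB0
  have hPd : (P.map φ).natDegree = P.natDegree := natDegree_map_of_leadingCoeff_ne_zero φ hl
  have hPl : (P.map φ).leadingCoeff = φ P.leadingCoeff := leadingCoeff_map_of_leadingCoeff_ne_zero φ hl
  have hP0 : P.map φ ≠ 0 := by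
    intro h0
    rw [h0, leadingCoeff_zero] at hPl
    exact hl hPl.symm
  refine ⟨o + 1, C (φ s)⁻¹ * U.map φ, C (φ s)⁻¹ * V.map φ, B.map φ, ?_, ?_, hB0, ?_, ?_⟩
  · rw [hPd]
    refine lt_of_le_of_lt ?_ hU
    rw [degree_C_mul (inv_ne_zero hs)]
    exact degree_map_le
  · have h2 := congrArg (Polynomial.map φ) h₁
    rw [Polynomial.map_add, Polynomial.map_mul, Polynomial.map_mul, Polynomial.map_pow, map_C] at h2
    refine ⟨C (φ s)⁻¹ * U₁.map φ, C (φ s)⁻¹ * V₁.map φ * P.map φ ^ o, ?_⟩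
    have h3 : C (φ s)⁻¹ * C (φ s) = (1 : k[X]) := by rw [← C_mul, inv_mul_cancel₀ hs, C_1]
    linear_combination (C (φ s)⁻¹) * h2 + h3
  · have h2 := congrArg (Polynomial.map φ) h
    rw [Polynomial.map_add, Polynomial.map_mul, Polynomial.map_mul, Polynomial.map_pow,
      Polynomial.map_mul, map_C] at h2
    have h3 := congrArg (algebraMap k[X] L) h2
    have hb : algebraMap k[X] L (B.map φ) ≠ 0 := algebraMap_ne hB0
    have hp : algebraMap k[X] L (P.map φ) ≠ 0 := algebraMap_ne hP0
    have hc : algebraMap k[X] L (C (φ s)⁻¹) * algebraMap k[X] L (C (φ s)) = 1 := by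
      rw [← map_mul, ← C_mul, inv_mul_cancel₀ hs, C_1, map_one]
    rw [Polynomial.map_mul, Polynomial.map_pow]
    simp only [map_mul, map_add, map_pow] at h3 ⊢
    have h4 : algebraMap k[X] L (A.map φ) = algebraMap k[X] L (C (φ s)⁻¹) *
        (algebraMap k[X] L (U.map φ) * algebraMap k[X] L (B.map φ) +
          algebraMap k[X] L (V.map φ) * algebraMap k[X] L (P.map φ) ^ (o + 1)) := by
      rw [h3, ← mul_assoc, hc, one_mul]
    rw [h4]
    field_simp
  · rw [hPd, hPl, coeff_C_mul, coeff_map, map_mul, map_pow]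
    have : φ P.leadingCoeff ^ (o + 1) ≠ 0 := pow_ne_zero _ hl
    field_simp

end Pool.Agent.Lib.MP_64d474_lc.GF
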