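import Pool.Agent.Lib.MP_64d474_lc.GF.Fin66

set_option autoImplicit false

/-!
# Matrices that become block diagonal with small blocks after a few rows and columns are deleted
-/

namespace Pool.Agent.Lib.MP_64d474_lc.GF

open MvPolynomial Finset

universe u

variable {F : Type u} [Field F] {m : ℕ}

/-- after deleting at most `c` rows and columns (the ones with label `none`) the rest of `A`
splits into blocks (rows and columns with the same label) with at most `q` rows each -/
def Splits {N : ℕ} (c q : ℕ) (A : Matrix (Fin N) (Fin N) (MvPolynomial (Fin m) F)) : Prop :=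
  ∃ ρ γ : Fin N → Option ℕ,
    (univ.filter fun i => ρ i = none).card + (univ.filter fun j => γ j = none).card ≤ c ∧
    (∀ k, (univ.filter fun i => ρ i = some k).card ≤ q) ∧
    ∀ i j, A i j ≠ 0 → ρ i = none ∨ γ j = none ∨ ρ i = γ j

/-- the same with one labelling -/
def Splits1 {N : ℕ} (c q : ℕ) (A : Matrix (Fin N) (Fin N) (MvPolynomial (Fin m) F))
    (β : Fin N → Option ℕ) : Prop :=
  (univ.filter fun i => β i = none).card ≤ c ∧
    (∀ k, (univ.filter fun i => β i = some k).card ≤ q) ∧
    ∀ i j, A i j ≠ 0 → β i = none ∨ β j = none ∨ β i = β j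

/-- the block of a label -/
def blk {N : ℕ} (A : Matrix (Fin N) (Fin N) (MvPolynomial (Fin m) F)) (β : Fin N → Option ℕ)
    (k : ℕ) : Matrix {i // β i = some k} {i // β i = some k} (MvPolynomial (Fin m) F) :=
  fun i j => A i j

/-- few blocks are singular -/
theorem card_sing {N c q : ℕ} {A : Matrix (Fin N) (Fin N) (MvPolynomial (Fin m) F)}
    {β : Fin N → Option ℕ} (h : Splits1 c q A β) (hA : A.det ≠ 0) (S : Finset ℕ)
    (hS : ∀ k ∈ S, (blk A β k).det = 0) : S.card ≤ c := by
  classical
  obtain ⟨hc, -, hA0⟩ := h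
  have h1 : ∀ k : S, ∃ v : {i // β i = some (k : ℕ)} → MvPolynomial (Fin m) F,
      v ≠ 0 ∧ Matrix.vecMul v (blk A β k) = 0 := fun k =>
    Matrix.exists_vecMul_eq_zero_iff.2 (hS k k.2)
  choose v hv0 hv using h1
  let w : S → Fin N → MvPolynomial (Fin m) F := fun k i =>
    if hi : β i = some (k : ℕ) then v k ⟨i, hi⟩ else 0
  -- the products are supported in the border
  have hw : ∀ (k : S) (j : Fin N), β j ≠ none → Matrix.vecMul (w k) A j = 0 := by
    intro k j hj
    by_cases hjk : β j = some (k : ℕ)
    · have h2 := congrFun (hv k) ⟨j, hjk⟩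
      rw [Pi.zero_apply] at h2
      rw [← h2]
      simp only [Matrix.vecMul, dotProduct]
      rw [← Finset.sum_subset (Finset.subset_univ (univ.filter fun i => β i = some (k : ℕ)))]
      · rw [← Finset.sum_coe_sort]
        refine Fintype.sum_equiv (Equiv.subtypeEquivRight (by simp)) _ _ ?_
        intro i
        have hi : β (i : Fin N) = some (k : ℕ) := (Finset.mem_filter.1 i.2).2
        simp only [w, dif_pos hi, blk, Equiv.subtypeEquivRight_apply_coe]
        rfl
      · intro i _ hi
        have hi' : ¬ β i = some (k : ℕ) := by simpa using hi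
        simp [w, dif_neg hi']
    · simp only [Matrix.vecMul, dotProduct]
      refine Finset.sum_eq_zero fun i _ => ?_
      by_cases hi : β i = some (k : ℕ)
      · have h3 : A i j = 0 := by
          by_contra h4
          rcases hA0 i j h4 with h5 | h5 | h5
          · rw [hi] at h5; cases h5
          · exact hj h5
          · rw [hi] at h5; exact hjk h5.symm
        rw [h3, mul_zero]
      · simp [w, dif_neg hi]
  have hli : LinearIndependent (MvPolynomial (Fin m) F)
      (fun k : S => (fun j : {j // β j = none} => Matrix.vecMul (w k) A j :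
        {j // β j = none} → MvPolynomial (Fin m) F)) := by
    rw [Fintype.linearIndependent_iff]
    intro lam hlam k
    have h2 : Matrix.vecMul (∑ k, lam k • w k) A = 0 := by
      funext j
      rw [Pi.zero_apply, Matrix.sum_vecMul, Finset.sum_apply]
      by_cases hj : β j = none
      · have h3 := congrFun hlam ⟨j, hj⟩
        rw [Finset.sum_apply, Pi.zero_apply] at h3
        rw [← h3]
        refine Finset.sum_congr rfl fun k _ => ?_
        rw [Matrix.smul_vecMul, Pi.smul_apply, Pi.smul_apply]
      · refine Finset.sum_eq_zero fun k _ => ?_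
        rw [Matrix.smul_vecMul, Pi.smul_apply, hw k j hj, smul_zero]
    have h3 := Matrix.eq_zero_of_vecMul_eq_zero hA h2
    obtain ⟨i, hi⟩ := Function.ne_iff.1 (hv0 k)
    have h4 := congrFun h3 i
    rw [Finset.sum_apply, Pi.zero_apply, Finset.sum_eq_single k] at h4
    · rw [Pi.smul_apply, smul_eq_mul, mul_eq_zero] at h4
      rcases h4 with h4 | h4
      · exact h4
      · exfalso
        apply hi
        have h5 : w k i = v k ⟨i, i.2⟩ := dif_pos i.2
        rw [Pi.zero_apply, ← h4, h5]
    · intro l _ hl
      have h5 : w l i = 0 := by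
        refine dif_neg fun h6 => hl ?_
        rw [i.2] at h6
        exact Subtype.ext (Option.some.inj h6).symm
      rw [Pi.smul_apply, h5, smul_zero]
    · intro hk
      exact absurd (Finset.mem_univ k) hk
  have h2 := hli.fintype_card_le_finrank
  rw [Module.finrank_fintype_fun_eq_card, Fintype.card_coe, Fintype.card_subtype] at h2
  exact h2.trans hc

/-- without singular blocks the matrix is bordered -/
theorem mixed_of_regular (hX : StX.{u}) {N c q d : ℕ}
    {A : Matrix (Fin N) (Fin N) (MvPolynomial (Fin m) F)} [CharZero F]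
    {β : Fin N → Option ℕ} (h : Splits1 c q A β) (hd : ∀ i j, (A i j).totalDegree ≤ d)
    (hreg : ∀ k, (blk A β k).det ≠ 0) : Mixed (q * d) (c * ((q + 1) * d)) A.det := by
  classical
  obtain ⟨hc, hq, hA0⟩ := h
  obtain ⟨M, hM⟩ : ∃ M : ℕ, ∀ i k, β i = some k → k < M := by
    refine ⟨(univ.sup fun i => (β i).getD 0) + 1, fun i k hk => ?_⟩
    have h1 : (β i).getD 0 ≤ univ.sup fun i => (β i).getD 0 :=
      Finset.le_sup (f := fun i => (β i).getD 0) (Finset.mem_univ i)
    rw [hk] at h1
    exact Nat.lt_succ_of_le h1
  let sz : Fin M → ℕ := fun k => Fintype.card {i // β i = some (k : ℕ)}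
  let ek : ∀ k : Fin M, Fin (sz k) ≃ {i // β i = some (k : ℕ)} := fun k =>
    (Fintype.equivFin _).symm
  let en : Fin (Fintype.card {i // β i = none}) ≃ {i // β i = none} := (Fintype.equivFin _).symm
  let φ : ((k : Fin M) × Fin (sz k)) ⊕ Fin (Fintype.card {i // β i = none}) → Fin N :=
    Sum.elim (fun x => (ek x.1 x.2 : Fin N)) fun y => (en y : Fin N)
  have hφ : Function.Bijective φ := by
    constructor
    · rintro (⟨k, x⟩ | x) (⟨l, y⟩ | y) hxy
      · change ((ek k x : {i // β i = some (k : ℕ)}) : Fin N) = ek l y at hxy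
        have h1 := (ek k x).2
        rw [hxy, (ek l y).2] at h1
        have h2 : k = l := Fin.ext (Option.some.inj h1).symm
        subst h2
        rw [(ek k).injective (Subtype.ext hxy)]
      · change ((ek k x : {i // β i = some (k : ℕ)}) : Fin N) = en y at hxy
        have h1 := (ek k x).2
        rw [hxy, (en y).2] at h1
        cases h1
      · change ((en x : {i // β i = none}) : Fin N) = ek l y at hxy
        have h1 := (en x).2
        rw [hxy, (ek l y).2] at h1
        cases h1
      · change ((en x : {i // β i = none}) : Fin N) = en y at hxy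
        rw [en.injective (Subtype.ext hxy)]
    · intro i
      rcases hi : β i with _ | k
      · exact ⟨Sum.inr (en.symm ⟨i, hi⟩), by simp [φ]⟩
      · refine ⟨Sum.inl ⟨⟨k, hM i k hi⟩, (ek ⟨k, hM i k hi⟩).symm ⟨i, hi⟩⟩, ?_⟩
        simp [φ]
  let e := Equiv.ofBijective φ hφ
  let D : FV.Bordered F m (Fintype.card {i // β i = none}) :=
    { p := M
      sz := sz
      B := fun k x y => A (ek k x) (ek k y)
      U := fun x y => A (φ (Sum.inl x)) (φ (Sum.inr y))
      V := fun x y => A (φ (Sum.inr x)) (φ (Sum.inl y))
      W := fun x y => A (φ (Sum.inr x)) (φ (Sum.inr y)) }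
  have hmat : D.mat = A.submatrix e e := by
    ext1 x y
    rcases x with ⟨k, x⟩ | x <;> rcases y with ⟨l, y⟩ | y
    · change Matrix.blockDiagonal' D.B ⟨k, x⟩ ⟨l, y⟩ = A (φ (Sum.inl ⟨k, x⟩)) (φ (Sum.inl ⟨l, y⟩))
      by_cases hkl : k = l
      · subst hkl
        rw [Matrix.blockDiagonal'_apply_eq]
        rfl
      · rw [Matrix.blockDiagonal'_apply_ne _ _ _ hkl]
        symm
        by_contra h1
        have h2 : β (φ (Sum.inl ⟨k, x⟩)) = some (k : ℕ) := (ek k x).2
        have h3 : β (φ (Sum.inl ⟨l, y⟩)) = some (l : ℕ) := (ek l y).2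
        rcases hA0 _ _ h1 with h4 | h4 | h4
        · rw [h2] at h4; cases h4
        · rw [h3] at h4; cases h4
        · rw [h2, h3] at h4
          exact hkl (Fin.ext (Option.some.inj h4))
    · rfl
    · rfl
    · rfl
  have hdet : D.mat.det = A.det := by
    rw [hmat, Matrix.det_submatrix_equiv_self]
  have hsmall : Small q d D := by
    refine ⟨fun k => ⟨?_, ?_⟩, fun x y => ?_⟩
    · have h1 : D.B k = (blk A β k).submatrix (ek k) (ek k) := rfl
      rw [h1, Matrix.det_submatrix_equiv_self]
      exact hreg k
    · change Fintype.card {i // β i = some (k : ℕ)} ≤ q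
      rw [Fintype.card_subtype]
      exact hq k
    · rw [hmat]
      exact hd _ _
  have h1 := hX F m _ q d D hsmall
  rw [hdet] at h1
  obtain ⟨T, hT, ψ, hψ, h2⟩ := h1
  refine ⟨T, hT, ψ, AA_mono ?_ hψ, h2⟩
  refine Nat.mul_le_mul_right _ ?_
  rw [Fintype.card_subtype]
  exact hc

/-- one labelling -/
theorem mixed_of_splits1 (hX : StX.{u}) [CharZero F] {N c q d : ℕ}
    {A : Matrix (Fin N) (Fin N) (MvPolynomial (Fin m) F)}
    {β : Fin N → Option ℕ} (h : Splits1 c q A β) (hd : ∀ i j, (A i j).totalDegree ≤ d)
    (hdet : A.det ≠ 0) : Mixed (q * d) ((c * (q + 1)) * ((q + 1) * d)) A.det := by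
  classical
  let S : Finset ℕ := (univ.image β).eraseNone.filter fun k => (blk A β k).det = 0
  have hS : S.card ≤ c := card_sing h hdet S fun k hk => (Finset.mem_filter.1 hk).2
  let β' : Fin N → Option ℕ := fun i => (β i).bind fun k => if k ∈ S then none else some k
  have hβ : ∀ i k, β' i = some k ↔ β i = some k ∧ k ∉ S := by
    intro i k
    simp only [β']
    rcases h1 : β i with _ | l
    · simp
    · simp only [Option.bind_some, Option.some.injEq]
      by_cases hl : l ∈ S
      · simp only [hl, if_true]
        constructor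
        · intro h2; cases h2
        · rintro ⟨rfl, h2⟩; exact absurd hl h2
      · simp only [hl, if_false, Option.some.injEq]
        constructor
        · rintro rfl; exact ⟨rfl, hl⟩
        · exact fun h2 => h2.1
  have hβn : ∀ i, β' i = none ↔ β i = none ∨ ∃ k ∈ S, β i = some k := by
    intro i
    simp only [β']
    rcases h1 : β i with _ | l
    · simp
    · simp only [Option.bind_some, reduceCtorEq, Option.some.injEq, false_or]
      by_cases hl : l ∈ S
      · simp [hl]
      · simp [hl]
  refine mixed_of_regular hX (β := β') ⟨?_, ?_, ?_⟩ hd ?_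
  · have h1 : (univ.filter fun i => β' i = none) ⊆ (univ.filter fun i => β i = none) ∪
        S.biUnion fun k => univ.filter fun i => β i = some k := by
      intro i hi
      rw [Finset.mem_filter, hβn] at hi
      rcases hi.2 with h2 | ⟨k, hk, h2⟩
      · exact Finset.mem_union_left _ (by simp [h2])
      · exact Finset.mem_union_right _ (Finset.mem_biUnion.2 ⟨k, hk, by simp [h2]⟩)
    refine (Finset.card_le_card h1).trans ((Finset.card_union_le _ _).trans ?_)
    have h2 : (S.biUnion fun k => univ.filter fun i => β i = some k).card ≤ S.card * q :=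
      Finset.card_biUnion_le_card_mul _ _ _ fun k _ => h.2.1 k
    have h3 : S.card * q ≤ c * q := Nat.mul_le_mul_right _ hS
    have h4 := h.1
    rw [Nat.mul_succ]
    omega
  · intro k
    refine (Finset.card_le_card fun i hi => ?_).trans (h.2.1 k)
    rw [Finset.mem_filter, hβ] at hi
    exact Finset.mem_filter.2 ⟨Finset.mem_univ i, hi.2.1⟩
  · intro i j hij
    rcases h1 : β' i with _ | k
    · exact Or.inl rfl
    · rcases h2 : β' j with _ | l
      · exact Or.inr (Or.inl rfl)
      · right; right
        have h3 := ((hβ i k).1 h1).1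
        have h4 := ((hβ j l).1 h2).1
        rcases h.2.2 i j hij with h5 | h5 | h5
        · rw [h3] at h5; cases h5
        · rw [h4] at h5; cases h5
        · rw [← h3, ← h4, h5]
  · intro k
    by_cases hk : k ∈ S
    · have : IsEmpty {i // β' i = some k} := ⟨fun i => ((hβ i k).1 i.2).2 hk⟩
      rw [Matrix.det_isEmpty]
      exact one_ne_zero
    · let e : {i // β' i = some k} ≃ {i // β i = some k} :=
        Equiv.subtypeEquivRight fun i => by rw [hβ]; exact and_iff_left hk
      have h1 : blk A β' k = (blk A β k).submatrix e e := rfl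
      rw [h1, Matrix.det_submatrix_equiv_self]
      intro h2
      by_cases h3 : ∃ i, β i = some k
      · obtain ⟨i, hi⟩ := h3
        exact hk (Finset.mem_filter.2 ⟨Finset.mem_eraseNone.2
          (Finset.mem_image.2 ⟨i, Finset.mem_univ i, hi⟩), h2⟩)
      · have : IsEmpty {i // β i = some k} := ⟨fun i => h3 ⟨i, i.2⟩⟩
        rw [Matrix.det_isEmpty] at h2
        exact one_ne_zero h2

/-- the determinant of a matrix that splits is mixed -/
theorem mixed_of_splits (hX : StX.{u}) [CharZero F] {N c q d : ℕ}
    {A : Matrix (Fin N) (Fin N) (MvPolynomial (Fin m) F)}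
    (h : Splits c q A) (hd : ∀ i j, (A i j).totalDegree ≤ d) :
    Mixed (q * d) ((c * (q + 1)) * ((q + 1) * d)) A.det := by
  classical
  by_cases hdet : A.det = 0
  · rw [hdet]
    exact ⟨0, by simp, 0, Submodule.zero_mem _, by simp⟩
  obtain ⟨ρ, γ, hc, hq, hA0⟩ := h
  obtain ⟨σ, hσ⟩ : ∃ σ : Equiv.Perm (Fin N), ∏ i, A (σ i) i ≠ 0 := by
    by_contra h1
    push Not at h1
    exact hdet (by rw [Matrix.det_apply]; exact Finset.sum_eq_zero fun σ _ => by rw [h1, smul_zero])
  have hdiag : ∀ i, A (σ i) i ≠ 0 := fun i => (Finset.prod_ne_zero_iff.1 hσ) i (Finset.mem_univ i)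
  let A' := A.submatrix σ id
  have hA' : A'.det = (Equiv.Perm.sign σ : MvPolynomial (Fin m) F) * A.det :=
    Matrix.det_permute σ A
  let β : Fin N → Option ℕ := fun j => if ρ (σ j) = none then none else γ j
  have hβ : ∀ j, β j ≠ none → ρ (σ j) = β j ∧ γ j = β j := by
    intro j hj
    have h1 : ρ (σ j) ≠ none := fun h1 => hj (if_pos h1)
    have h2 : β j = γ j := if_neg h1
    rw [h2] at hj ⊢
    rcases hA0 _ _ (hdiag j) with h3 | h3 | h3
    · exact absurd h3 h1
    · exact absurd h3 hj
    · exact ⟨h3, rfl⟩
  have hs : Splits1 c q A' β := by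
    refine ⟨?_, ?_, ?_⟩
    · refine le_trans ?_ hc
      have h1 : (univ.filter fun j => β j = none) ⊆ (univ.filter fun j => ρ (σ j) = none) ∪
          (univ.filter fun j => γ j = none) := by
        intro j hj
        rw [Finset.mem_filter] at hj
        by_cases h1 : ρ (σ j) = none
        · exact Finset.mem_union_left _ (by simp [h1])
        · have h2 : β j = γ j := if_neg h1
          exact Finset.mem_union_right _ (by simp [← h2, hj.2])
      refine (Finset.card_le_card h1).trans ((Finset.card_union_le _ _).trans ?_)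
      refine Nat.add_le_add_right (le_of_eq ?_) _
      refine Finset.card_bij (fun j _ => σ j) ?_ ?_ ?_
      · intro j hj; simpa using hj
      · intro i _ j _ hij; exact σ.injective hij
      · intro i hi; exact ⟨σ.symm i, by simpa using hi, by simp⟩
    · intro k
      refine le_trans ?_ (hq k)
      refine Finset.card_le_card_of_injOn (fun j => σ j) ?_ (σ.injective.injOn)
      intro j hj
      have hj' : β j = some k := by simpa using hj
      have h1 := (hβ j (by rw [hj']; simp)).1
      simp [h1, hj']
    · intro i j hij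
      by_cases hi : β i = none
      · exact Or.inl hi
      · by_cases hj : β j = none
        · exact Or.inr (Or.inl hj)
        · right; right
          have h1 := (hβ i hi).1
          have h2 := (hβ j hj).2
          rcases hA0 (σ i) j hij with h3 | h3 | h3
          · rw [h1] at h3; exact absurd h3 hi
          · rw [h2] at h3; exact absurd h3 hj
          · rw [← h1, ← h2, h3]
  have hsgn : (Equiv.Perm.sign σ : MvPolynomial (Fin m) F) *
      (Equiv.Perm.sign σ : MvPolynomial (Fin m) F) = 1 := by
    rcases Int.units_eq_one_or (Equiv.Perm.sign σ) with h1 | h1 <;> rw [h1] <;> simp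
  have hdet' : A'.det ≠ 0 := by
    rw [hA']
    refine mul_ne_zero ?_ hdet
    intro h1
    rw [h1, zero_mul] at hsgn
    exact zero_ne_one hsgn
  obtain ⟨T, hT, ψ, hψ, h1⟩ := mixed_of_splits1 hX hs (fun i j => hd _ _) hdet'
  rcases Int.units_eq_one_or (Equiv.Perm.sign σ) with h2 | h2
  · refine ⟨T, hT, ψ, hψ, ?_⟩
    rw [← h1, hA', h2]
    simp
  · refine ⟨T, hT, -ψ, Submodule.neg_mem _ hψ, ?_⟩
    rw [mul_neg, ← h1, hA', h2]
    simp

end Pool.Agent.Lib.MP_64d474_lc.GF
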