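import Pool.Agent.Lib.MP_64d474_lc.GF.LayA46
import Pool.Agent.Lib.MP_64d474_lc.GF.Y66

set_option autoImplicit false

/-!
# Matrices with small strongly connected components and bounded depth
-/

namespace Pool.Agent.Lib.MP_64d474_lc.GF

open MvPolynomial Finset

universe u

variable {F : Type u} [Field F] {m : ℕ}

/-- one labelling: at most `c` indices are in the border (label `none`), every component has at
most `q` indices, the levels of the components are below `L`, and an entry outside the border
is in a component or goes to a higher level -/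
def Layered1 {N : ℕ} (c q L : ℕ) (A : Matrix (Fin N) (Fin N) (MvPolynomial (Fin m) F))
    (β : Fin N → Option ℕ) (lev : ℕ → ℕ) : Prop :=
  (univ.filter fun i => β i = none).card ≤ c ∧
    (∀ k, (univ.filter fun i => β i = some k).card ≤ q) ∧ (∀ k, lev k < L) ∧
    ∀ i j, A i j ≠ 0 → β i = none ∨ β j = none ∨ β i = β j ∨
      ∃ k l, β i = some k ∧ β j = some l ∧ lev k < lev l

/-- few components of a level are singular -/
theorem card_sing_level {N c q L : ℕ} {A : Matrix (Fin N) (Fin N) (MvPolynomial (Fin m) F)}
    {β : Fin N → Option ℕ} {lev : ℕ → ℕ} (h : Layered1 c q L A β lev) (hA : A.det ≠ 0) (l₀ : ℕ)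
    (S : Finset ℕ) (hS : ∀ k ∈ S, lev k = l₀ ∧ (blk A β k).det = 0) : S.card ≤ c := by
  classical
  obtain ⟨hc, -, -, hA0⟩ := h
  have h1 : ∀ k : S, ∃ v : {i // β i = some (k : ℕ)} → MvPolynomial (Fin m) F,
      v ≠ 0 ∧ Matrix.vecMul v (blk A β k) = 0 := fun k =>
    Matrix.exists_vecMul_eq_zero_iff.2 (hS k k.2).2
  choose v hv0 hv using h1
  -- the rows of higher level
  let H := {i : Fin N // ∃ k, β i = some k ∧ l₀ < lev k}
  let J := {j : Fin N // β j = none ∨ ∃ k, β j = some k ∧ l₀ < lev k}
  let w : S ⊕ H → Fin N → MvPolynomial (Fin m) F :=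
    Sum.elim (fun k i => if hi : β i = some (k : ℕ) then v k ⟨i, hi⟩ else 0)
      (fun i => Pi.single (i : Fin N) 1)
  have hw : ∀ (x : S ⊕ H) (j : Fin N), ¬ (β j = none ∨ ∃ k, β j = some k ∧ l₀ < lev k) →
      Matrix.vecMul (w x) A j = 0 := by
    rintro (k | i) j hj
    · push Not at hj
      obtain ⟨hj1, hj2⟩ := hj
      by_cases hjk : β j = some (k : ℕ)
      · have h2 := congrFun (hv k) ⟨j, hjk⟩
        rw [Pi.zero_apply] at h2
        rw [← h2]
        simp only [Matrix.vecMul, dotProduct]
        rw [← Finset.sum_subset (Finset.subset_univ (univ.filter fun i => β i = some (k : ℕ)))]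
        · rw [← Finset.sum_coe_sort]
          refine Fintype.sum_equiv (Equiv.subtypeEquivRight (by simp)) _ _ ?_
          intro i
          have hi : β (i : Fin N) = some (k : ℕ) := (Finset.mem_filter.1 i.2).2
          simp only [w, Sum.elim_inl, dif_pos hi, blk, Equiv.subtypeEquivRight_apply_coe]
          rfl
        · intro i _ hi
          have hi' : ¬ β i = some (k : ℕ) := by simpa using hi
          simp [w, dif_neg hi']
      · simp only [Matrix.vecMul, dotProduct]
        refine Finset.sum_eq_zero fun i _ => ?_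
        by_cases hi : β i = some (k : ℕ)
        · have h3 : A i j = 0 := by
            by_contra h4
            rcases hA0 i j h4 with h5 | h5 | h5 | ⟨a, b, ha, hb, hab⟩
            · rw [hi] at h5; cases h5
            · exact hj1 h5
            · rw [hi] at h5; exact hjk h5.symm
            · rw [hi] at ha
              have h6 := Option.some.inj ha
              have h7 := hj2 b hb
              rw [← h6, (hS k k.2).1] at hab
              omega
          rw [h3, mul_zero]
        · simp [w, dif_neg hi]
    · push Not at hj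
      obtain ⟨hj1, hj2⟩ := hj
      have h2 : Matrix.vecMul (w (Sum.inr i)) A j = A i j := by
        simp only [w, Sum.elim_inr]
        rw [Matrix.single_one_vecMul]
        rfl
      rw [h2]
      by_contra h4
      obtain ⟨i, k, hk, hlk⟩ := i
      rcases hA0 i j h4 with h5 | h5 | h5 | ⟨a, b, ha, hb, hab⟩
      · rw [hk] at h5; cases h5
      · exact hj1 h5
      · rw [hk] at h5
        have := hj2 k h5.symm
        omega
      · rw [hk] at ha
        have h6 := Option.some.inj ha
        have h7 := hj2 b hb
        rw [← h6] at hab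
        omega
  have hli : LinearIndependent (MvPolynomial (Fin m) F)
      (fun x : S ⊕ H => (fun j : J => Matrix.vecMul (w x) A j : J → MvPolynomial (Fin m) F)) := by
    rw [Fintype.linearIndependent_iff]
    intro lam hlam
    have h2 : Matrix.vecMul (∑ x, lam x • w x) A = 0 := by
      funext j
      rw [Pi.zero_apply, Matrix.sum_vecMul, Finset.sum_apply]
      by_cases hj : β j = none ∨ ∃ k, β j = some k ∧ l₀ < lev k
      · have h3 := congrFun hlam ⟨j, hj⟩
        rw [Finset.sum_apply, Pi.zero_apply] at h3
        rw [← h3]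
        refine Finset.sum_congr rfl fun k _ => ?_
        rw [Matrix.smul_vecMul, Pi.smul_apply, Pi.smul_apply]
      · refine Finset.sum_eq_zero fun k _ => ?_
        rw [Matrix.smul_vecMul, Pi.smul_apply, hw k j hj, smul_zero]
    have h3 := Matrix.eq_zero_of_vecMul_eq_zero hA h2
    have hH : ∀ i : H, lam (Sum.inr i) = 0 := by
      intro i
      have h4 := congrFun h3 (i : Fin N)
      rw [Finset.sum_apply, Pi.zero_apply, Finset.sum_eq_single (Sum.inr i)] at h4
      · rw [Pi.smul_apply, smul_eq_mul] at h4
        simpa [w] using h4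
      · rintro (k | i') _ hne
        · have h5 : w (Sum.inl k) i = 0 := by
            refine dif_neg fun h6 => ?_
            obtain ⟨k', hk', hlk'⟩ := i.2
            rw [h6] at hk'
            have h7 := Option.some.inj hk'
            have h8 := (hS k k.2).1
            rw [← h7] at hlk'
            omega
          rw [Pi.smul_apply, h5, smul_zero]
        · have h5 : (i : Fin N) ≠ i' := by
            intro h6
            exact hne (by rw [Subtype.ext h6])
          have h6 : w (Sum.inr i') i = 0 := Pi.single_eq_of_ne h5 _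
          rw [Pi.smul_apply, h6, smul_zero]
      · intro hk
        exact absurd (Finset.mem_univ _) hk
    rintro (k | i)
    · obtain ⟨i, hi⟩ := Function.ne_iff.1 (hv0 k)
      have h4 := congrFun h3 i
      rw [Finset.sum_apply, Pi.zero_apply, Finset.sum_eq_single (Sum.inl k)] at h4
      · rw [Pi.smul_apply, smul_eq_mul, mul_eq_zero] at h4
        rcases h4 with h4 | h4
        · exact h4
        · exfalso
          apply hi
          have h5 : w (Sum.inl k) i = v k ⟨i, i.2⟩ := dif_pos i.2
          rw [Pi.zero_apply, ← h4, h5]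
      · rintro (l | i') _ hl
        · have h5 : w (Sum.inl l) i = 0 := by
            refine dif_neg fun h6 => hl ?_
            rw [i.2] at h6
            rw [Subtype.ext (Option.some.inj h6).symm]
          rw [Pi.smul_apply, h5, smul_zero]
        · rw [hH i', zero_smul, Pi.zero_apply]
      · intro hk
        exact absurd (Finset.mem_univ _) hk
    · exact hH i
  have h2 := hli.fintype_card_le_finrank
  rw [Module.finrank_fintype_fun_eq_card, Fintype.card_sum, Fintype.card_coe] at h2
  have h3 : Fintype.card J ≤ Fintype.card {j : Fin N // β j = none} + Fintype.card H := by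
    rw [← Fintype.card_sum]
    refine Fintype.card_le_of_injective (fun j : J => if hj : β j = none then
      (Sum.inl ⟨j, hj⟩ : {j : Fin N // β j = none} ⊕ H) else Sum.inr ⟨j, j.2.resolve_left hj⟩) ?_
    intro a b hab
    simp only at hab
    split_ifs at hab with ha hb hb
    · have h5 := Sum.inl_injective hab
      exact Subtype.ext (Subtype.mk.inj h5)
    · have h5 := Sum.inr_injective hab
      exact Subtype.ext (Subtype.mk.inj h5)
  have h4 : Fintype.card {j : Fin N // β j = none} = (univ.filter fun i => β i = none).card :=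
    Fintype.card_subtype _
  omega

/-- without singular components the matrix is bordered -/
theorem mixed_of_layered_regular {N c q L d : ℕ}
    {A : Matrix (Fin N) (Fin N) (MvPolynomial (Fin m) F)}
    {β : Fin N → Option ℕ} {lev : ℕ → ℕ} (h : Layered1 c q L A β lev)
    (hd : ∀ i j, (A i j).totalDegree ≤ d) (hreg : ∀ k, (blk A β k).det ≠ 0) :
    Mixed (q * d) (c * ((L + 2) * ((q + 1) * d))) A.det := by
  classical
  obtain ⟨hc, hq, hL, hA0⟩ := h
  obtain ⟨M, hM⟩ : ∃ M : ℕ, ∀ i k, β i = some k → k < M := by
    refine ⟨(univ.sup fun i => (β i).getD 0) + 1, fun i k hk => ?_⟩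
    have h1 : (β i).getD 0 ≤ univ.sup fun i => (β i).getD 0 :=
      Finset.le_sup (f := fun i => (β i).getD 0) (Finset.mem_univ i)
    rw [hk] at h1
    exact Nat.lt_succ_of_le h1
  let sz : Fin M → ℕ := fun k => Fintype.card {i // β i = some (k : ℕ)}
  let ek : ∀ k : Fin M, Fin (sz k) ≃ {i // β i = some (k : ℕ)} := fun k =>
    (Fintype.equivFin _).symm
  let en : Fin (Fintype.card {i // β i = none}) ≃ {i // β i = none} := (Fintype.equivFin _).symm
  let φ : ((k : Fin M) × Fin (sz k)) ⊕ Fin (Fintype.card {i // β i = none}) → Fin N :=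
    Sum.elim (fun x => (ek x.1 x.2 : Fin N)) fun y => (en y : Fin N)
  have hφ : Function.Bijective φ := by
    constructor
    · rintro (⟨k, x⟩ | x) (⟨l, y⟩ | y) hxy
      · change ((ek k x : {i // β i = some (k : ℕ)}) : Fin N) = ek l y at hxy
        have h1 := (ek k x).2
        rw [hxy, (ek l y).2] at h1
        have h2 : k = l := Fin.ext (Option.some.inj h1).symm
        subst h2
        rw [(ek k).injective (Subtype.ext hxy)]
      · change ((ek k x : {i // β i = some (k : ℕ)}) : Fin N) = en y at hxy
        have h1 := (ek k x).2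
        rw [hxy, (en y).2] at h1
        cases h1
      · change ((en x : {i // β i = none}) : Fin N) = ek l y at hxy
        have h1 := (en x).2
        rw [hxy, (ek l y).2] at h1
        cases h1
      · change ((en x : {i // β i = none}) : Fin N) = en y at hxy
        rw [en.injective (Subtype.ext hxy)]
    · intro i
      rcases hi : β i with _ | k
      · exact ⟨Sum.inr (en.symm ⟨i, hi⟩), by simp [φ]⟩
      · refine ⟨Sum.inl ⟨⟨k, hM i k hi⟩, (ek ⟨k, hM i k hi⟩).symm ⟨i, hi⟩⟩, ?_⟩
        simp [φ]
  let e := Equiv.ofBijective φ hφ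
  let D : FV.Bordered F m (Fintype.card {i // β i = none}) :=
    { p := M
      sz := sz
      B := fun k x y => A (ek k x) (ek k y)
      U := fun x y => A (φ (Sum.inl x)) (φ (Sum.inr y))
      V := fun x y => A (φ (Sum.inr x)) (φ (Sum.inl y))
      W := fun x y => A (φ (Sum.inr x)) (φ (Sum.inr y)) }
  let Nm : Matrix ((k : Fin M) × Fin (sz k)) ((k : Fin M) × Fin (sz k))
      (MvPolynomial (Fin m) F) := fun x y =>
    if x.1 = y.1 then 0 else A (φ (Sum.inl x)) (φ (Sum.inl y))
  have hmat : Matrix.fromBlocks (Matrix.blockDiagonal' D.B + Nm) D.U D.V D.W =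
      A.submatrix e e := by
    ext1 x y
    rcases x with ⟨k, x⟩ | x <;> rcases y with ⟨l, y⟩ | y
    · change Matrix.blockDiagonal' D.B ⟨k, x⟩ ⟨l, y⟩ + Nm ⟨k, x⟩ ⟨l, y⟩ =
        A (φ (Sum.inl ⟨k, x⟩)) (φ (Sum.inl ⟨l, y⟩))
      by_cases hkl : k = l
      · subst hkl
        rw [Matrix.blockDiagonal'_apply_eq]
        have h1 : Nm ⟨k, x⟩ ⟨k, y⟩ = 0 := if_pos rfl
        rw [h1, add_zero]
        rfl
      · rw [Matrix.blockDiagonal'_apply_ne _ _ _ hkl, zero_add]
        exact if_neg hkl
    · rfl
    · rfl
    · rfl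
  have hdet : (Matrix.fromBlocks (Matrix.blockDiagonal' D.B + Nm) D.U D.V D.W).det = A.det := by
    rw [hmat, Matrix.det_submatrix_equiv_self]
  have hsmall : Small q d D := by
    refine ⟨fun k => ⟨?_, ?_⟩, fun x y => ?_⟩
    · have h1 : D.B k = (blk A β k).submatrix (ek k) (ek k) := rfl
      rw [h1, Matrix.det_submatrix_equiv_self]
      exact hreg k
    · change Fintype.card {i // β i = some (k : ℕ)} ≤ q
      rw [Fintype.card_subtype]
      exact hq k
    · rcases x with ⟨k, x⟩ | x <;> rcases y with ⟨l, y⟩ | y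
      · change (Matrix.blockDiagonal' D.B ⟨k, x⟩ ⟨l, y⟩).totalDegree ≤ d
        by_cases hkl : k = l
        · subst hkl
          rw [Matrix.blockDiagonal'_apply_eq]
          exact hd _ _
        · rw [Matrix.blockDiagonal'_apply_ne _ _ _ hkl, totalDegree_zero]
          exact Nat.zero_le _
      · exact hd _ _
      · exact hd _ _
      · exact hd _ _
  have h1 := mixed_layered_bordered D hsmall (fun k => lev k) (fun k => hL k) Nm ?_ ?_
  · rw [hdet] at h1
    obtain ⟨T, hT, ψ, hψ, h2⟩ := h1
    refine ⟨T, hT, ψ, AA.mono ?_ hψ, h2⟩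
    refine Nat.mul_le_mul_right _ ?_
    rw [Fintype.card_subtype]
    exact hc
  · rintro ⟨k, x⟩ ⟨l, y⟩ hxy
    have hkl : ¬ k = l := fun h3 => hxy (if_pos h3)
    have h3 : A (φ (Sum.inl ⟨k, x⟩)) (φ (Sum.inl ⟨l, y⟩)) ≠ 0 := by
      have h4 : Nm ⟨k, x⟩ ⟨l, y⟩ = A (φ (Sum.inl ⟨k, x⟩)) (φ (Sum.inl ⟨l, y⟩)) := if_neg hkl
      rwa [h4] at hxy
    have h4 : β (φ (Sum.inl ⟨k, x⟩)) = some (k : ℕ) := (ek k x).2
    have h5 : β (φ (Sum.inl ⟨l, y⟩)) = some (l : ℕ) := (ek l y).2
    rcases hA0 _ _ h3 with h6 | h6 | h6 | ⟨a, b, ha, hb, hab⟩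
    · rw [h4] at h6; cases h6
    · rw [h5] at h6; cases h6
    · rw [h4, h5] at h6
      exact absurd (Fin.ext (Option.some.inj h6)) hkl
    · rw [h4] at ha
      rw [h5] at hb
      rw [← Option.some.inj ha, ← Option.some.inj hb] at hab
      exact hab
  · rintro ⟨k, x⟩ ⟨l, y⟩
    by_cases hkl : k = l
    · have h4 : Nm ⟨k, x⟩ ⟨l, y⟩ = 0 := if_pos hkl
      rw [h4, totalDegree_zero]
      exact Nat.zero_le _
    · have h4 : Nm ⟨k, x⟩ ⟨l, y⟩ = A (φ (Sum.inl ⟨k, x⟩)) (φ (Sum.inl ⟨l, y⟩)) := if_neg hkl
      rw [h4]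
      exact hd _ _

/-- one labelling -/
theorem mixed_of_layered1 {N c q L d : ℕ}
    {A : Matrix (Fin N) (Fin N) (MvPolynomial (Fin m) F)}
    {β : Fin N → Option ℕ} {lev : ℕ → ℕ} (h : Layered1 c q L A β lev)
    (hd : ∀ i j, (A i j).totalDegree ≤ d) (hdet : A.det ≠ 0) :
    Mixed (q * d) ((c * (L * q + 1)) * ((L + 2) * ((q + 1) * d))) A.det := by
  classical
  let S : Finset ℕ := (univ.image β).eraseNone.filter fun k => (blk A β k).det = 0
  have hS : S.card ≤ L * c := by
    have h1 : S ⊆ (Finset.range L).biUnion fun l => S.filter fun k => lev k = l := by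
      intro k hk
      rw [Finset.mem_biUnion]
      exact ⟨lev k, Finset.mem_range.2 (h.2.2.1 k), Finset.mem_filter.2 ⟨hk, rfl⟩⟩
    refine (Finset.card_le_card h1).trans ?_
    refine (Finset.card_biUnion_le_card_mul _ _ c fun l _ => ?_).trans (by simp)
    refine card_sing_level h hdet l _ fun k hk => ?_
    rw [Finset.mem_filter] at hk
    exact ⟨hk.2, (Finset.mem_filter.1 hk.1).2⟩
  let β' : Fin N → Option ℕ := fun i => (β i).bind fun k => if k ∈ S then none else some k
  have hβ : ∀ i k, β' i = some k ↔ β i = some k ∧ k ∉ S := by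
    intro i k
    simp only [β']
    rcases h1 : β i with _ | l
    · simp
    · simp only [Option.bind_some, Option.some.injEq]
      by_cases hl : l ∈ S
      · simp only [hl, if_true]
        constructor
        · intro h2; cases h2
        · rintro ⟨rfl, h2⟩; exact absurd hl h2
      · simp only [hl, if_false, Option.some.injEq]
        constructor
        · rintro rfl; exact ⟨rfl, hl⟩
        · exact fun h2 => h2.1
  have hβn : ∀ i, β' i = none ↔ β i = none ∨ ∃ k ∈ S, β i = some k := by
    intro i
    simp only [β']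
    rcases h1 : β i with _ | l
    · simp
    · simp only [Option.bind_some, reduceCtorEq, Option.some.injEq, false_or]
      by_cases hl : l ∈ S
      · simp [hl]
      · simp [hl]
  refine mixed_of_layered_regular (β := β') (lev := lev) ⟨?_, ?_, h.2.2.1, ?_⟩ hd ?_
  · have h1 : (univ.filter fun i => β' i = none) ⊆ (univ.filter fun i => β i = none) ∪
        S.biUnion fun k => univ.filter fun i => β i = some k := by
      intro i hi
      rw [Finset.mem_filter, hβn] at hi
      rcases hi.2 with h2 | ⟨k, hk, h2⟩
      · exact Finset.mem_union_left _ (by simp [h2])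
      · exact Finset.mem_union_right _ (Finset.mem_biUnion.2 ⟨k, hk, by simp [h2]⟩)
    refine (Finset.card_le_card h1).trans ((Finset.card_union_le _ _).trans ?_)
    have h2 : (S.biUnion fun k => univ.filter fun i => β i = some k).card ≤ S.card * q :=
      Finset.card_biUnion_le_card_mul _ _ _ fun k _ => h.2.1 k
    have h3 : S.card * q ≤ L * c * q := Nat.mul_le_mul_right _ hS
    have h4 := h.1
    have h5 : c * (L * q + 1) = L * c * q + c := by ring
    rw [h5]
    omega
  · intro k
    refine (Finset.card_le_card fun i hi => ?_).trans (h.2.1 k)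
    rw [Finset.mem_filter, hβ] at hi
    exact Finset.mem_filter.2 ⟨Finset.mem_univ i, hi.2.1⟩
  · intro i j hij
    rcases h1 : β' i with _ | k
    · exact Or.inl rfl
    · rcases h2 : β' j with _ | l
      · exact Or.inr (Or.inl rfl)
      · right; right
        have h3 := ((hβ i k).1 h1).1
        have h4 := ((hβ j l).1 h2).1
        rcases h.2.2.2 i j hij with h5 | h5 | h5 | ⟨a, b, ha, hb, hab⟩
        · rw [h3] at h5; cases h5
        · rw [h4] at h5; cases h5
        · left
          rw [← h3, ← h4, h5]
        · right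
          rw [h3] at ha
          rw [h4] at hb
          exact ⟨a, b, ha, hb, hab⟩
  · intro k
    by_cases hk : k ∈ S
    · have : IsEmpty {i // β' i = some k} := ⟨fun i => ((hβ i k).1 i.2).2 hk⟩
      rw [Matrix.det_isEmpty]
      exact one_ne_zero
    · let e : {i // β' i = some k} ≃ {i // β i = some k} :=
        Equiv.subtypeEquivRight fun i => by rw [hβ]; exact and_iff_left hk
      have h1 : blk A β' k = (blk A β k).submatrix e e := rfl
      rw [h1, Matrix.det_submatrix_equiv_self]
      intro h2
      by_cases h3 : ∃ i, β i = some k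
      · obtain ⟨i, hi⟩ := h3
        exact hk (Finset.mem_filter.2 ⟨Finset.mem_eraseNone.2
          (Finset.mem_image.2 ⟨i, Finset.mem_univ i, hi⟩), h2⟩)
      · have : IsEmpty {i // β i = some k} := ⟨fun i => h3 ⟨i, i.2⟩⟩
        rw [Matrix.det_isEmpty] at h2
        exact one_ne_zero h2

/-- after a permutation of the columns and the deletion of at most `c` rows and the columns with
the same indices, the strongly connected components have at most `q` indices and lie in `L`
levels -/
def Layered {N : ℕ} (c q L : ℕ) (A : Matrix (Fin N) (Fin N) (MvPolynomial (Fin m) F)) : Prop :=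
  ∃ (σ : Equiv.Perm (Fin N)) (β : Fin N → Option ℕ) (lev : ℕ → ℕ),
    (univ.filter fun i => β i = none).card ≤ c ∧
    (∀ k, (univ.filter fun i => β i = some k).card ≤ q) ∧ (∀ k, lev k < L) ∧
    ∀ i j, A i (σ j) ≠ 0 → β i = none ∨ β j = none ∨ β i = β j ∨
      ∃ k l, β i = some k ∧ β j = some l ∧ lev k < lev l

/-- the determinant of a layered matrix is mixed -/
theorem mixed_of_layered46 {N c q L d : ℕ}
    {A : Matrix (Fin N) (Fin N) (MvPolynomial (Fin m) F)}
    (h : Layered c q L A) (hd : ∀ i j, (A i j).totalDegree ≤ d) :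
    Mixed (q * d) ((c * (L * q + 1)) * ((L + 2) * ((q + 1) * d))) A.det := by
  classical
  by_cases hdet : A.det = 0
  · rw [hdet]
    exact ⟨0, by simp, 0, Submodule.zero_mem _, by simp⟩
  obtain ⟨σ, β, lev, h⟩ := h
  let A' := A.submatrix id σ
  have hA' : A'.det = (Equiv.Perm.sign σ : MvPolynomial (Fin m) F) * A.det :=
    Matrix.det_permute' σ A
  have hs : Layered1 c q L A' β lev := h
  have hsgn : (Equiv.Perm.sign σ : MvPolynomial (Fin m) F) *
      (Equiv.Perm.sign σ : MvPolynomial (Fin m) F) = 1 := by
    rcases Int.units_eq_one_or (Equiv.Perm.sign σ) with h1 | h1 <;> rw [h1] <;> simp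
  have hdet' : A'.det ≠ 0 := by
    rw [hA']
    refine mul_ne_zero ?_ hdet
    intro h1
    rw [h1, zero_mul] at hsgn
    exact zero_ne_one hsgn
  obtain ⟨T, hT, ψ, hψ, h1⟩ := mixed_of_layered1 hs (fun i j => hd _ _) hdet'
  rcases Int.units_eq_one_or (Equiv.Perm.sign σ) with h2 | h2
  · refine ⟨T, hT, ψ, hψ, ?_⟩
    rw [← h1, hA', h2]
    simp
  · refine ⟨T, hT, -ψ, Submodule.neg_mem _ hψ, ?_⟩
    rw [mul_neg, ← h1, hA', h2]
    simp

end Pool.Agent.Lib.MP_64d474_lc.GF
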