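import Pool.Agent.Lib.MP_64d474_lc.GF.ExchDefs66
import Pool.Agent.Lib.MP_64d474_lc.GF.LayB46

set_option autoImplicit false

/-!
# Layered matrices: nonzero terms map all but a few blocks to themselves
-/

namespace Pool.Agent.Lib.MP_64d474_lc.GF

open MvPolynomial Finset

universe u

variable {F : Type u} [Field F] {m N : ℕ}

/-- as many indices leave a set as enter it -/
theorem card_leave (τ : Equiv.Perm (Fin N)) (H : Finset (Fin N)) :
    (univ.filter fun j => j ∈ H ∧ τ j ∉ H).card = (univ.filter fun j => j ∉ H ∧ τ j ∈ H).card := by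
  classical
  have h1 : (univ.filter fun j => τ j ∈ H).card = H.card := by
    refine Finset.card_bij (fun j _ => τ j) ?_ ?_ ?_
    · intro j hj; exact (Finset.mem_filter.1 hj).2
    · intro i _ j _ hij; exact τ.injective hij
    · intro i hi; exact ⟨τ.symm i, by simpa using hi, by simp⟩
  have h2 : (univ.filter fun j => j ∈ H ∧ τ j ∉ H).card +
      (univ.filter fun j => j ∈ H ∧ τ j ∈ H).card = H.card := by
    rw [← Finset.card_union_of_disjoint]
    · congr 1
      ext j
      simp only [Finset.mem_union, Finset.mem_filter, Finset.mem_univ, true_and]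
      tauto
    · rw [Finset.disjoint_left]
      intro j h3 h4
      exact (Finset.mem_filter.1 h3).2.2 (Finset.mem_filter.1 h4).2.2
  have h3 : (univ.filter fun j => j ∉ H ∧ τ j ∈ H).card +
      (univ.filter fun j => j ∈ H ∧ τ j ∈ H).card = (univ.filter fun j => τ j ∈ H).card := by
    rw [← Finset.card_union_of_disjoint]
    · congr 1
      ext j
      simp only [Finset.mem_union, Finset.mem_filter, Finset.mem_univ, true_and]
      tauto
    · rw [Finset.disjoint_left]
      intro j h3 h4
      exact (Finset.mem_filter.1 h3).2.1 (Finset.mem_filter.1 h4).2.1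
  omega

theorem layExch66 {c q L : ℕ} {A : Matrix (Fin N) (Fin N) (MvPolynomial (Fin m) F)} (hq : 1 ≤ q)
    (h : Layered c q L A) : Exch q (c * (L + 1)) A := by
  classical
  obtain ⟨σ, b, lev, hc, hqk, hL, hA0⟩ := h
  let β : Fin N → ℕ := fun i => match b i with
    | some k => 2 * k
    | none => 2 * (i : ℕ) + 1
  have hβs : ∀ i k, b i = some k → β i = 2 * k := by
    intro i k hi
    simp only [β, hi]
  have hβn : ∀ i, b i = none → β i = 2 * (i : ℕ) + 1 := by
    intro i hi
    simp only [β, hi]
  refine ⟨σ, β, ?_, ?_⟩
  · intro κ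
    obtain ⟨k, rfl | rfl⟩ := Nat.even_or_odd' κ
    · refine (Finset.card_le_card fun i hi => ?_).trans (hqk k)
      rw [Finset.mem_filter] at hi ⊢
      refine ⟨Finset.mem_univ i, ?_⟩
      rcases h1 : b i with _ | l
      · have h2 := hβn i h1
        omega
      · have h2 := hβs i l h1
        have h3 : l = k := by omega
        rw [h3]
    · refine (Finset.card_le_one.2 fun i hi j hj => ?_).trans hq
      rw [Finset.mem_filter] at hi hj
      have key : ∀ i, β i = 2 * k + 1 → (i : ℕ) = k := by
        intro i hi
        rcases h1 : b i with _ | l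
        · have h2 := hβn i h1
          omega
        · have h2 := hβs i l h1
          omega
      exact Fin.ext ((key i hi.2).trans (key j hj.2).symm)
  · intro τ hτ
    let H : ℕ → Finset (Fin N) := fun l => univ.filter fun j => ∃ k, b j = some k ∧ l ≤ lev k
    let E : ℕ → Finset (Fin N) := fun l => univ.filter fun j => j ∈ H l ∧ τ j ∉ H l
    have hE : ∀ l, (E l).card ≤ c := by
      intro l
      refine (card_leave τ (H l)).le.trans ((Finset.card_le_card fun j hj => ?_).trans hc)
      obtain ⟨-, hj1, hj2⟩ := Finset.mem_filter.1 hj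
      refine Finset.mem_filter.2 ⟨Finset.mem_univ j, ?_⟩
      obtain ⟨-, k, hk, hlk⟩ := Finset.mem_filter.1 hj2
      by_contra hne
      rcases hA0 (τ j) j (hτ j) with h1 | h1 | h1 | ⟨k', l', h1, h2, h3⟩
      · rw [hk] at h1; cases h1
      · exact hne h1
      · exact hj1 (Finset.mem_filter.2 ⟨Finset.mem_univ j, k, h1 ▸ hk, hlk⟩)
      · rw [hk] at h1
        have h4 : k = k' := Option.some.inj h1
        exact hj1 (Finset.mem_filter.2 ⟨Finset.mem_univ j, l', h2, by rw [h4] at hlk; omega⟩)
    have hsub : ((univ.image β).filter fun k => ∃ j, β j = k ∧ β (τ j) ≠ k) ⊆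
        (univ.filter fun i => b i = none).image β ∪
          (Finset.range L).biUnion fun l => (E l).image β := by
      intro κ hκ
      obtain ⟨-, j, rfl, hj⟩ := Finset.mem_filter.1 hκ
      rcases h1 : b j with _ | k
      · exact Finset.mem_union_left _ (Finset.mem_image_of_mem β
          (Finset.mem_filter.2 ⟨Finset.mem_univ j, h1⟩))
      · refine Finset.mem_union_right _ (Finset.mem_biUnion.2
          ⟨lev k, Finset.mem_range.2 (hL k), Finset.mem_image_of_mem β ?_⟩)
        refine Finset.mem_filter.2 ⟨Finset.mem_univ j,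
          Finset.mem_filter.2 ⟨Finset.mem_univ j, k, h1, le_rfl⟩, fun hmem => ?_⟩
        obtain ⟨-, k₂, hk₂, hlk⟩ := Finset.mem_filter.1 hmem
        rcases hA0 (τ j) j (hτ j) with h2 | h2 | h2 | ⟨k', l', h2, h3, h4⟩
        · rw [hk₂] at h2; cases h2
        · rw [h1] at h2; cases h2
        · apply hj
          rw [hβs _ _ hk₂, hβs _ _ h1]
          rw [hk₂, h1] at h2
          rw [Option.some.inj h2]
        · rw [hk₂] at h2
          rw [h1] at h3
          have h5 := Option.some.inj h2
          have h6 := Option.some.inj h3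
          rw [h5, h6] at hlk
          omega
    refine (Finset.card_le_card hsub).trans ((Finset.card_union_le _ _).trans ?_)
    have h1 : ((Finset.range L).biUnion fun l => (E l).image β).card ≤ L * c := by
      refine (Finset.card_biUnion_le_card_mul _ _ c fun l _ =>
        Finset.card_image_le.trans (hE l)).trans (by simp)
    have h2 : ((univ.filter fun i => b i = none).image β).card ≤ c :=
      Finset.card_image_le.trans hc
    calc _ ≤ c + L * c := Nat.add_le_add h2 h1
      _ = c * (L + 1) := by ring

end Pool.Agent.Lib.MP_64d474_lc.GF
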