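import Pool.Agent.Lib.MP_64d474_lc.S3.Hit35

set_option autoImplicit false

/-!
# The size of the coordinates of the grid
-/

namespace Pool.Agent.Lib.MP_64d474_lc.GF

open Finset

/-- the coordinates of the grid have polynomial bit length -/
theorem size_grid (m n s : ℕ) : ∀ x ∈ S3.grid m n s, ∀ k,
    |x k| ≤ (s * n * ((n + 1) * m) ^ m : ℕ) := by
  intro x hx k
  obtain ⟨p, -, rfl⟩ := Finset.mem_image.1 hx
  have hm : 0 < m := k.pos
  have hone : (1 : ℤ) ≤ ((n : ℤ) + 1) * m := by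
    have h1 : (1 : ℤ) ≤ (m : ℤ) := by exact_mod_cast hm
    nlinarith [Int.natCast_nonneg n]
  have hfac : ∀ i, |∏ j ∈ univ.erase k, (((p.1 i : ℕ) : ℤ) - ((j : ℕ) : ℤ))| ≤
      (((n : ℤ) + 1) * m) ^ m := by
    intro i
    rw [Finset.abs_prod]
    have h1 : ∀ j ∈ univ.erase k, |(((p.1 i : ℕ) : ℤ) - ((j : ℕ) : ℤ))| ≤ ((n : ℤ) + 1) * m := by
      intro j _
      have hj : ((j : ℕ) : ℤ) < m := by exact_mod_cast j.2
      have hj0 : (0 : ℤ) ≤ ((j : ℕ) : ℤ) := Int.natCast_nonneg _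
      have hy0 : (0 : ℤ) ≤ ((p.1 i : ℕ) : ℤ) := Int.natCast_nonneg _
      have hy : ((p.1 i : ℕ) : ℤ) ≤ (n : ℤ) * m := by
        have h2 : (p.1 i : ℕ) ≤ n * (m - 1) := Nat.le_of_lt_succ (p.1 i).2
        have h3 : n * (m - 1) ≤ n * m := Nat.mul_le_mul_left n (Nat.sub_le m 1)
        exact_mod_cast h2.trans h3
      have hn : (0 : ℤ) ≤ (n : ℤ) * m := by positivity
      rw [abs_le]
      constructor <;> nlinarith
    refine (Finset.prod_le_prod (fun _ _ => abs_nonneg _) h1).trans ?_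
    rw [Finset.prod_const]
    exact pow_le_pow_right₀ hone (by
      rw [Finset.card_erase_of_mem (Finset.mem_univ k), Finset.card_univ, Fintype.card_fin]
      exact Nat.sub_le m 1)
  have hterm : ∀ i, |((p.2 i : ℕ) : ℤ) * ∏ j ∈ univ.erase k, (((p.1 i : ℕ) : ℤ) - ((j : ℕ) : ℤ))| ≤
      (n : ℤ) * (((n : ℤ) + 1) * m) ^ m := by
    intro i
    rw [abs_mul]
    refine mul_le_mul ?_ (hfac i) (abs_nonneg _) (Int.natCast_nonneg n)
    rw [abs_of_nonneg (Int.natCast_nonneg _)]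
    exact_mod_cast Nat.le_of_lt_succ (p.2 i).2
  calc |∑ i, ((p.2 i : ℕ) : ℤ) * ∏ j ∈ univ.erase k, (((p.1 i : ℕ) : ℤ) - ((j : ℕ) : ℤ))|
      ≤ ∑ i, |((p.2 i : ℕ) : ℤ) * ∏ j ∈ univ.erase k, (((p.1 i : ℕ) : ℤ) - ((j : ℕ) : ℤ))| :=
        Finset.abs_sum_le_sum_abs _ _
    _ ≤ ∑ _i : Fin s, (n : ℤ) * (((n : ℤ) + 1) * m) ^ m := Finset.sum_le_sum fun i _ => hterm i
    _ = (s * n * ((n + 1) * m) ^ m : ℕ) := by
        rw [Finset.sum_const, Finset.card_univ, Fintype.card_fin, nsmul_eq_mul]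
        push_cast
        ring

end Pool.Agent.Lib.MP_64d474_lc.GF
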