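import Mathlib

set_option autoImplicit false

/-!
# Derivations of the field of rational functions
-/

namespace Pool.Agent.Lib.MP_64d474_lc.GF

open MvPolynomial

universe u

section lift

variable {F R K : Type u} [Field F] [CommRing R] [IsDomain R] [Algebra F R] [Field K] [Algebra R K]
  [IsFractionRing R K] [Algebra F K] [IsScalarTower F R K]

/-- the ring homomorphism `r ↦ r + D r ε` -/
noncomputable def liftAux (D : Derivation F R K) : R →+* TrivSqZeroExt K K where
  toFun r := TrivSqZeroExt.inl (algebraMap R K r) + TrivSqZeroExt.inr (D r)
  map_one' := by simp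
  map_mul' a b := by
    apply TrivSqZeroExt.ext
    · simp only [TrivSqZeroExt.fst_mul, TrivSqZeroExt.fst_add, TrivSqZeroExt.fst_inl,
        TrivSqZeroExt.fst_inr, add_zero, map_mul]
    · simp only [TrivSqZeroExt.snd_mul, TrivSqZeroExt.snd_add, TrivSqZeroExt.snd_inl,
        TrivSqZeroExt.snd_inr, zero_add, TrivSqZeroExt.fst_add, TrivSqZeroExt.fst_inl,
        TrivSqZeroExt.fst_inr, add_zero, Derivation.leibniz, Algebra.smul_def,
        MulOpposite.smul_eq_mul_unop, MulOpposite.unop_op, Algebra.algebraMap_self,
        RingHom.id_apply]
      ring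
  map_zero' := by simp
  map_add' a b := by
    ext <;> simp

theorem liftAux_unit (D : Derivation F R K) (r : nonZeroDivisors R) :
    IsUnit (liftAux D r) := by
  rw [TrivSqZeroExt.isUnit_iff_isUnit_fst]
  have h : (liftAux D r).fst = algebraMap R K r := by simp [liftAux]
  rw [h, isUnit_iff_ne_zero]
  exact IsFractionRing.to_map_ne_zero_of_mem_nonZeroDivisors r.2

/-- the extension to the fraction field -/
noncomputable def liftHom (D : Derivation F R K) : K →+* TrivSqZeroExt K K :=
  IsLocalization.lift (M := nonZeroDivisors R) (liftAux_unit D)

theorem liftHom_algebraMap (D : Derivation F R K) (r : R) :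
    liftHom D (algebraMap R K r) = liftAux D r :=
  IsLocalization.lift_eq (M := nonZeroDivisors R) (liftAux_unit D) r

theorem fst_liftHom (D : Derivation F R K) (x : K) : (liftHom D x).fst = x := by
  have h : (TrivSqZeroExt.fstHom K K K : TrivSqZeroExt K K →+* K).comp (liftHom D) =
      RingHom.id K := by
    apply IsLocalization.ringHom_ext (nonZeroDivisors R)
    ext r
    simp only [RingHom.comp_apply, liftHom_algebraMap, RingHom.id_apply]
    simp [liftAux]
  exact congrArg (fun g : K →+* K => g x) h

/-- the extension of a derivation to the fraction field -/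
noncomputable def liftDer (D : Derivation F R K) : Derivation F K K where
  toFun x := (liftHom D x).snd
  map_add' x y := by simp
  map_smul' c x := by
    rw [Algebra.smul_def, map_mul, TrivSqZeroExt.snd_mul, fst_liftHom, fst_liftHom]
    have h : (liftHom D (algebraMap F K c)).snd = 0 := by
      rw [IsScalarTower.algebraMap_apply F R K, liftHom_algebraMap]
      simp [liftAux]
    rw [h]
    simp [Algebra.smul_def]
  map_one_eq_zero' := by simp
  leibniz' x y := by
    change (liftHom D (x * y)).snd = _
    rw [map_mul, TrivSqZeroExt.snd_mul, fst_liftHom, fst_liftHom]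
    simp [mul_comm]

theorem liftDer_algebraMap (D : Derivation F R K) (r : R) :
    liftDer D (algebraMap R K r) = D r := by
  change (liftHom D (algebraMap R K r)).snd = _
  rw [liftHom_algebraMap]
  simp [liftAux]

end lift

/-- the directional derivative in the direction `e` of rational functions -/
noncomputable def dK {F : Type u} [Field F] {m : ℕ} (e : Fin m → F) :
    Derivation F (FractionRing (MvPolynomial (Fin m) F)) (FractionRing (MvPolynomial (Fin m) F)) :=
  liftDer (R := MvPolynomial (Fin m) F)
    ((Algebra.linearMap (MvPolynomial (Fin m) F) (FractionRing (MvPolynomial (Fin m) F))).compDer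
      (mkDerivation F fun i => C (e i)))

theorem dK_algebraMap {F : Type u} [Field F] {m : ℕ} (e : Fin m → F)
    (f : MvPolynomial (Fin m) F) :
    dK e (algebraMap _ (FractionRing (MvPolynomial (Fin m) F)) f) =
      algebraMap _ (FractionRing (MvPolynomial (Fin m) F)) (∑ i, C (e i) * pderiv i f) := by
  rw [dK, liftDer_algebraMap]
  have h : mkDerivation F (fun i => (C (e i) : MvPolynomial (Fin m) F)) f =
      ∑ i, C (e i) * pderiv i f := by
    classical
    induction f using MvPolynomial.induction_on with
    | C a => simp
    | add p q hp hq => simp only [map_add, hp, hq, mul_add, Finset.sum_add_distrib]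
    | mul_X p j hp =>
      rw [Derivation.leibniz, hp, mkDerivation_X]
      simp only [Derivation.leibniz, pderiv_X, smul_eq_mul, Pi.single_apply, mul_add,
        Finset.sum_add_distrib, mul_ite, mul_one, mul_zero, Finset.sum_ite_eq,
        Finset.mem_univ, if_true, Finset.mul_sum]
      congr 1
      · rw [mul_comm]
      · exact Finset.sum_congr rfl fun i _ => by ring
  change algebraMap _ (FractionRing (MvPolynomial (Fin m) F))
    (mkDerivation F (fun i => (C (e i) : MvPolynomial (Fin m) F)) f) = _
  rw [h]

end Pool.Agent.Lib.MP_64d474_lc.GF
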