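import Pool.Agent.Lib.MP_64d474_lc.GF.Defs66
import Pool.Agent.Lib.MP_64d474_lc.GF.Der66
import Pool.Agent.Lib.MP_64d474_lc.FV.Jac66
import Pool.Agent.Lib.MP_64d474_lc.FV.J95
import Pool.Agent.Lib.MP_64d474_lc.FV.K97

set_option autoImplicit false

/-!
# The final statement from the row HIT
-/

namespace Pool.Agent.Lib.MP_64d474_lc.GF

open MvPolynomial

universe u

variable {F : Type u} [Field F] {m : ℕ}

theorem AA_mono {s t : ℕ} (h : s ≤ t) : AA F m s ≤ AA F m t :=
  Submodule.span_mono (by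
    rintro x ⟨a, b, ha, hb, h0, rfl⟩
    exact ⟨a, b, ha.trans h, hb.trans h, h0, rfl⟩)

theorem frac_mem {t : ℕ} {a b : MvPolynomial (Fin m) F} (ha : a.totalDegree ≤ t)
    (hb : b.totalDegree ≤ t) (h0 : b ≠ 0) :
    algebraMap _ (FractionRing (MvPolynomial (Fin m) F)) a /
      algebraMap _ (FractionRing (MvPolynomial (Fin m) F)) b ∈ AA F m t :=
  Submodule.subset_span ⟨a, b, ha, hb, h0, rfl⟩

theorem poly_mem {t : ℕ} {a : MvPolynomial (Fin m) F} (ha : a.totalDegree ≤ t) :
    algebraMap _ (FractionRing (MvPolynomial (Fin m) F)) a ∈ AA F m t := by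
  have h := frac_mem (b := 1) ha (by simp) one_ne_zero
  rwa [map_one, div_one] at h

theorem one_mem' (t : ℕ) : (1 : FractionRing (MvPolynomial (Fin m) F)) ∈ AA F m t := by
  have h := poly_mem (F := F) (m := m) (t := t) (a := 1) (by simp)
  rwa [map_one] at h

theorem AA_mul {s t : ℕ} {x y : FractionRing (MvPolynomial (Fin m) F)} (hx : x ∈ AA F m s)
    (hy : y ∈ AA F m t) : x * y ∈ AA F m (s + t) := by
  have h := Submodule.mul_mem_mul hx hy
  rw [AA, AA, Submodule.span_mul_span] at h
  refine (Submodule.span_le.2 ?_) h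
  rintro _ ⟨_, ⟨a, b, ha, hb, h0, rfl⟩, _, ⟨a', b', ha', hb', h0', rfl⟩, rfl⟩
  change algebraMap _ (FractionRing (MvPolynomial (Fin m) F)) a /
      algebraMap _ (FractionRing (MvPolynomial (Fin m) F)) b *
      (algebraMap _ (FractionRing (MvPolynomial (Fin m) F)) a' /
      algebraMap _ (FractionRing (MvPolynomial (Fin m) F)) b') ∈ AA F m (s + t)
  rw [div_mul_div_comm, ← map_mul, ← map_mul]
  exact frac_mem ((totalDegree_mul _ _).trans (Nat.add_le_add ha ha'))
    ((totalDegree_mul _ _).trans (Nat.add_le_add hb hb')) (mul_ne_zero h0 h0')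

theorem AA_prod {ι : Type*} (s : Finset ι) {t : ℕ} (x : ι → FractionRing (MvPolynomial (Fin m) F))
    (hx : ∀ i ∈ s, x i ∈ AA F m t) : ∏ i ∈ s, x i ∈ AA F m (s.card * t) := by
  classical
  induction s using Finset.induction_on with
  | empty => simpa using one_mem' 0
  | insert a s ha ih =>
    rw [Finset.prod_insert ha, Finset.card_insert_of_notMem ha, Nat.succ_mul, add_comm]
    exact AA_mul (hx a (Finset.mem_insert_self a s))
      (ih fun i hi => hx i (Finset.mem_insert_of_mem hi))

theorem AA_det {n t : ℕ} (M : Matrix (Fin n) (Fin n) (FractionRing (MvPolynomial (Fin m) F)))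
    (hM : ∀ i j, M i j ∈ AA F m t) : M.det ∈ AA F m (n * t) := by
  rw [Matrix.det_apply]
  refine Submodule.sum_mem _ fun σ _ => ?_
  have h := AA_prod (F := F) Finset.univ (fun i => M (σ i) i) fun i _ => hM (σ i) i
  rw [Finset.card_univ, Fintype.card_fin] at h
  rcases Int.units_eq_one_or (Equiv.Perm.sign σ) with h1 | h1 <;> rw [h1]
  · rwa [one_smul]
  · rw [Units.neg_smul, one_smul]
    exact Submodule.neg_mem _ h

theorem totalDegree_pderiv_le (i : Fin m) (f : MvPolynomial (Fin m) F) :
    (pderiv i f).totalDegree ≤ f.totalDegree := by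
  classical
  conv_lhs => rw [f.as_sum, map_sum]
  refine (totalDegree_finsetSum _ _).trans (Finset.sup_le fun d hd => ?_)
  rw [pderiv_monomial]
  refine (totalDegree_monomial_le _ _).trans ?_
  refine le_trans ?_ (le_totalDegree hd)
  rw [Finsupp.sum_fintype _ _ (fun _ => rfl), Finsupp.sum_fintype _ _ (fun _ => rfl)]
  exact Finset.sum_le_sum fun j _ => by simp

theorem dK_frac_mem (e : Fin m → F) {t : ℕ} {a b : MvPolynomial (Fin m) F}
    (ha : a.totalDegree ≤ t) (hb : b.totalDegree ≤ t) (h0 : b ≠ 0) :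
    dK e (algebraMap _ (FractionRing (MvPolynomial (Fin m) F)) a /
      algebraMap _ (FractionRing (MvPolynomial (Fin m) F)) b) ∈ AA F m (2 * t) := by
  have hd : ∀ f : MvPolynomial (Fin m) F,
      (∑ i, C (e i) * pderiv i f).totalDegree ≤ f.totalDegree := fun f =>
    (totalDegree_finsetSum _ _).trans (Finset.sup_le fun i _ =>
      (totalDegree_mul _ _).trans (by
        rw [totalDegree_C, zero_add]; exact totalDegree_pderiv_le i f))
  have key : dK e (algebraMap _ (FractionRing (MvPolynomial (Fin m) F)) a /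
      algebraMap _ (FractionRing (MvPolynomial (Fin m) F)) b) =
      algebraMap _ (FractionRing (MvPolynomial (Fin m) F))
        (b * (∑ i, C (e i) * pderiv i a) - a * (∑ i, C (e i) * pderiv i b)) /
      algebraMap _ (FractionRing (MvPolynomial (Fin m) F)) (b ^ 2) := by
    rw [Derivation.leibniz_div, dK_algebraMap, dK_algebraMap, map_sub, map_mul, map_mul, map_pow]
    simp only [smul_eq_mul]
    rw [inv_pow, div_eq_mul_inv, mul_comm]
  rw [key]
  refine frac_mem ((totalDegree_sub _ _).trans (max_le ?_ ?_)) ?_ (pow_ne_zero _ h0)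
  · exact (totalDegree_mul _ _).trans ((Nat.add_le_add hb ((hd a).trans ha)).trans (by omega))
  · exact (totalDegree_mul _ _).trans ((Nat.add_le_add ha ((hd b).trans hb)).trans (by omega))
  · exact (totalDegree_pow _ _).trans (Nat.mul_le_mul_left _ hb)

theorem dK_mem (e : Fin m → F) {t : ℕ} {x : FractionRing (MvPolynomial (Fin m) F)}
    (hx : x ∈ AA F m t) : dK e x ∈ AA F m (2 * t) := by
  induction hx using Submodule.span_induction with
  | mem x hx =>
    obtain ⟨a, b, ha, hb, h0, rfl⟩ := hx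
    exact dK_frac_mem e ha hb h0
  | zero => rw [map_zero]; exact Submodule.zero_mem _
  | add x y _ _ hx hy => rw [map_add]; exact Submodule.add_mem _ hx hy
  | smul c x _ hx => rw [Derivation.map_smul]; exact Submodule.smul_mem _ _ hx

/-- the logarithmic derivative of a product -/
theorem dK_prod (e : Fin m → F) {d : ℕ} (T : Multiset (MvPolynomial (Fin m) F))
    (hT : ∀ g ∈ T, g ≠ 0 ∧ g.totalDegree ≤ d) :
    ∃ ψ ∈ AA F m d, dK e (algebraMap _ (FractionRing (MvPolynomial (Fin m) F)) T.prod) =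
      algebraMap _ (FractionRing (MvPolynomial (Fin m) F)) T.prod * ψ := by
  induction T using Multiset.induction_on with
  | empty =>
    refine ⟨0, Submodule.zero_mem _, ?_⟩
    rw [Multiset.prod_zero, map_one, Derivation.map_one_eq_zero, mul_zero]
  | cons g T ih =>
    obtain ⟨ψ, hψ, h⟩ := ih fun x hx => hT x (Multiset.mem_cons_of_mem hx)
    obtain ⟨hg0, hg⟩ := hT g (Multiset.mem_cons_self g T)
    have hd : (∑ i, C (e i) * pderiv i g).totalDegree ≤ d :=
      (totalDegree_finsetSum _ _).trans (Finset.sup_le fun i _ =>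
        (totalDegree_mul _ _).trans (by
          rw [totalDegree_C, zero_add]; exact (totalDegree_pderiv_le i g).trans hg))
    have hg1 : algebraMap _ (FractionRing (MvPolynomial (Fin m) F)) g ≠ 0 := by
      rw [Ne, map_eq_zero_iff _ (IsFractionRing.injective _ _)]
      exact hg0
    refine ⟨ψ + algebraMap _ (FractionRing (MvPolynomial (Fin m) F))
      (∑ i, C (e i) * pderiv i g) / algebraMap _ (FractionRing (MvPolynomial (Fin m) F)) g,
      Submodule.add_mem _ hψ (frac_mem hd hg hg0), ?_⟩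
    rw [Multiset.prod_cons, map_mul, Derivation.leibniz, h, dK_algebraMap, smul_eq_mul,
      smul_eq_mul]
    field_simp

/-- all partial derivatives of a mixed polynomial are mixed, with the same product -/
theorem mixed_pderiv {d t : ℕ} {f : MvPolynomial (Fin m) F} (hf : Mixed d t f) :
    ∃ T : Multiset (MvPolynomial (Fin m) F), (∀ g ∈ T, g ≠ 0 ∧ g.totalDegree ≤ d) ∧
      ∀ i : Fin m, ∃ φ ∈ AA F m (2 * t + d),
        algebraMap _ (FractionRing (MvPolynomial (Fin m) F)) (pderiv i f) =
          algebraMap _ (FractionRing (MvPolynomial (Fin m) F)) T.prod * φ := by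
  classical
  obtain ⟨T, hT, φ, hφ, h⟩ := hf
  refine ⟨T, hT, fun i => ?_⟩
  obtain ⟨ψ, hψ, h1⟩ := dK_prod (Pi.single i 1) T hT
  refine ⟨dK (Pi.single i 1) φ + φ * ψ, Submodule.add_mem _ (AA_mono (by omega)
    (dK_mem (Pi.single i 1) hφ)) (AA_mono (by omega) (AA_mul hφ hψ)), ?_⟩
  have h2 : (∑ j, C ((Pi.single i 1 : Fin m → F) j) * pderiv j f) = pderiv i f := by
    rw [Finset.sum_eq_single i]
    · simp
    · intro j _ hj
      simp [hj]
    · intro hi
      exact absurd (Finset.mem_univ i) hi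
  rw [← h2, ← dK_algebraMap, h, Derivation.leibniz, h1, smul_eq_mul, smul_eq_mul]
  ring

theorem mixed_jac {d t r p : ℕ} (f : Fin p → MvPolynomial (Fin m) F) (hf : ∀ a, Mixed d t (f a))
    {ρ : ℕ} (hρ : ρ ≤ r) (e : Fin ρ → Fin p) (κ : Fin ρ → Fin m) :
    Mixed d (r * (2 * t + d)) (Matrix.det (Matrix.of fun j a => pderiv (κ a) (f (e j)))) := by
  classical
  choose T hT φ hφ h using fun j : Fin ρ => mixed_pderiv (hf (e j))
  refine ⟨∑ j, T j, ?_, Matrix.det (Matrix.of fun j a => φ j (κ a)), ?_, ?_⟩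
  · intro g hg
    rw [Multiset.mem_sum] at hg
    obtain ⟨j, _, hj⟩ := hg
    exact hT j g hj
  · exact AA_mono (Nat.mul_le_mul_right _ hρ) (AA_det _ fun j a => hφ j (κ a))
  · rw [Multiset.prod_sum, map_prod, ← Matrix.det_mul_column, RingHom.map_det]
    congr 1
    ext j a
    simp only [RingHom.mapMatrix_apply, Matrix.map_apply, Matrix.of_apply]
    exact h j (κ a)

/-- The final statement. -/
theorem stGF (hH : StHIT.{u}) : StGF.{u} := by
  intro d t r
  obtain ⟨D, hD⟩ := hH d (r * (2 * t + d))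
  refine ⟨D + r, ?_⟩
  intro F _ _ m n p f hf hr h hh hn h0
  by_contra hc
  push Not at hc
  refine h0 (FV.jacHit FV.J95.stJ95 FV.rowK97 f hr (s₀ := D) ?_ h hh
    (S3.gen_eq_zero_of_grid _ hn hc))
  intro ρ e κ hρ hdet
  exact hD F m _ (mixed_jac f hf hρ e κ) hdet

end Pool.Agent.Lib.MP_64d474_lc.GF
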