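import Pool.Agent.Lib.MP_64d474_lc.GF.Defs66
import Pool.Agent.Lib.MP_64d474_lc.FV.Bord46

set_option autoImplicit false

/-!
# Row X: the determinant of a bordered matrix with small blocks is mixed
-/

namespace Pool.Agent.Lib.MP_64d474_lc.GF

open MvPolynomial Finset

universe u

section deg

variable {F : Type u} [Field F] {m : ℕ}

theorem totalDegree_det_le_sum {n : Type*} [Fintype n] [DecidableEq n]
    (M : Matrix n n (MvPolynomial (Fin m) F)) (r : n → ℕ)
    (h : ∀ i j, (M i j).totalDegree ≤ r i) : M.det.totalDegree ≤ ∑ i, r i := by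
  rw [Matrix.det_apply']
  refine (totalDegree_finsetSum _ _).trans (Finset.sup_le fun s _ => ?_)
  refine (totalDegree_mul _ _).trans ?_
  have h1 : ((((Equiv.Perm.sign s : ℤˣ) : ℤ) : MvPolynomial (Fin m) F)).totalDegree = 0 := by
    rcases Int.units_eq_one_or (Equiv.Perm.sign s) with h2 | h2
    · rw [h2]; simp
    · rw [h2]; simp
  rw [h1, zero_add]
  refine (totalDegree_finsetProd _ _).trans ?_
  refine (Finset.sum_le_sum fun i _ => h (s i) i).trans ?_
  exact le_of_eq (Equiv.sum_comp s r)

theorem totalDegree_adjugate_le {n : Type*} [Fintype n] [DecidableEq n]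
    (M : Matrix n n (MvPolynomial (Fin m) F)) (d : ℕ)
    (h : ∀ i j, (M i j).totalDegree ≤ d) (i j : n) :
    (M.adjugate i j).totalDegree ≤ (Fintype.card n - 1) * d := by
  rw [Matrix.adjugate_apply]
  refine (totalDegree_det_le_sum _ (fun l => if l = j then 0 else d) fun a b => ?_).trans ?_
  · rw [Matrix.updateRow_apply]
    split_ifs
    · by_cases hb : b = i
      · subst hb; simp
      · rw [Pi.single_eq_of_ne hb]; simp
    · exact h a b
  · rw [Finset.sum_ite, Finset.sum_const_zero, zero_add, Finset.sum_const, smul_eq_mul]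
    refine Nat.mul_le_mul_right _ ?_
    have h1 : (Finset.univ.filter fun l => ¬ l = j) = Finset.univ.erase j := by
      ext l; simp
    rw [h1, Finset.card_erase_of_mem (Finset.mem_univ _), Finset.card_univ]

end deg

section AA

variable {F : Type u} [Field F] {m : ℕ}

theorem AA.mono {s t : ℕ} (h : s ≤ t) : AA F m s ≤ AA F m t := by
  refine Submodule.span_mono ?_
  rintro x ⟨a, b, ha, hb, hb0, rfl⟩
  exact ⟨a, b, ha.trans h, hb.trans h, hb0, rfl⟩

theorem AA.frac {t : ℕ} {a b : MvPolynomial (Fin m) F} (ha : a.totalDegree ≤ t)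
    (hb : b.totalDegree ≤ t) (hb0 : b ≠ 0) :
    (algebraMap _ (FractionRing (MvPolynomial (Fin m) F)) a / algebraMap _ (FractionRing (MvPolynomial (Fin m) F)) b) ∈ AA F m t :=
  Submodule.subset_span ⟨a, b, ha, hb, hb0, rfl⟩

theorem AA.poly {t : ℕ} {a : MvPolynomial (Fin m) F} (ha : a.totalDegree ≤ t) :
    algebraMap _ (FractionRing (MvPolynomial (Fin m) F)) a ∈ AA F m t := by
  have h := AA.frac (F := F) (m := m) (a := a) (b := 1) ha (by simp) one_ne_zero
  rwa [map_one, div_one] at h

theorem AA.one {t : ℕ} : (1 : (FractionRing (MvPolynomial (Fin m) F))) ∈ AA F m t := by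
  have h := AA.poly (F := F) (m := m) (t := t) (a := 1) (by simp)
  rwa [map_one] at h

theorem AA.mul {s t : ℕ} {x y : (FractionRing (MvPolynomial (Fin m) F))} (hx : x ∈ AA F m s) (hy : y ∈ AA F m t) :
    x * y ∈ AA F m (s + t) := by
  have h1 := Submodule.mul_mem_mul hx hy
  rw [AA, AA, Submodule.span_mul_span] at h1
  refine Submodule.span_mono ?_ h1
  rintro z ⟨x', ⟨a, b, ha, hb, hb0, rfl⟩, y', ⟨c, d, hc, hd, hd0, rfl⟩, rfl⟩
  refine ⟨a * c, b * d, (totalDegree_mul _ _).trans (Nat.add_le_add ha hc),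
    (totalDegree_mul _ _).trans (Nat.add_le_add hb hd), mul_ne_zero hb0 hd0, ?_⟩
  rw [map_mul, map_mul]
  exact div_mul_div_comm _ _ _ _

theorem AA.prod {ι : Type*} (s : Finset ι) {t : ℕ} (f : ι → (FractionRing (MvPolynomial (Fin m) F)))
    (h : ∀ i ∈ s, f i ∈ AA F m t) : ∏ i ∈ s, f i ∈ AA F m (s.card * t) := by
  classical
  induction s using Finset.induction with
  | empty => simpa using AA.one (F := F) (m := m) (t := 0)
  | insert i s hi IH =>
    rw [prod_insert hi, card_insert_of_notMem hi, Nat.succ_mul, Nat.add_comm]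
    exact AA.mul (h i (mem_insert_self _ _)) (IH fun j hj => h j (mem_insert_of_mem hj))

theorem AA.det {n : Type*} [Fintype n] [DecidableEq n] {t : ℕ} (M : Matrix n n (FractionRing (MvPolynomial (Fin m) F)))
    (h : ∀ i j, M i j ∈ AA F m t) : M.det ∈ AA F m (Fintype.card n * t) := by
  rw [Matrix.det_apply]
  refine Submodule.sum_mem _ fun s _ => ?_
  have h1 : ∏ i, M (s i) i ∈ AA F m (Fintype.card n * t) := AA.prod _ _ fun i _ => h _ _
  rcases Int.units_eq_one_or (Equiv.Perm.sign s) with h2 | h2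
  · rw [h2]; simpa using h1
  · rw [h2]; simpa using h1

end AA

theorem stX46 : StX.{u} := by
  classical
  intro F _ _ m c q d A hA
  obtain ⟨hB, hent⟩ := hA
  let Q := FractionRing (MvPolynomial (Fin m) F)
  let ι : MvPolynomial (Fin m) F →+* Q := algebraMap _ Q
  have hι : Function.Injective ι := IsFractionRing.injective _ _
  have hBent : ∀ i x y, (A.B i x y).totalDegree ≤ d := by
    intro i x y
    have h := hent (Sum.inl ⟨i, x⟩) (Sum.inl ⟨i, y⟩)
    rw [FV.Bordered.mat, Matrix.fromBlocks_apply₁₁, Matrix.blockDiagonal'_apply_eq] at h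
    exact h
  have hUent : ∀ p j, (A.U p j).totalDegree ≤ d := by
    intro p j
    have h := hent (Sum.inl p) (Sum.inr j)
    rwa [FV.Bordered.mat, Matrix.fromBlocks_apply₁₂] at h
  have hVent : ∀ j p, (A.V j p).totalDegree ≤ d := by
    intro j p
    have h := hent (Sum.inr j) (Sum.inl p)
    rwa [FV.Bordered.mat, Matrix.fromBlocks_apply₂₁] at h
  have hWent : ∀ j l, (A.W j l).totalDegree ≤ d := by
    intro j l
    have h := hent (Sum.inr j) (Sum.inr l)
    rwa [FV.Bordered.mat, Matrix.fromBlocks_apply₂₂] at h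
  -- the inverse of the blocks over the fraction field
  let Bi : ∀ i, Matrix (Fin (A.sz i)) (Fin (A.sz i)) Q :=
    fun i => (ι (A.B i).det)⁻¹ • (A.B i).adjugate.map ι
  have hBi : ∀ i, (A.B i).map ι * Bi i = 1 := by
    intro i
    show (A.B i).map ι * ((ι (A.B i).det)⁻¹ • (A.B i).adjugate.map ι) = 1
    rw [Matrix.mul_smul, ← Matrix.map_mul, Matrix.mul_adjugate]
    have h0 : ι (A.B i).det ≠ 0 := (map_ne_zero_iff ι hι).2 (hB i).1
    ext x y
    rw [Matrix.smul_apply, Matrix.map_apply, Matrix.smul_apply, smul_eq_mul, smul_eq_mul, map_mul,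
      ← mul_assoc, inv_mul_cancel₀ h0, one_mul, Matrix.one_apply, Matrix.one_apply]
    split_ifs
    · exact map_one ι
    · exact map_zero ι
  have h1 : Matrix.blockDiagonal' (fun i => (A.B i).map ι) * Matrix.blockDiagonal' Bi = 1 := by
    rw [← Matrix.blockDiagonal'_mul]
    have : (fun k => (A.B k).map ι * Bi k) = 1 := by
      funext k; exact hBi k
    rw [this, Matrix.blockDiagonal'_one]
  let _inst : Invertible (Matrix.blockDiagonal' (fun i => (A.B i).map ι)) :=
    ⟨Matrix.blockDiagonal' Bi, mul_eq_one_comm.1 h1, h1⟩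
  have h2 : ⅟(Matrix.blockDiagonal' (fun i => (A.B i).map ι)) = Matrix.blockDiagonal' Bi :=
    invOf_eq_right_inv h1
  have hmat : A.mat.map ι = Matrix.fromBlocks (Matrix.blockDiagonal' (fun i => (A.B i).map ι))
      (A.U.map ι) (A.V.map ι) (A.W.map ι) := by
    rw [FV.Bordered.mat, Matrix.fromBlocks_map, Matrix.blockDiagonal'_map _ _ (map_zero ι)]
  let T : Multiset (MvPolynomial (Fin m) F) := (Finset.univ : Finset (Fin A.p)).val.map
    fun i => (A.B i).det
  refine ⟨T, ?_, (A.W.map ι - A.V.map ι * Matrix.blockDiagonal' Bi * A.U.map ι).det, ?_, ?_⟩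
  · intro g hg
    obtain ⟨i, -, rfl⟩ := Multiset.mem_map.1 hg
    refine ⟨(hB i).1, (totalDegree_det_le_sum _ (fun _ => d) (hBent i)).trans ?_⟩
    rw [Finset.sum_const, Finset.card_univ, Fintype.card_fin, smul_eq_mul]
    exact Nat.mul_le_mul_right _ (hB i).2
  · have h3 := AA.det (F := F) (m := m) (t := (q + 1) * d)
      (A.W.map ι - A.V.map ι * Matrix.blockDiagonal' Bi * A.U.map ι) fun a b => ?_
    · rwa [Fintype.card_fin] at h3
    · rw [Matrix.sub_apply]
      refine Submodule.sub_mem _ ?_ ?_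
      · rw [Matrix.map_apply]
        refine AA.poly ((hWent a b).trans ?_)
        exact Nat.le_mul_of_pos_left _ (Nat.succ_pos _)
      · rw [Matrix.mul_apply]
        refine Submodule.sum_mem _ fun p _ => ?_
        rw [Matrix.mul_apply, Finset.sum_mul]
        refine Submodule.sum_mem _ fun s _ => ?_
        obtain ⟨i, x⟩ := s
        obtain ⟨j, y⟩ := p
        by_cases hij : i = j
        · subst hij
          rw [Matrix.blockDiagonal'_apply_eq]
          show ι (A.V a ⟨i, x⟩) * ((ι (A.B i).det)⁻¹ * ι ((A.B i).adjugate x y)) *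
            ι (A.U ⟨i, y⟩ b) ∈ _
          have h4 : ι (A.V a ⟨i, x⟩) * ((ι (A.B i).det)⁻¹ * ι ((A.B i).adjugate x y)) *
            ι (A.U ⟨i, y⟩ b) = ι (A.V a ⟨i, x⟩ * (A.B i).adjugate x y * A.U ⟨i, y⟩ b) /
              ι (A.B i).det := by
            rw [map_mul, map_mul, div_eq_mul_inv]; ring
          rw [h4]
          have hsz := (hB i).2
          have hpos : 0 < A.sz i := lt_of_le_of_lt (Nat.zero_le _) x.isLt
          refine AA.frac ?_ ?_ (hB i).1
          · refine (totalDegree_mul _ _).trans ?_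
            refine (Nat.add_le_add ((totalDegree_mul _ _).trans (Nat.add_le_add (hVent a ⟨i, x⟩)
              (totalDegree_adjugate_le (A.B i) d (hBent i) x y))) (hUent ⟨i, y⟩ b)).trans ?_
            rw [Fintype.card_fin]
            obtain ⟨n, hn⟩ : ∃ n, A.sz i = n + 1 := ⟨A.sz i - 1, by omega⟩
            rw [hn, Nat.add_sub_cancel]
            calc d + n * d + d = (n + 2) * d := by ring
              _ ≤ (q + 1) * d := Nat.mul_le_mul_right _ (by omega)
          · refine (totalDegree_det_le_sum _ (fun _ => d) (hBent i)).trans ?_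
            rw [Finset.sum_const, Finset.card_univ, Fintype.card_fin, smul_eq_mul]
            exact Nat.mul_le_mul_right _ (by omega)
        · rw [Matrix.blockDiagonal'_apply_ne _ _ _ hij, mul_zero, zero_mul]
          exact Submodule.zero_mem _
  · have h5 : algebraMap _ (FractionRing (MvPolynomial (Fin m) F)) A.mat.det = (A.mat.map ι).det := by
      rw [← RingHom.mapMatrix_apply, ← RingHom.map_det]
    rw [h5, hmat, Matrix.det_fromBlocks₁₁, h2, MP64FV46.det_blockDiag']
    congr 1
    have h6 : T.prod = ∏ i, (A.B i).det := rfl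
    rw [h6, map_prod]
    refine Finset.prod_congr rfl fun i _ => ?_
    rw [← RingHom.mapMatrix_apply, ← RingHom.map_det]

end Pool.Agent.Lib.MP_64d474_lc.GF
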