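import Mathlib

/-!
# A prime of positive degree over a domain stays prime over the field of fractions
-/

set_option autoImplicit false

open Polynomial

namespace Pool.Agent.Lib.MP_64d474_lc.GF

variable {R K : Type*} [CommRing R] [IsDomain R] [Field K] [Algebra R K] [IsFractionRing R K]

theorem map_inj99 : Function.Injective (Polynomial.map (algebraMap R K)) :=
  Polynomial.map_injective _ (IsFractionRing.injective R K)

theorem exists_clear99 (g : K[X]) : ∃ d : R, d ≠ 0 ∧ ∃ g' : R[X],
    g'.map (algebraMap R K) = C (algebraMap R K d) * g := by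
  obtain ⟨b, hb0, hb⟩ := IsLocalization.integerNormalization_spec (nonZeroDivisors R) g
  refine ⟨b, nonZeroDivisors.ne_zero hb0, IsLocalization.integerNormalization (nonZeroDivisors R) g, ?_⟩
  rw [hb]
  ext i
  rw [coeff_smul, coeff_C_mul, Algebra.smul_def]

theorem not_dvd_C99 {p : R[X]} (hd : 0 < p.natDegree) {d : R} (h : d ≠ 0) : ¬ p ∣ C d := by
  intro h1
  have h2 := natDegree_le_of_dvd h1 (C_ne_zero.mpr h)
  rw [natDegree_C] at h2
  omega

theorem dvd_of_map_dvd99 {p : R[X]} (hp : Prime p) (hd : 0 < p.natDegree) {B : R[X]}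
    (h : p.map (algebraMap R K) ∣ B.map (algebraMap R K)) : p ∣ B := by
  obtain ⟨g, hg⟩ := h
  obtain ⟨d, hd0, g', hg'⟩ := exists_clear99 (R := R) g
  have h1 : C d * B = p * g' := by
    apply map_inj99 (K := K)
    rw [Polynomial.map_mul, Polynomial.map_mul, map_C, hg, hg']
    ring
  have h2 : p ∣ C d * B := ⟨g', h1⟩
  rcases hp.dvd_or_dvd h2 with h3 | h3
  · exact absurd h3 (not_dvd_C99 hd hd0)
  · exact h3

theorem prime_map99 {p : R[X]} (hp : Prime p) (hd : 0 < p.natDegree) :
    Prime (p.map (algebraMap R K)) := by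
  have hinj := IsFractionRing.injective R K
  have hpn : (p.map (algebraMap R K)).natDegree = p.natDegree := natDegree_map_eq_of_injective hinj p
  have hp0 : p.map (algebraMap R K) ≠ 0 := by
    rw [Ne, Polynomial.map_eq_zero_iff hinj]
    exact hp.ne_zero
  refine ⟨hp0, ?_, ?_⟩
  · intro hu
    have := natDegree_eq_zero_of_isUnit hu
    omega
  · have key : ∀ g : K[X], (∃ d : R, d ≠ 0 ∧ ∃ g' : R[X],
        g'.map (algebraMap R K) = C (algebraMap R K d) * g ∧ p ∣ g') →
        p.map (algebraMap R K) ∣ g := by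
      rintro g ⟨d, hd0, g', hg', hdv⟩
      have h1 : p.map (algebraMap R K) ∣ C (algebraMap R K d) * g := by
        rw [← hg']
        exact Polynomial.map_dvd _ hdv
      have h2 : IsUnit (C (algebraMap R K d)) := by
        rw [isUnit_C]
        exact IsUnit.mk0 _ (by simpa using hd0)
      exact (h2.dvd_mul_left).mp h1
    intro g h hgh
    obtain ⟨d₁, hd₁, g', hg'⟩ := exists_clear99 (R := R) g
    obtain ⟨d₂, hd₂, h', hh'⟩ := exists_clear99 (R := R) h
    have h1 : p.map (algebraMap R K) ∣ (g' * h').map (algebraMap R K) := by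
      rw [Polynomial.map_mul, hg', hh']
      have : C (algebraMap R K d₁) * g * (C (algebraMap R K d₂) * h)
        = g * h * (C (algebraMap R K d₁) * C (algebraMap R K d₂)) := by ring
      rw [this]
      exact hgh.mul_right _
    rcases hp.dvd_or_dvd (dvd_of_map_dvd99 hp hd h1) with h3 | h3
    · exact Or.inl (key g ⟨d₁, hd₁, g', hg', h3⟩)
    · exact Or.inr (key h ⟨d₂, hd₂, h', hh', h3⟩)

theorem coprime_map99 {p : R[X]} (hp : Prime p) (hd : 0 < p.natDegree) {B : R[X]}
    (h : ¬ p ∣ B) : IsCoprime (B.map (algebraMap R K)) (p.map (algebraMap R K)) :=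
  ((Irreducible.coprime_iff_not_dvd (prime_map99 hp hd).irreducible).mpr
    fun h1 => h (dvd_of_map_dvd99 hp hd h1)).symm

end Pool.Agent.Lib.MP_64d474_lc.GF
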