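import Mathlib

/-!
# The sum of the residues at the roots of a polynomial
-/

set_option autoImplicit false

open Polynomial

namespace Pool.Agent.Lib.MP_64d474_lc.GF

variable {k L : Type*} [Field k] [Field L] [Algebra k[X] L] [IsFractionRing k[X] L]

/-- `r` is the sum of the residues of `h` at the roots of `Q`. -/
def IsRes (Q : k[X]) (h : L) (r : k) : Prop :=
  ∃ (o : ℕ) (U V B : k[X]), U.degree < ((o * Q.natDegree : ℕ) : WithBot ℕ) ∧ IsCoprime B Q ∧
    B ≠ 0 ∧ h = algebraMap k[X] L U / algebraMap k[X] L Q ^ o +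
      algebraMap k[X] L V / algebraMap k[X] L B ∧
    r = U.coeff (o * Q.natDegree - 1) / Q.leadingCoeff ^ o

theorem algebraMap_ne {p : k[X]} (hp : p ≠ 0) : algebraMap k[X] L p ≠ 0 := by
  simpa using hp

theorem coeff_mul_pow_top {Q U : k[X]} {o : ℕ}
    (hU : U.degree < ((o * Q.natDegree : ℕ) : WithBot ℕ)) (j : ℕ) :
    (U * Q ^ j).coeff ((o + j) * Q.natDegree - 1)
      = U.coeff (o * Q.natDegree - 1) * Q.leadingCoeff ^ j := by
  by_cases h0 : U = 0
  · simp [h0]
  have h1 : U.natDegree < o * Q.natDegree := by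
    rwa [Polynomial.natDegree_lt_iff_degree_lt h0]
  have h2 : (o + j) * Q.natDegree - 1 = (o * Q.natDegree - 1) + j * Q.natDegree := by
    rw [add_mul]
    omega
  rw [h2, Polynomial.coeff_mul_add_eq_of_natDegree_le (by omega)
    (Polynomial.natDegree_pow_le (n := j) (p := Q)), Polynomial.coeff_pow_mul_natDegree]

theorem degree_mul_pow {Q U : k[X]} {o : ℕ} (hQ : Q ≠ 0)
    (hU : U.degree < ((o * Q.natDegree : ℕ) : WithBot ℕ)) (j : ℕ) :
    (U * Q ^ j).degree < (((o + j) * Q.natDegree : ℕ) : WithBot ℕ) := by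
  by_cases h0 : U = 0
  · rw [h0, zero_mul, degree_zero]
    exact WithBot.bot_lt_coe _
  have h1 : U.natDegree < o * Q.natDegree := by
    rwa [Polynomial.natDegree_lt_iff_degree_lt h0]
  rw [← Polynomial.natDegree_lt_iff_degree_lt (mul_ne_zero h0 (pow_ne_zero _ hQ)),
    Polynomial.natDegree_mul h0 (pow_ne_zero _ hQ), Polynomial.natDegree_pow, add_mul]
  omega

theorem ne_zero_of_pos {Q : k[X]} (hQ : 0 < Q.natDegree) : Q ≠ 0 := by
  rintro rfl
  simp at hQ

/-- the order may be raised -/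
theorem IsRes.raise {Q : k[X]} (hQ : Q ≠ 0) {o : ℕ} {U V B : k[X]}
    (hU : U.degree < ((o * Q.natDegree : ℕ) : WithBot ℕ)) (j : ℕ) :
    algebraMap k[X] L U / algebraMap k[X] L Q ^ o + algebraMap k[X] L V / algebraMap k[X] L B =
      algebraMap k[X] L (U * Q ^ j) / algebraMap k[X] L Q ^ (o + j) +
      algebraMap k[X] L V / algebraMap k[X] L B ∧
    (U * Q ^ j).degree < (((o + j) * Q.natDegree : ℕ) : WithBot ℕ) ∧
    U.coeff (o * Q.natDegree - 1) / Q.leadingCoeff ^ o =
      (U * Q ^ j).coeff ((o + j) * Q.natDegree - 1) / Q.leadingCoeff ^ (o + j) := by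
  have hl : Q.leadingCoeff ≠ 0 := leadingCoeff_ne_zero.mpr hQ
  have hq : algebraMap k[X] L Q ≠ 0 := algebraMap_ne hQ
  refine ⟨?_, degree_mul_pow hQ hU j, ?_⟩
  · rw [map_mul, map_pow, pow_add, mul_div_mul_right _ _ (pow_ne_zero _ hq)]
  · rw [coeff_mul_pow_top hU, pow_add, mul_div_mul_right _ _ (pow_ne_zero _ hl)]

theorem IsRes.unique {Q : k[X]} (hQ : Q ≠ 0) {h : L} {r r' : k} (h1 : IsRes Q h r)
    (h2 : IsRes Q h r') : r = r' := by
  obtain ⟨o, U, V, B, hU, hB, hB0, e, rfl⟩ := h1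
  obtain ⟨o', U', V', B', hU', hB', hB0', e', rfl⟩ := h2
  obtain ⟨e1, d1, c1⟩ := IsRes.raise (L := L) (V := V) (B := B) hQ hU o'
  obtain ⟨e2, d2, c2⟩ := IsRes.raise (L := L) (V := V') (B := B') hQ hU' o
  rw [add_comm o' o] at e2 d2 c2
  rw [c1, c2]
  have hq : algebraMap k[X] L Q ^ (o + o') ≠ 0 := pow_ne_zero _ (algebraMap_ne hQ)
  have hb : algebraMap k[X] L B ≠ 0 := algebraMap_ne hB0
  have hb' : algebraMap k[X] L B' ≠ 0 := algebraMap_ne hB0'
  have e3 : algebraMap k[X] L (U * Q ^ o') / algebraMap k[X] L Q ^ (o + o') +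
      algebraMap k[X] L V / algebraMap k[X] L B =
      algebraMap k[X] L (U' * Q ^ o) / algebraMap k[X] L Q ^ (o + o') +
      algebraMap k[X] L V' / algebraMap k[X] L B' := by
    rw [← e1, ← e2, ← e, ← e']
  have e4 : (U * Q ^ o' - U' * Q ^ o) * (B * B') = Q ^ (o + o') * (V' * B - V * B') := by
    apply IsFractionRing.injective k[X] L
    simp only [map_mul, map_sub, map_pow] at e3 ⊢
    field_simp at e3
    linear_combination e3
  have e5 : Q ^ (o + o') ∣ U * Q ^ o' - U' * Q ^ o := by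
    have hc : IsCoprime (Q ^ (o + o')) (B * B') :=
      (IsCoprime.mul_right (IsCoprime.pow_left hB.symm) (IsCoprime.pow_left hB'.symm))
    exact hc.dvd_of_dvd_mul_right ⟨_, e4⟩
  have e6 : U * Q ^ o' - U' * Q ^ o = 0 := by
    apply Polynomial.eq_zero_of_dvd_of_degree_lt e5
    have e7 : (Q ^ (o + o')).degree = (((o + o') * Q.natDegree : ℕ) : WithBot ℕ) := by
      rw [Polynomial.degree_eq_natDegree (pow_ne_zero _ hQ), Polynomial.natDegree_pow]
    rw [e7]
    exact lt_of_le_of_lt (degree_sub_le _ _) (max_lt d1 d2)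
  rw [sub_eq_zero.mp e6]

theorem IsRes.zero (Q : k[X]) : IsRes Q (0 : L) 0 :=
  ⟨0, 0, 0, 1, by simp, isCoprime_one_left, one_ne_zero, by simp, by simp⟩

/-- regular at the roots of `Q` -/
theorem IsRes.regular {Q V B : k[X]} (hB : IsCoprime B Q) (hB0 : B ≠ 0) :
    IsRes Q (algebraMap k[X] L V / algebraMap k[X] L B) 0 :=
  ⟨0, 0, V, B, by simp, hB, hB0, by simp, by simp⟩

theorem IsRes.poly (Q V : k[X]) : IsRes Q (algebraMap k[X] L V) 0 := by
  have := IsRes.regular (L := L) (Q := Q) (V := V) (B := 1) isCoprime_one_left one_ne_zero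
  simpa using this

theorem IsRes.smul {Q : k[X]} {h : L} {r : k} (c : k) (h1 : IsRes Q h r) :
    IsRes Q (algebraMap k[X] L (C c) * h) (c * r) := by
  obtain ⟨o, U, V, B, hU, hB, hB0, e, rfl⟩ := h1
  refine ⟨o, C c * U, C c * V, B, ?_, hB, hB0, ?_, ?_⟩
  · by_cases hc : c = 0
    · rw [hc, C_0, zero_mul, degree_zero]
      exact WithBot.bot_lt_coe _
    · rwa [degree_C_mul hc]
  · rw [e, mul_add, map_mul, map_mul, mul_div_assoc, mul_div_assoc]
  · rw [coeff_C_mul, mul_div_assoc]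

theorem IsRes.add {Q : k[X]} (hQ : Q ≠ 0) {h h' : L} {r r' : k} (h1 : IsRes Q h r)
    (h2 : IsRes Q h' r') : IsRes Q (h + h') (r + r') := by
  obtain ⟨o, U, V, B, hU, hB, hB0, e, rfl⟩ := h1
  obtain ⟨o', U', V', B', hU', hB', hB0', e', rfl⟩ := h2
  obtain ⟨e1, d1, c1⟩ := IsRes.raise (L := L) (V := V) (B := B) hQ hU o'
  obtain ⟨e2, d2, c2⟩ := IsRes.raise (L := L) (V := V') (B := B') hQ hU' o
  rw [add_comm o' o] at e2 d2 c2
  have hq : algebraMap k[X] L Q ^ (o + o') ≠ 0 := pow_ne_zero _ (algebraMap_ne hQ)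
  have hb : algebraMap k[X] L B ≠ 0 := algebraMap_ne hB0
  have hb' : algebraMap k[X] L B' ≠ 0 := algebraMap_ne hB0'
  refine ⟨o + o', U * Q ^ o' + U' * Q ^ o, V * B' + V' * B, B * B',
    lt_of_le_of_lt (degree_add_le _ _) (max_lt d1 d2), hB.mul_left hB', mul_ne_zero hB0 hB0',
    ?_, ?_⟩
  · rw [e, e', e1, e2, map_add, add_div, map_add, map_mul (algebraMap k[X] L) V B',
      map_mul (algebraMap k[X] L) V' B, map_mul (algebraMap k[X] L) B B', add_div,
      mul_div_mul_right _ _ hb', mul_comm (algebraMap k[X] L V') (algebraMap k[X] L B),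
      mul_div_mul_left _ _ hb]
    ring
  · rw [c1, c2, coeff_add, add_div]

theorem IsRes.sum {Q : k[X]} (hQ : Q ≠ 0) {ι : Type*} (s : Finset ι) {h : ι → L} {r : ι → k}
    (h1 : ∀ i ∈ s, IsRes Q (h i) (r i)) : IsRes Q (∑ i ∈ s, h i) (∑ i ∈ s, r i) := by
  classical
  induction s using Finset.induction_on with
  | empty => simpa using IsRes.zero (L := L) Q
  | insert i s hi ih =>
    rw [Finset.sum_insert hi, Finset.sum_insert hi]
    exact IsRes.add hQ (h1 i (Finset.mem_insert_self _ _))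
      (ih fun j hj => h1 j (Finset.mem_insert_of_mem hj))

/-- every denominator splits -/
theorem exists_split (Q : k[X]) (D : k[X]) (hD : D ≠ 0) :
    ∃ (o : ℕ) (B : k[X]), IsCoprime B Q ∧ B ≠ 0 ∧ D ∣ Q ^ o * B := by
  induction D using UniqueFactorizationMonoid.induction_on_prime with
  | h₁ => exact absurd rfl hD
  | h₂ x hx => exact ⟨0, 1, isCoprime_one_left, one_ne_zero, hx.dvd⟩
  | h₃ a p ha hp ih =>
    obtain ⟨o, B, hB, hB0, hd⟩ := ih ha
    by_cases hpQ : p ∣ Q
    · refine ⟨o + 1, B, hB, hB0, ?_⟩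
      rw [pow_succ', mul_assoc]
      exact mul_dvd_mul hpQ hd
    · refine ⟨o, p * B, ?_, mul_ne_zero hp.ne_zero hB0, ?_⟩
      · exact ((Irreducible.coprime_iff_not_dvd hp.irreducible).mpr hpQ).mul_left hB
      · rw [mul_left_comm]
        exact mul_dvd_mul_left p hd

/-- partial fractions -/
theorem exists_parts {Q : k[X]} (hQ : 0 < Q.natDegree) (h : L) :
    ∃ (o : ℕ) (U V B : k[X]), U.degree < ((o * Q.natDegree : ℕ) : WithBot ℕ) ∧ IsCoprime B Q ∧
    B ≠ 0 ∧ h = algebraMap k[X] L U / algebraMap k[X] L Q ^ o +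
      algebraMap k[X] L V / algebraMap k[X] L B := by
  have hQ0 := ne_zero_of_pos hQ
  obtain ⟨A, D, hD, rfl⟩ := IsFractionRing.div_surjective (A := k[X]) h
  have hD0 : D ≠ 0 := nonZeroDivisors.ne_zero hD
  obtain ⟨o, B, hB, hB0, c, hc⟩ := exists_split Q D hD0
  obtain ⟨u, v, huv⟩ := hB.pow_right (n := o)
  have hq : algebraMap k[X] L Q ^ o ≠ 0 := pow_ne_zero _ (algebraMap_ne hQ0)
  have hb : algebraMap k[X] L B ≠ 0 := algebraMap_ne hB0
  have hd : algebraMap k[X] L D ≠ 0 := algebraMap_ne hD0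
  have hQo : Q ^ o ≠ 0 := pow_ne_zero _ hQ0
  refine ⟨o, (A * c * u) % Q ^ o, (A * c * u) / Q ^ o * B + A * c * v, B, ?_, hB, hB0, ?_⟩
  · have e7 : (Q ^ o).degree = ((o * Q.natDegree : ℕ) : WithBot ℕ) := by
      rw [Polynomial.degree_eq_natDegree hQo, Polynomial.natDegree_pow]
    rw [← e7]
    exact EuclideanDomain.mod_lt _ hQo
  · have e1 := EuclideanDomain.div_add_mod (A * c * u) (Q ^ o)
    have e2 : A * (Q ^ o * B) = (((A * c * u) % Q ^ o) * B +
        ((A * c * u) / Q ^ o * B + A * c * v) * Q ^ o) * D := by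
      rw [hc]
      linear_combination (-(A * c * D)) * huv - B * D * e1
    have e3 := congrArg (algebraMap k[X] L) e2
    simp only [map_mul, map_add, map_pow] at e3
    field_simp
    simp only [map_add, map_mul]
    linear_combination e3

theorem exists_isRes {Q : k[X]} (hQ : 0 < Q.natDegree) (h : L) : ∃ r, IsRes Q h r := by
  obtain ⟨o, U, V, B, h1, h2, h3, h4⟩ := exists_parts hQ h
  exact ⟨_, o, U, V, B, h1, h2, h3, h4, rfl⟩

/-- a pole gives a nonzero residue of a multiple -/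
theorem exists_res_ne {P U V B : k[X]} {o : ℕ} (hP : 0 < P.natDegree)
    (hU : U.degree < ((o * P.natDegree : ℕ) : WithBot ℕ)) (hB : IsCoprime B P) (hB0 : B ≠ 0)
    (hU0 : U ≠ 0) :
    ∃ i < o, ∃ j < P.natDegree, ∃ r, r ≠ 0 ∧ IsRes P (algebraMap k[X] L (P ^ i * X ^ j) *
      (algebraMap k[X] L U / algebraMap k[X] L P ^ o + algebraMap k[X] L V / algebraMap k[X] L B))
      r := by
  have hP0 := ne_zero_of_pos hP
  have hp : algebraMap k[X] L P ≠ 0 := algebraMap_ne hP0
  have hb : algebraMap k[X] L B ≠ 0 := algebraMap_ne hB0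
  induction o generalizing U with
  | zero =>
    exfalso
    rw [← Polynomial.natDegree_lt_iff_degree_lt hU0] at hU
    omega
  | succ o ih =>
    by_cases hd : P ∣ U
    · obtain ⟨U', rfl⟩ := hd
      have hU'0 : U' ≠ 0 := right_ne_zero_of_mul hU0
      have hU' : U'.degree < ((o * P.natDegree : ℕ) : WithBot ℕ) := by
        rw [← Polynomial.natDegree_lt_iff_degree_lt hU0, natDegree_mul hP0 hU'0, add_mul,
          one_mul] at hU
        rw [← Polynomial.natDegree_lt_iff_degree_lt hU'0]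
        omega
      obtain ⟨i, hi, j, hj, r, hr, h1⟩ := ih hU' hU'0
      refine ⟨i, by omega, j, hj, r, hr, ?_⟩
      have e1 : algebraMap k[X] L (P * U') / algebraMap k[X] L P ^ (o + 1)
          = algebraMap k[X] L U' / algebraMap k[X] L P ^ o := by
        rw [map_mul, pow_succ', mul_div_mul_left _ _ hp]
      rw [e1]
      exact h1
    · have hm0 : U % P ≠ 0 := fun h => hd (EuclideanDomain.mod_eq_zero.mp h)
      have hmd : (U % P).natDegree < P.natDegree := by
        apply Polynomial.natDegree_lt_natDegree hm0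
        exact EuclideanDomain.mod_lt _ hP0
      set j := P.natDegree - 1 - (U % P).natDegree with hj
      refine ⟨o, by omega, j, by omega, (U % P).leadingCoeff / P.leadingCoeff,
        div_ne_zero (leadingCoeff_ne_zero.mpr hm0) (leadingCoeff_ne_zero.mpr hP0),
        1, X ^ j * (U % P), X ^ j * (U / P) * B + P ^ o * X ^ j * V, B, ?_, hB, hB0, ?_, ?_⟩
      · rw [← Polynomial.natDegree_lt_iff_degree_lt (mul_ne_zero (pow_ne_zero _ X_ne_zero) hm0),
          natDegree_mul (pow_ne_zero _ X_ne_zero) hm0, natDegree_pow, natDegree_X]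
        omega
      · have e1 := EuclideanDomain.div_add_mod U P
        have e2 := congrArg (algebraMap k[X] L) e1
        simp only [map_mul, map_add, map_pow] at e2 ⊢
        rw [← e2]
        field_simp
        ring
      · have e3 : 1 * P.natDegree - 1 = (U % P).natDegree + j := by omega
        rw [e3, pow_one, coeff_X_pow_mul]
        rfl

end Pool.Agent.Lib.MP_64d474_lc.GF
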