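import Pool.Agent.Lib.MP_64d474_lc.FV.Defs66

set_option autoImplicit false

/-!
# Sums of unboundedly many fractions of low degree: definitions and statements
-/

namespace Pool.Agent.Lib.MP_64d474_lc.GF

open MvPolynomial

universe u

/-- the finite sums of fractions `a / b` with `deg a, deg b ≤ t` -/
noncomputable def AA (F : Type u) [Field F] (m t : ℕ) :
    Submodule F (FractionRing (MvPolynomial (Fin m) F)) :=
  Submodule.span F {x | ∃ a b : MvPolynomial (Fin m) F, a.totalDegree ≤ t ∧ b.totalDegree ≤ t ∧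
    b ≠ 0 ∧ x = algebraMap _ (FractionRing (MvPolynomial (Fin m) F)) a /
      algebraMap _ (FractionRing (MvPolynomial (Fin m) F)) b}

/-- `f` is the product of any number of polynomials of degree at most `d` with the sum of any
number of fractions of degree at most `t` -/
def Mixed {F : Type u} [Field F] {m : ℕ} (d t : ℕ) (f : MvPolynomial (Fin m) F) : Prop :=
  ∃ T : Multiset (MvPolynomial (Fin m) F), (∀ g ∈ T, g ≠ 0 ∧ g.totalDegree ≤ d) ∧
    ∃ φ ∈ AA F m t, algebraMap _ (FractionRing (MvPolynomial (Fin m) F)) f =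
      algebraMap _ (FractionRing (MvPolynomial (Fin m) F)) T.prod * φ

/-- Row HIT: the generator does not kill such an `f`. -/
def StHIT : Prop :=
  ∀ d t : ℕ, ∃ D : ℕ, ∀ (F : Type u) [Field F] [CharZero F] (m : ℕ) (f : MvPolynomial (Fin m) F),
    Mixed d t f → f ≠ 0 → S3.gen F m D f ≠ 0

/-- The final statement. -/
def StGF : Prop :=
  ∀ d t r : ℕ, ∃ s : ℕ, ∀ (F : Type u) [Field F] [CharZero F] (m n p : ℕ)
    (f : Fin p → MvPolynomial (Fin m) F), (∀ a, Mixed d t (f a)) →
    (∀ s : Finset (Fin p), AlgebraicIndependent F (fun a : s => f a) → s.card ≤ r) →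
    ∀ h ∈ Algebra.adjoin F (Set.range f), h.totalDegree ≤ n → h ≠ 0 →
      ∃ x ∈ S3.grid m n s, eval (fun i => ((x i : ℤ) : F)) h ≠ 0

/-- the blocks are nonsingular and have size at most `q`, all entries have degree at most `d` -/
def Small {F : Type u} [Field F] {m c : ℕ} (q d : ℕ) (A : FV.Bordered F m c) : Prop :=
  (∀ i, (A.B i).det ≠ 0 ∧ A.sz i ≤ q) ∧ ∀ i j, (A.mat i j).totalDegree ≤ d

/-- The final statement for bordered matrices. -/
def StGFM : Prop :=
  ∀ q d c r : ℕ, ∃ s : ℕ, ∀ (F : Type u) [Field F] [CharZero F] (m n p : ℕ)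
    (A : Fin p → FV.Bordered F m c), (∀ a, Small q d (A a)) →
    (∀ s : Finset (Fin p), AlgebraicIndependent F (fun a : s => (A a).mat.det) → s.card ≤ r) →
    ∀ h ∈ Algebra.adjoin F (Set.range fun a => (A a).mat.det), h.totalDegree ≤ n → h ≠ 0 →
      ∃ x ∈ S3.grid m n s, eval (fun i => ((x i : ℤ) : F)) h ≠ 0

/-- Row X: a bordered matrix is mixed. -/
def StX : Prop :=
  ∀ (F : Type u) [Field F] [CharZero F] (m c q d : ℕ) (A : FV.Bordered F m c), Small q d A →
    Mixed (q * d) (c * ((q + 1) * d)) A.mat.det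

theorem stGFM (h : StGF.{u}) (hX : StX.{u}) : StGFM.{u} := by
  intro q d c r
  obtain ⟨s, hs⟩ := h (q * d) (c * ((q + 1) * d)) r
  refine ⟨s, ?_⟩
  intro F _ _ m n p A hA hr
  exact hs F m n p (fun a => (A a).mat.det) (fun a => hX F m c q d (A a) (hA a)) hr

end Pool.Agent.Lib.MP_64d474_lc.GF
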