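import Pool.Agent.Lib.MP_64d474_lc.GF.Exch66
import Pool.Agent.Lib.MP_64d474_lc.GF.LayExch66
import Pool.Agent.Lib.MP_64d474_lc.GF.Size66
import Pool.Agent.Lib.MP_64d474_lc.SF.Closed99

set_option autoImplicit false

/-!
# The polynomials of the theorem: sums of fractions, and determinants
-/

namespace Pool.Agent.Lib.MP_64d474_lc.GF

open MvPolynomial Finset

universe u

variable {F : Type u} [Field F] {m : ℕ}

/-- `f` is `(d, t)`-mixed, or the determinant of a square matrix with entries of degree at most `e`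
that has the exchange property `Exch q K`, or (for `q ≥ 1` and `c * (L + 1) ≤ K`) is layered,
where `q * e ≤ d` and `K * q * e ≤ t`. -/
def Member (d t : ℕ) (f : MvPolynomial (Fin m) F) : Prop :=
  Mixed d t f ∨
    ∃ (q K e N : ℕ) (A : Matrix (Fin N) (Fin N) (MvPolynomial (Fin m) F)),
      q * e ≤ d ∧ K * q * e ≤ t ∧ (∀ i j, (A i j).totalDegree ≤ e) ∧
      (Exch q K A ∨ 1 ≤ q ∧ ∃ c L : ℕ, c * (L + 1) ≤ K ∧ Layered c q L A) ∧ f = A.det

theorem aa_mono {t t' : ℕ} (h : t ≤ t') : AA F m t ≤ AA F m t' :=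
  Submodule.span_mono (by
    rintro x ⟨a, b, ha, hb, hb0, rfl⟩
    exact ⟨a, b, ha.trans h, hb.trans h, hb0, rfl⟩)

theorem mixed_mono {d d' t t' : ℕ} (hd : d ≤ d') (ht : t ≤ t') {f : MvPolynomial (Fin m) F}
    (h : Mixed d t f) : Mixed d' t' f := by
  obtain ⟨T, hT, φ, hφ, hf⟩ := h
  exact ⟨T, fun g hg => ⟨(hT g hg).1, (hT g hg).2.trans hd⟩, φ, aa_mono ht hφ, hf⟩

theorem exch_mono {N q K K' : ℕ} (hK : K ≤ K')
    {A : Matrix (Fin N) (Fin N) (MvPolynomial (Fin m) F)} (h : Exch q K A) : Exch q K' A := by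
  obtain ⟨π, β, h1, h2⟩ := h
  exact ⟨π, β, h1, fun σ hσ => (h2 σ hσ).trans hK⟩

theorem mixed_of_member {d t : ℕ} {f : MvPolynomial (Fin m) F} (h : Member d t f) :
    Mixed d t f := by
  rcases h with h | ⟨q, K, e, N, A, h1, h2, h3, h4, rfl⟩
  · exact h
  · have h5 : Exch q K A := by
      rcases h4 with h4 | ⟨hq, c, L, hc, hL⟩
      · exact h4
      · exact exch_mono hc (layExch66 hq hL)
    exact mixed_mono h1 h2 (mixed_of_exch h5 h3)

end Pool.Agent.Lib.MP_64d474_lc.GF
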