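import Pool.Agent.Lib.MP_64d474_lc.GF.Cls66

set_option autoImplicit false

/-!
# Divisors of products
-/

namespace Pool.Agent.Lib.MP_64d474_lc.GF

open MvPolynomial Finset

universe u

/-- `g` is a polynomial in `f_1, …, f_p`, all in the class `Member d t`, at most `r` of them
algebraically independent. -/
def Combined {F : Type u} [Field F] {m : ℕ} (d t r : ℕ) (g : MvPolynomial (Fin m) F) : Prop :=
  ∃ (p : ℕ) (f : Fin p → MvPolynomial (Fin m) F), (∀ a, Member d t (f a)) ∧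
    (∀ I : Finset (Fin p), AlgebraicIndependent F (fun a : I => f a) → I.card ≤ r) ∧
    g ∈ Algebra.adjoin F (Set.range f)

theorem gen_ne_zero (d t r : ℕ) {F : Type u} [Field F] [CharZero F] {m : ℕ}
    {g : MvPolynomial (Fin m) F} (hg : Combined d t r g) (h0 : g ≠ 0) :
    S3.gen F m (SF.seeds d t r) g ≠ 0 := by
  obtain ⟨p, f, hf, hr, hh⟩ := hg
  intro hc
  refine h0 (FV.jacHit FV.J95.stJ95 FV.rowK97 f hr
    (s₀ := d + (2 * (r * (2 * t + d)) + 2) ^ 4 ^ (r * (2 * t + d)) + r * (2 * t + d)) ?_ g hh hc)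
  intro ρ e κ hρ hdet
  refine SF.hit99 d _ _ ?_ F m _
    (GF.mixed_jac f (fun a => mixed_of_member (hf a)) hρ e κ) hdet
  have h1 := SF.iter_add_one_le (r * (2 * t + d)) (r * (2 * t + d))
  rw [mul_add 2 (r * (2 * t + d)) 1, mul_one] at h1
  exact max_le (Nat.le_add_right _ _) (by omega)

theorem hit_div (d t r : ℕ) {F : Type u} [Field F] [CharZero F] {m n : ℕ}
    (M : Multiset (MvPolynomial (Fin m) F)) (hM : ∀ g ∈ M, g ≠ 0 ∧ Combined d t r g)
    {h : MvPolynomial (Fin m) F} (hh : h ∣ M.prod) (hn : h.totalDegree ≤ n) :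
    ∃ x ∈ S3.grid m n (SF.seeds d t r), eval (fun i => ((x i : ℤ) : F)) h ≠ 0 := by
  by_contra hc
  push Not at hc
  have h1 : S3.gen F m (SF.seeds d t r) h = 0 := S3.gen_eq_zero_of_grid _ hn hc
  obtain ⟨v, hv⟩ := hh
  have h2 : S3.gen F m (SF.seeds d t r) M.prod = 0 := by rw [hv, map_mul, h1, zero_mul]
  rw [map_multiset_prod, Multiset.prod_eq_zero_iff] at h2
  obtain ⟨g, hg, hg0⟩ := Multiset.mem_map.1 h2
  exact gen_ne_zero d t r (hM g hg).2 (hM g hg).1 hg0

end Pool.Agent.Lib.MP_64d474_lc.GF
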