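import Mathlib

/-!
# EXa: fewer than `c` forms of positive degree in `c` variables have a common zero `≠ 0`

over an algebraically closed field (Krull height theorem and Nullstellensatz), and the lines of
constancy of a polynomial of degree less than `c`.
-/

set_option autoImplicit false

namespace MPX64d474lc

namespace GF

namespace EXa14

open MvPolynomial

section
variable {K : Type*} [Field K] {c : ℕ}

/-- `X_i ↦ 0` for `i < j` -/
noncomputable def kill (K : Type*) [Field K] (c j : ℕ) :
    MvPolynomial (Fin c) K →ₐ[K] MvPolynomial (Fin c) K :=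
  aeval fun i => if i.1 < j then 0 else X i

theorem kill_X_lt {j : ℕ} {i : Fin c} (h : i.1 < j) : kill K c j (X i) = 0 := by
  simp [kill, h]

theorem kill_X_le {j : ℕ} {i : Fin c} (h : j ≤ i.1) : kill K c j (X i) = X i := by
  simp [kill, not_lt.2 h]

theorem kill_kill {j k : ℕ} (h : j ≤ k) (p : MvPolynomial (Fin c) K) :
    kill K c k (kill K c j p) = kill K c k p := by
  have : (kill K c k).comp (kill K c j) = kill K c k := by
    apply MvPolynomial.algHom_ext
    intro i
    rw [AlgHom.comp_apply]
    rcases lt_or_ge i.1 j with h1 | h1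
    · rw [kill_X_lt h1, map_zero, kill_X_lt (h1.trans_le h)]
    · rw [kill_X_le h1]
  exact DFunLike.congr_fun this p

/-- the primes `(X_0, …, X_{j-1})` -/
noncomputable def PP (K : Type*) [Field K] (c j : ℕ) : Ideal (MvPolynomial (Fin c) K) :=
  RingHom.ker (kill K c j)

instance (j : ℕ) : (PP K c j).IsPrime := RingHom.ker_isPrime _

theorem PP_lt {j : ℕ} (h : j < c) : PP K c j < PP K c (j + 1) := by
  refine SetLike.lt_iff_le_and_exists.2 ⟨fun p hp => ?_, X ⟨j, h⟩, ?_, fun hh => ?_⟩
  · have hp' : kill K c j p = 0 := hp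
    show kill K c (j + 1) p = 0
    rw [← kill_kill (Nat.le_succ j), hp', map_zero]
  · show kill K c (j + 1) _ = 0
    exact kill_X_lt (Nat.lt_succ_self j)
  · have hh' : kill K c j (X ⟨j, h⟩) = 0 := hh
    rw [kill_X_le (le_refl j)] at hh'
    exact X_ne_zero _ hh'

theorem le_height {j : ℕ} (h : j ≤ c) : (j : ℕ∞) ≤ (PP K c j).height := by
  induction j with
  | zero => simp
  | succ j ih =>
    have h1 := Ideal.height_add_one_le_of_lt_of_isPrime (PP_lt (K := K) (Nat.lt_of_succ_le h))
    refine le_trans ?_ h1
    rw [Nat.cast_succ]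
    gcongr
    exact ih (Nat.le_of_succ_le h)

theorem PP_top : PP K c c = vanishingIdeal K {(0 : Fin c → K)} := by
  ext p
  rw [mem_vanishingIdeal_singleton_iff]
  show kill K c c p = 0 ↔ _
  have h1 : ∀ p : MvPolynomial (Fin c) K, kill K c c p = C (aeval (0 : Fin c → K) p) := by
    intro p
    have : kill K c c = (Algebra.ofId K (MvPolynomial (Fin c) K)).comp
        (aeval (0 : Fin c → K)) := by
      apply MvPolynomial.algHom_ext
      intro i
      rw [kill_X_lt i.2, AlgHom.comp_apply, aeval_X, Pi.zero_apply, map_zero]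
    rw [this]
    rfl
  rw [h1, C_eq_zero]

theorem le_height_zero : (c : ℕ∞) ≤ (vanishingIdeal K {(0 : Fin c → K)}).height := by
  rw [← PP_top]
  exact le_height le_rfl

/-- Fewer forms of positive degree than variables have a common nontrivial zero. -/
theorem exa14 [IsAlgClosed K] {m : ℕ} (h : m < c) (f : Fin m → MvPolynomial (Fin c) K)
    (d : Fin m → ℕ) (hd : ∀ i, 0 < d i) (hf : ∀ i, (f i).IsHomogeneous (d i)) :
    ∃ v : Fin c → K, v ≠ 0 ∧ ∀ i, eval v (f i) = 0 := by
  by_contra hcon
  push Not at hcon
  have h0 : ∀ i, eval (0 : Fin c → K) (f i) = 0 := by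
    intro i
    rw [MvPolynomial.eval_zero, constantCoeff_eq]
    apply (hf i).coeff_eq_zero
    rw [map_zero]
    exact (hd i).ne
  set I : Ideal (MvPolynomial (Fin c) K) := Ideal.span (Set.range f) with hI
  have hz : zeroLocus K I = {(0 : Fin c → K)} := by
    ext v
    rw [hI, zeroLocus_span, Set.mem_ofPred_eq, Set.mem_singleton_iff]
    constructor
    · intro hv
      by_contra hv0
      obtain ⟨i, hi⟩ := hcon v hv0
      exact hi (by simpa [aeval_eq_eval] using hv (f i) ⟨i, rfl⟩)
    · rintro rfl _ ⟨i, rfl⟩
      simpa [aeval_eq_eval] using h0 i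
  have hr := vanishingIdeal_zeroLocus_eq_radical (K := K) I
  rw [hz] at hr
  have hmin : vanishingIdeal K {(0 : Fin c → K)} ∈ I.minimalPrimes := by
    refine ⟨⟨inferInstance, ?_⟩, ?_⟩
    · rw [hr]
      exact Ideal.le_radical
    · rintro J ⟨hJ, hIJ⟩ -
      rw [hr]
      exact hJ.radical_le_iff.2 hIJ
  have h2 := Ideal.height_le_card_of_mem_minimalPrimes_span (Set.finite_range f) hmin
  have h3 : (Set.range f).ncard ≤ m := by
    rw [← Set.image_univ]
    refine (Set.ncard_image_le Set.finite_univ).trans ?_
    rw [Set.ncard_univ, Nat.card_eq_fintype_card, Fintype.card_fin]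
  have h4 := (le_height_zero (K := K) (c := c)).trans h2
  have h5 : c ≤ (Set.range f).ncard := by exact_mod_cast h4
  omega

end

section
open Polynomial

variable {F K : Type*} [Field F] [Field K] [Algebra F K] {n c : ℕ}

/-- the generic line `x + τ ∑ v_l e_l` -/
noncomputable def gl (e : Fin c → Fin n → F) (x : Fin n → K) :
    MvPolynomial (Fin n) F →ₐ[F] (MvPolynomial (Fin c) K)[X] :=
  MvPolynomial.aeval fun i => Polynomial.C (MvPolynomial.C (x i)) +
    Polynomial.X * Polynomial.C (∑ l, MvPolynomial.C (algebraMap F K (e l i)) * MvPolynomial.X l)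

theorem gl_hom (e : Fin c → Fin n → F) (x : Fin n → K) (b : MvPolynomial (Fin n) F) :
    ∀ j, ((gl e x b).coeff j).IsHomogeneous j := by
  induction b using MvPolynomial.induction_on with
  | C a =>
    intro j
    have h1 : gl e x (MvPolynomial.C a) =
        Polynomial.C (MvPolynomial.C (algebraMap F K a)) := by
      rw [← MvPolynomial.algebraMap_eq, AlgHom.commutes]
      rfl
    rw [h1, Polynomial.coeff_C]
    split_ifs with h
    · rw [h]
      exact MvPolynomial.isHomogeneous_C _ _
    · exact MvPolynomial.isHomogeneous_zero _ _ _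
  | add p q hp hq =>
    intro j
    rw [map_add, Polynomial.coeff_add]
    exact (hp j).add (hq j)
  | mul_X p i hp =>
    intro j
    have h1 : gl e x (MvPolynomial.X i) = Polynomial.C (MvPolynomial.C (x i)) +
        Polynomial.X * Polynomial.C
          (∑ l, MvPolynomial.C (algebraMap F K (e l i)) * MvPolynomial.X l) := by
      rw [gl, MvPolynomial.aeval_X]
    rw [map_mul, h1, mul_add, Polynomial.coeff_add, Polynomial.coeff_mul_C]
    have h2 : ((gl e x p).coeff j * MvPolynomial.C (x i)).IsHomogeneous j := by
      simpa using (hp j).mul (MvPolynomial.isHomogeneous_C (Fin c) (x i))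
    refine h2.add ?_
    rw [← mul_assoc, Polynomial.coeff_mul_C]
    cases j with
    | zero =>
      rw [Polynomial.coeff_mul_X_zero, zero_mul]
      exact MvPolynomial.isHomogeneous_zero _ _ _
    | succ j =>
      rw [Polynomial.coeff_mul_X]
      refine (hp j).mul ?_
      refine MvPolynomial.IsHomogeneous.sum _ _ _ fun l _ => ?_
      simpa using (MvPolynomial.isHomogeneous_C (Fin c) (algebraMap F K (e l i))).mul
        (MvPolynomial.isHomogeneous_X K l)

theorem gl_deg (e : Fin c → Fin n → F) (x : Fin n → K) (b : MvPolynomial (Fin n) F) :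
    (gl e x b).natDegree ≤ b.totalDegree := by
  rw [gl, MvPolynomial.aeval_def, MvPolynomial.eval₂_eq']
  refine Polynomial.natDegree_sum_le_of_forall_le _ _ fun d hd => ?_
  refine Polynomial.natDegree_mul_le.trans ?_
  have h1 : (algebraMap F (MvPolynomial (Fin c) K)[X] (b.coeff d)).natDegree = 0 := by
    have : algebraMap F (MvPolynomial (Fin c) K)[X] (b.coeff d) =
      Polynomial.C (MvPolynomial.C (algebraMap F K (b.coeff d))) := rfl
    rw [this, Polynomial.natDegree_C]
  rw [h1, zero_add]
  refine (Polynomial.natDegree_prod_le _ _).trans ?_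
  have h2 : ∑ i, d i ≤ b.totalDegree := by
    have := MvPolynomial.le_totalDegree hd
    rwa [Finsupp.sum_fintype _ _ (fun _ => rfl)] at this
  refine le_trans (Finset.sum_le_sum fun i _ => ?_) h2
  refine Polynomial.natDegree_pow_le.trans ?_
  refine (Nat.mul_le_mul_left _ (?_ : _ ≤ 1)).trans (by rw [mul_one])
  refine (Polynomial.natDegree_add_le _ _).trans ?_
  rw [Polynomial.natDegree_C, Nat.zero_max]
  refine Polynomial.natDegree_mul_le.trans ?_
  rw [Polynomial.natDegree_C, add_zero]
  exact Polynomial.natDegree_X_le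

theorem gl_eval (e : Fin c → Fin n → F) (x : Fin n → K) (b : MvPolynomial (Fin n) F)
    (v : Fin c → K) :
    (gl e x b).map (MvPolynomial.eval v) =
      MvPolynomial.aeval (fun i => Polynomial.C (x i) +
        Polynomial.X * Polynomial.C (∑ l, v l * algebraMap F K (e l i))) b := by
  have h : (Polynomial.mapAlgHom ((MvPolynomial.aeval (R := K) v).restrictScalars F)).comp
      (gl e x) = MvPolynomial.aeval (fun i => Polynomial.C (x i) +
        Polynomial.X * Polynomial.C (∑ l, v l * algebraMap F K (e l i))) := by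
    apply MvPolynomial.algHom_ext
    intro i
    rw [AlgHom.comp_apply, gl, MvPolynomial.aeval_X, MvPolynomial.aeval_X, map_add, map_mul]
    simp [mul_comm]
  have h2 := DFunLike.congr_fun h b
  rw [← h2]
  rfl

/-- LINES OF CONSTANCY: through each point `x` over an algebraically closed field there is a line,
with direction in the span of `e_1, …, e_c`, `c > deg b`, on which `b` is constant. -/
theorem line14 [IsAlgClosed K] (b : MvPolynomial (Fin n) F) (hb : b.totalDegree < c)
    (e : Fin c → Fin n → F) (x : Fin n → K) : ∃ v : Fin c → K, v ≠ 0 ∧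
      MvPolynomial.aeval (fun i => Polynomial.C (x i) +
        Polynomial.X * Polynomial.C (∑ l, v l * algebraMap F K (e l i))) b =
      Polynomial.C (MvPolynomial.aeval x b) := by
  obtain ⟨v, hv, hz⟩ := exa14 hb (fun i : Fin b.totalDegree => (gl e x b).coeff (i.1 + 1))
    (fun i => i.1 + 1) (fun i => Nat.succ_pos _) (fun i => gl_hom e x b _)
  refine ⟨v, hv, ?_⟩
  rw [← gl_eval]
  have h1 : ((gl e x b).map (MvPolynomial.eval v)).natDegree = 0 := by
    by_contra h
    obtain ⟨j, hj⟩ := Nat.exists_eq_succ_of_ne_zero h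
    have h2 : ((gl e x b).map (MvPolynomial.eval v)).coeff (j + 1) ≠ 0 := by
      rw [← Nat.succ_eq_add_one, ← hj]
      exact Polynomial.leadingCoeff_ne_zero.2 fun h3 => h (by rw [h3, Polynomial.natDegree_zero])
    rw [Polynomial.coeff_map] at h2
    apply h2
    have h3 : j < b.totalDegree := by
      have h4 := (Polynomial.natDegree_map_le (f := MvPolynomial.eval v)
        (p := gl e x b)).trans (gl_deg e x b)
      omega
    exact hz ⟨j, h3⟩
  rw [Polynomial.eq_C_of_natDegree_eq_zero h1]
  congr 1
  have h4 : ∀ P : K[X], P.coeff 0 = P.eval 0 := fun P => Polynomial.coeff_zero_eq_eval_zero P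
  rw [h4, gl_eval]
  have h5 : AlgHom.comp ((Polynomial.aeval (R := K) (0 : K)).restrictScalars F)
      (MvPolynomial.aeval (fun i => Polynomial.C (x i) +
        Polynomial.X * Polynomial.C (∑ l, v l * algebraMap F K (e l i)))) =
      MvPolynomial.aeval (R := F) x := by
    apply MvPolynomial.algHom_ext
    intro i
    rw [AlgHom.comp_apply, MvPolynomial.aeval_X, MvPolynomial.aeval_X]
    simp
  have h6 := DFunLike.congr_fun h5 b
  rw [← h6]
  simp

end

end EXa14

end GF

end MPX64d474lc
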