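import Mathlib

set_option autoImplicit false

/-!
# Jacobi's formula: `M' = M A` gives `(det M)' = det M · tr A`
-/

namespace Pool.Agent.Lib.MP_64d474_lc.GF

namespace J14

theorem der_prod {F E ι : Type*} [Field F] [Field E] [Algebra F E] [DecidableEq ι]
    (D : Derivation F E E) (f : ι → E) (s : Finset ι) :
    D (∏ i ∈ s, f i) = ∑ i ∈ s, D (f i) * ∏ j ∈ s.erase i, f j := by
  induction s using Finset.induction_on with
  | empty => simp
  | insert a s ha ih =>
    rw [Finset.prod_insert ha, Derivation.leibniz, ih, Finset.sum_insert ha,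
      Finset.erase_insert ha, smul_eq_mul, smul_eq_mul, add_comm, mul_comm (∏ i ∈ s, f i),
      Finset.mul_sum]
    congr 1
    refine Finset.sum_congr rfl fun i hi => ?_
    have hia : a ≠ i := fun h => ha (h ▸ hi)
    rw [Finset.erase_insert_of_ne hia, Finset.prod_insert (fun h => ha (Finset.mem_of_mem_erase h))]
    ring

theorem der_det {F E ι : Type*} [Field F] [Field E] [Algebra F E] [Fintype ι] [DecidableEq ι]
    (D : Derivation F E E) (M : Matrix ι ι E) :
    D M.det = ∑ i, (M.updateCol i fun r => D (M r i)).det := by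
  rw [Matrix.det_apply', map_sum]
  simp only [Matrix.det_apply']
  rw [Finset.sum_comm]
  refine Finset.sum_congr rfl fun σ _ => ?_
  have h1 : D ((((Equiv.Perm.sign σ : ℤˣ) : ℤ) : E) * ∏ i, M (σ i) i) =
      (((Equiv.Perm.sign σ : ℤˣ) : ℤ) : E) * D (∏ i, M (σ i) i) := by
    rw [Derivation.leibniz, Derivation.map_intCast, smul_zero, add_zero, smul_eq_mul]
  rw [h1, der_prod, Finset.mul_sum]
  refine Finset.sum_congr rfl fun i _ => ?_
  rw [← Finset.mul_prod_erase Finset.univ _ (Finset.mem_univ i), Matrix.updateCol_self]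
  congr 2
  refine Finset.prod_congr rfl fun j hj => ?_
  rw [Matrix.updateCol_ne (Finset.ne_of_mem_erase hj)]

theorem jacobi {F E ι : Type*} [Field F] [Field E] [Algebra F E] [Fintype ι] [DecidableEq ι]
    (D : Derivation F E E) (M A : Matrix ι ι E) (h : M.map D = M * A) :
    D M.det = M.det * A.trace := by
  rw [der_det, Matrix.trace, Finset.mul_sum]
  refine Finset.sum_congr rfl fun i _ => ?_
  have h1 : (fun r => D (M r i)) = fun r => ∑ k, A k i • M r k := by
    ext r
    have h2 := congrFun (congrFun h r) i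
    rw [Matrix.map_apply, Matrix.mul_apply] at h2
    rw [h2]
    refine Finset.sum_congr rfl fun k _ => ?_
    rw [smul_eq_mul, mul_comm]
  have h3 := Matrix.det_updateCol_sum M i fun k => A k i
  rw [h1, h3, Matrix.diag_apply, mul_comm, smul_eq_mul]

end J14

end Pool.Agent.Lib.MP_64d474_lc.GF
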