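import Mathlib

set_option autoImplicit false

/-!
# Descent of `y = ∑ d_l (h_l)` from a rational function field
-/

namespace Pool.Agent.Lib.MP_64d474_lc.GF

namespace S14

open Polynomial

theorem sum_mul_prod {L ι : Type*} [Field L] [Fintype ι] [DecidableEq ι] (a b : ι → L)
    (hb : ∀ l, b l ≠ 0) :
    ∑ l, a l * ∏ j ∈ Finset.univ.erase l, b j = (∑ l, a l / b l) * ∏ j, b j := by
  rw [Finset.sum_mul]
  refine Finset.sum_congr rfl fun l _ => ?_
  rw [← Finset.mul_prod_erase Finset.univ b (Finset.mem_univ l), ← mul_assoc,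
    div_mul_cancel₀ _ (hb l)]

theorem trans_eval {Q K ι : Type*} [Field Q] [Field K] [Algebra Q K] [Fintype ι] (κ : K)
    (hκ : Transcendental Q κ) (A B : ι → Q[X]) (t : Q) (hB : ∀ l, (B l).eval t ≠ 0) (y : Q)
    (hy : algebraMap Q K y = ∑ l, aeval κ (A l) / aeval κ (B l)) :
    y = ∑ l, (A l).eval t / (B l).eval t := by
  classical
  have hB' : ∀ l, aeval κ (B l) ≠ 0 := by
    intro l h
    apply hB l
    rw [(transcendental_iff.1 hκ) _ h, eval_zero]
  have h1 : ∑ l, A l * ∏ j ∈ Finset.univ.erase l, B j - C y * ∏ j, B j = 0 := by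
    apply (transcendental_iff.1 hκ)
    rw [map_sub, map_sum, map_mul, map_prod, aeval_C]
    simp only [map_mul, map_prod]
    rw [sum_mul_prod (fun l => aeval κ (A l)) (fun l => aeval κ (B l)) hB', ← hy, sub_self]
  have h2 := congrArg (eval t) h1
  rw [eval_sub, eval_finsetSum, eval_mul, eval_prod, eval_C, eval_zero] at h2
  simp only [eval_mul, eval_prod] at h2
  rw [sum_mul_prod (fun l => (A l).eval t) (fun l => (B l).eval t) hB, ← sub_mul] at h2
  rcases mul_eq_zero.1 h2 with h3 | h3
  · exact (sub_eq_zero.1 h3).symm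
  · exact absurd h3 (Finset.prod_ne_zero_iff.2 fun l _ => hB l)

theorem ex_pd {F Q K : Type*} [Field F] [Field Q] [Field K] [Algebra F Q] [Algebra F K]
    [Algebra Q K] [IsScalarTower F Q K] (κ : K) (d : Derivation F Q Q) (d' : Derivation F K K)
    (hd : ∀ a, d' (algebraMap Q K a) = algebraMap Q K (d a)) (hdκ : d' κ = 0) (t : F)
    (p : Q[X]) : ∃ p' : Q[X], aeval κ p' = d' (aeval κ p) ∧
      p'.eval (algebraMap F Q t) = d (p.eval (algebraMap F Q t)) := by
  induction p using Polynomial.induction_on' with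
  | add p q hp hq =>
    obtain ⟨p', h1, h2⟩ := hp
    obtain ⟨q', h3, h4⟩ := hq
    exact ⟨p' + q', by rw [map_add, map_add, map_add, h1, h3],
      by rw [eval_add, eval_add, map_add, h2, h4]⟩
  | monomial n a =>
    refine ⟨monomial n (d a), ?_, ?_⟩
    · rw [aeval_monomial, aeval_monomial, Derivation.leibniz, Derivation.leibniz_pow, hdκ,
        smul_zero, smul_zero, smul_zero, zero_add, hd, smul_eq_mul, mul_comm]
    · rw [eval_monomial, eval_monomial, ← map_pow, Derivation.leibniz, Derivation.map_algebraMap,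
        smul_zero, zero_add, smul_eq_mul, mul_comm]

theorem desc_transc {F Q K ι : Type*} [Field F] [Infinite F] [Field Q] [Field K] [Algebra F Q]
    [Algebra F K] [Algebra Q K] [IsScalarTower F Q K] (κ : K) (hκ : Transcendental Q κ)
    (hgen : ∀ z : K, ∃ p q : Polynomial Q, q ≠ 0 ∧
      z = Polynomial.aeval κ p / Polynomial.aeval κ q)
    [Fintype ι] (d : ι → Derivation F Q Q) (d' : ι → Derivation F K K)
    (hd : ∀ l a, d' l (algebraMap Q K a) = algebraMap Q K (d l a)) (hdκ : ∀ l, d' l κ = 0)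
    (y : Q) (h : ι → K) (hy : algebraMap Q K y = ∑ l, d' l (h l)) :
    ∃ h' : ι → Q, y = ∑ l, d l (h' l) := by
  classical
  choose p q hq hz using fun l => hgen (h l)
  obtain ⟨t, ht⟩ : ∃ t : F, (∏ l, q l).eval (algebraMap F Q t) ≠ 0 := by
    by_contra hcon
    push Not at hcon
    have h1 : (∏ l, q l) ≠ 0 := Finset.prod_ne_zero_iff.2 fun l _ => hq l
    apply h1
    apply Polynomial.eq_zero_of_infinite_isRoot
    refine Set.Infinite.mono ?_ (Set.infinite_range_of_injective (algebraMap F Q).injective)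
    rintro _ ⟨t, rfl⟩
    exact hcon t
  rw [eval_prod, Finset.prod_ne_zero_iff] at ht
  have ht' : ∀ l, (q l).eval (algebraMap F Q t) ≠ 0 := fun l => ht l (Finset.mem_univ l)
  choose p' hp1 hp2 using fun l => ex_pd κ (d l) (d' l) (hd l) (hdκ l) t (p l)
  choose q' hq1 hq2 using fun l => ex_pd κ (d l) (d' l) (hd l) (hdκ l) t (q l)
  refine ⟨fun l => (p l).eval (algebraMap F Q t) / (q l).eval (algebraMap F Q t), ?_⟩
  rw [trans_eval κ hκ (fun l => q l * p' l - p l * q' l) (fun l => q l ^ 2) (algebraMap F Q t)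
    (fun l => by rw [eval_pow]; exact pow_ne_zero 2 (ht' l)) y ?_]
  · refine Finset.sum_congr rfl fun l _ => ?_
    rw [Derivation.leibniz_div, eval_sub, eval_mul, eval_mul, eval_pow, hp2, hq2]
    simp only [smul_eq_mul]
    rw [div_eq_inv_mul, inv_pow]
  · rw [hy]
    refine Finset.sum_congr rfl fun l _ => ?_
    rw [hz l, Derivation.leibniz_div, map_sub, map_mul, map_mul, map_pow, hp1, hq1]
    simp only [smul_eq_mul]
    rw [div_eq_inv_mul, inv_pow]

end S14

export S14 (desc_transc)

end Pool.Agent.Lib.MP_64d474_lc.GF
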