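import Mathlib

/-!
# Divergences descend along algebraic extensions
-/

set_option autoImplicit false

namespace Pool.Agent.Lib.MP_64d474_lc.GF

open Polynomial IntermediateField

theorem der_aeval64 {F K L : Type*} [Field F] [Field K] [Field L] [Algebra F K] [Algebra F L]
    [Algebra K L] [IsScalarTower F K L] (d : Derivation F K K) (d' : Derivation F L L)
    (hd : ∀ a, d' (algebraMap K L a) = algebraMap K L (d a)) (z : L) (p : K[X]) :
    ∃ r ∈ K⟮z⟯, d' (aeval z p) = r + aeval z (derivative p) * d' z := by
  induction p using Polynomial.induction_on' with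
  | add p q hp hq =>
    obtain ⟨r, hr, h1⟩ := hp
    obtain ⟨s, hs, h2⟩ := hq
    refine ⟨r + s, add_mem hr hs, ?_⟩
    rw [map_add, map_add, h1, h2, derivative_add, map_add]
    ring
  | monomial n a =>
    refine ⟨algebraMap K L (d a) * z ^ n, ?_, ?_⟩
    · exact mul_mem (IntermediateField.algebraMap_mem _ _)
        (pow_mem (mem_adjoin_simple_self K z) n)
    · rw [aeval_monomial, derivative_monomial, aeval_monomial, Derivation.leibniz,
        Derivation.leibniz_pow, hd, map_mul, map_natCast]
      simp only [smul_eq_mul, nsmul_eq_mul]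
      ring

theorem der_mem64 {F K L : Type*} [Field F] [Field K] [Field L] [CharZero K] [Algebra F K]
    [Algebra F L] [Algebra K L] [IsScalarTower F K L] (d : Derivation F K K)
    (d' : Derivation F L L) (hd : ∀ a, d' (algebraMap K L a) = algebraMap K L (d a)) {z : L}
    (hz : IsAlgebraic K z) : d' z ∈ K⟮z⟯ := by
  obtain ⟨r, hr, h⟩ := der_aeval64 d d' hd z (minpoly K z)
  have hne : aeval z (derivative (minpoly K z)) ≠ 0 :=
    Separable.aeval_derivative_ne_zero (minpoly.irreducible hz.isIntegral).separable
      (minpoly.aeval K z)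
  rw [minpoly.aeval, map_zero] at h
  have h2 : d' z = -r / aeval z (derivative (minpoly K z)) := by
    rw [eq_div_iff hne]
    linear_combination -h
  rw [h2]
  refine div_mem (neg_mem hr) ?_
  exact aeval_gen_mem64 _ _
where
  aeval_gen_mem64 {K L : Type _} [Field K] [Field L] [Algebra K L] (z : L) (p : K[X]) :
      aeval z p ∈ K⟮z⟯ := by
    have := (aeval (AdjoinSimple.gen K z) p).2
    rwa [← IntermediateField.aeval_coe, AdjoinSimple.coe_gen] at this

/-- A map on a finite extension which behaves like a derivation commutes with the trace. -/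
theorem trace_der64 {K E : Type*} [Field K] [Field E] [Algebra K E] [FiniteDimensional K E]
    (d : K → K) (D : E → E) (hadd : ∀ x y, D (x + y) = D x + D y)
    (hsm : ∀ (c : K) (x : E), D (c • x) = d c • x + c • D x)
    (hmul : ∀ x y, D (x * y) = D x * y + x * D y) (hda : ∀ a b, d (a + b) = d a + d b)
    (z : E) :
    Algebra.trace K E (D z) = d (Algebra.trace K E z) := by
  classical
  have h0 : D 0 = 0 := by
    have := hadd 0 0
    rw [add_zero] at this
    simpa using this
  have hd0 : d 0 = 0 := by
    have := hda 0 0
    rw [add_zero] at this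
    simpa using this
  have hsumD : ∀ {ι : Type} (s : Finset ι) (f : ι → E), D (∑ i ∈ s, f i) = ∑ i ∈ s, D (f i) := by
    intro ι s f
    induction s using Finset.induction_on with
    | empty => simpa using h0
    | insert a s ha ih => rw [Finset.sum_insert ha, Finset.sum_insert ha, hadd, ih]
  have hsumd : ∀ {ι : Type} (s : Finset ι) (f : ι → K), d (∑ i ∈ s, f i) = ∑ i ∈ s, d (f i) := by
    intro ι s f
    induction s using Finset.induction_on with
    | empty => simpa using hd0
    | insert a s ha ih => rw [Finset.sum_insert ha, Finset.sum_insert ha, hda, ih]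
  set b := Module.finBasis K E
  set M := Algebra.leftMulMatrix b z with hM
  set G : Matrix (Fin (Module.finrank K E)) (Fin (Module.finrank K E)) K :=
    fun i j => b.repr (D (b j)) i with hG
  have key : Algebra.leftMulMatrix b (D z) = M.map d + G * M - M * G := by
    ext i j
    have e1 : D z * b j = D (z * b j) - z * D (b j) := by rw [hmul]; ring
    have e2 : z * b j = ∑ k, M k j • b k := by
      have := b.sum_repr (z * b j)
      rw [← this]
      refine Finset.sum_congr rfl (fun k _ => ?_)
      rw [hM, Algebra.leftMulMatrix_eq_repr_mul]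
    have e3 : D (b j) = ∑ k, G k j • b k := (b.sum_repr (D (b j))).symm
    have e4 : D (z * b j) = ∑ k, (d (M k j) • b k + M k j • D (b k)) := by
      rw [e2, hsumD]
      exact Finset.sum_congr rfl (fun k _ => hsm _ _)
    have e5 : b.repr (D (z * b j)) i = d (M i j) + (G * M) i j := by
      rw [e4, map_sum, Finset.sum_apply', Matrix.mul_apply]
      simp only [map_add, map_smul, Finsupp.add_apply, Finsupp.smul_apply, smul_eq_mul,
        Finset.sum_add_distrib, Module.Basis.repr_self]
      congr 1
      · simp [Finsupp.single_apply]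
      · exact Finset.sum_congr rfl (fun k _ => mul_comm _ _)
    have e6 : b.repr (z * D (b j)) i = (M * G) i j := by
      rw [e3, Finset.mul_sum, map_sum, Finset.sum_apply', Matrix.mul_apply]
      refine Finset.sum_congr rfl (fun k _ => ?_)
      rw [mul_smul_comm, map_smul, Finsupp.smul_apply, smul_eq_mul, hM,
        Algebra.leftMulMatrix_eq_repr_mul, mul_comm]
    rw [Algebra.leftMulMatrix_eq_repr_mul, e1, map_sub, Finsupp.sub_apply, e5, e6]
    simp [Matrix.sub_apply, Matrix.add_apply, Matrix.map_apply]
  rw [Algebra.trace_eq_matrix_trace b, Algebra.trace_eq_matrix_trace b, key, Matrix.trace_sub,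
    Matrix.trace_add, Matrix.trace_mul_comm G M, add_sub_cancel_right]
  simp only [Matrix.trace, Matrix.diag_apply, Matrix.map_apply]
  exact (hsumd _ _).symm

theorem desc_alg {F K L ι : Type*} [Field F] [Field K] [Field L] [CharZero K] [Algebra F K]
    [Algebra F L] [Algebra K L] [IsScalarTower F K L] [Algebra.IsAlgebraic K L] [Fintype ι]
    (d : ι → Derivation F K K) (d' : ι → Derivation F L L)
    (hd : ∀ l a, d' l (algebraMap K L a) = algebraMap K L (d l a)) (y : K) (h : ι → L)
    (hy : algebraMap K L y = ∑ l, d' l (h l)) : ∃ h' : ι → K, y = ∑ l, d l (h' l) := by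
  classical
  set E : IntermediateField K L := IntermediateField.adjoin K (Set.range h) with hE
  have hfin : FiniteDimensional K E :=
    IntermediateField.finiteDimensional_adjoin (S := Set.range h)
      (fun x _ => (Algebra.IsAlgebraic.isAlgebraic x).isIntegral)
  have hmem : ∀ l (z : L), z ∈ E → d' l z ∈ E := by
    intro l z hz
    have h1 := der_mem64 (d l) (d' l) (hd l) (Algebra.IsAlgebraic.isAlgebraic (R := K) z)
    have h2 : K⟮z⟯ ≤ E := by
      rw [IntermediateField.adjoin_simple_le_iff]
      exact hz
    exact h2 h1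
  have hhE : ∀ l, h l ∈ E := fun l => IntermediateField.subset_adjoin _ _ ⟨l, rfl⟩
  let D : ι → E → E := fun l z => ⟨d' l z, hmem l z z.2⟩
  have htr : ∀ l (z : E), Algebra.trace K E (D l z) = d l (Algebra.trace K E z) := by
    intro l z
    refine trace_der64 (fun a => d l a) (D l) ?_ ?_ ?_ ?_ z
    · intro x y
      apply Subtype.ext
      simp [D]
    · intro c x
      apply Subtype.ext
      have e1 : ∀ (c : K) (x : E), ((c • x : E) : L) = algebraMap K L c * (x : L) := by
        intro c x
        rw [IntermediateField.coe_smul, Algebra.smul_def]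
      have e2 : ((D l (c • x) : E) : L) = d' l ((c • x : E) : L) := rfl
      have e3 : ((D l x : E) : L) = d' l (x : L) := rfl
      rw [IntermediateField.coe_add, e1, e1, e2, e3, e1, Derivation.leibniz, hd]
      simp only [smul_eq_mul]
      ring
    · intro x y
      apply Subtype.ext
      simp only [D, IntermediateField.coe_mul, IntermediateField.coe_add,
        Derivation.leibniz, smul_eq_mul]
      ring
    · intro a b
      simp
  have hyE : algebraMap K E y = ∑ l, D l ⟨h l, hhE l⟩ := by
    apply Subtype.ext
    have h1 : ((∑ l, D l ⟨h l, hhE l⟩ : E) : L) = ∑ l, d' l (h l) := by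
      rw [IntermediateField.coe_sum]
    rw [h1, ← hy]
    rfl
  have h3 := congrArg (Algebra.trace K E) hyE
  rw [Algebra.trace_algebraMap, map_sum] at h3
  simp only [htr] at h3
  set n := Module.finrank K E with hn
  have hn0 : (n : K) ≠ 0 := by
    have : 0 < n := Module.finrank_pos
    exact_mod_cast this.ne'
  refine ⟨fun l => (n : K)⁻¹ * Algebra.trace K E ⟨h l, hhE l⟩, ?_⟩
  have h4 : ∀ l (t : K), d l ((n : K)⁻¹ * t) = (n : K)⁻¹ * d l t := by
    intro l t
    have h5 : d l (n • ((n : K)⁻¹ * t)) = n • d l ((n : K)⁻¹ * t) := map_nsmul _ _ _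
    rw [nsmul_eq_mul, nsmul_eq_mul, mul_inv_cancel_left₀ hn0] at h5
    rw [h5, inv_mul_cancel_left₀ hn0]
  simp only [h4]
  rw [← Finset.mul_sum, ← h3, nsmul_eq_mul, inv_mul_cancel_left₀ hn0]

end Pool.Agent.Lib.MP_64d474_lc.GF
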