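import Mathlib
import Pool.Agent.Lib.MP_1e09a3_nt.ExtDer
import Pool.Agent.Lib.MP_64d474_lc.GF.Der66
import Pool.Agent.Lib.MP_64d474_lc.GF.EXa14
import Pool.Agent.Lib.MP_64d474_lc.GF.J14
import Pool.Agent.Lib.MP_64d474_lc.GF.S14
import Pool.Agent.Lib.MP_64d474_lc.GF.T64

set_option autoImplicit false

/-!
# A fraction whose denominator has degree less than `c` is a divergence in `c` directions
-/

namespace Pool.Agent.Lib.MP_64d474_lc.GF

namespace EX91

open Polynomial

/-- a derivation which kills the coefficients -/
theorem der_aeval {F A K M : Type*} [Field F] [Field A] [Field K] [Algebra F A] [Algebra F K]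
    [Algebra A K] [AddCommGroup M] [Module K M] [Module F M] (D : Derivation F K M)
    (hA : ∀ a : A, D (algebraMap A K a) = 0) (y : K) (p : A[X]) :
    D (aeval y p) = aeval y (derivative p) • D y := by
  induction p using Polynomial.induction_on' with
  | add p q hp hq => rw [map_add, map_add, hp, hq, map_add, map_add, add_smul]
  | monomial n a =>
    rw [aeval_monomial, Derivation.leibniz, hA, smul_zero, add_zero, Derivation.leibniz_pow,
      derivative_monomial, aeval_monomial, map_mul, map_natCast, ← Nat.cast_smul_eq_nsmul K,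
      smul_smul, smul_smul]

theorem der_alg {F A K M : Type*} [Field F] [Field A] [Field K] [CharZero A] [Algebra F A]
    [Algebra F K] [Algebra A K] [AddCommGroup M] [Module K M] [Module F M]
    (D : Derivation F K M) (hA : ∀ a : A, D (algebraMap A K a) = 0) (y : K)
    (hy : IsAlgebraic A y) : D y = 0 := by
  have h1 : (minpoly A y).Separable := (minpoly.irreducible hy.isIntegral).separable
  have h2 := h1.aeval_derivative_ne_zero (minpoly.aeval A y)
  have h3 := der_aeval D hA y (minpoly A y)
  rw [minpoly.aeval, map_zero] at h3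
  exact (smul_eq_zero.1 h3.symm).resolve_left h2

/-- the constants of a derivation in an intermediate field -/
theorem der_adjoin {F K M : Type*} [Field F] [Field K] [Algebra F K] [AddCommGroup M]
    [Module K M] [Module F M] (D : Derivation F K M) (S : Set K) (h : ∀ s ∈ S, D s = 0)
    (a : K) (ha : a ∈ IntermediateField.adjoin F S) : D a = 0 := by
  induction ha using IntermediateField.adjoin_induction with
  | mem x hx => exact h x hx
  | algebraMap x => exact D.map_algebraMap x
  | add x y _ _ hx hy => rw [map_add, hx, hy, add_zero]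
  | inv x _ hx => rw [Derivation.leibniz_inv, hx, smul_zero]
  | mul x y _ _ hx hy => rw [Derivation.leibniz, hx, hy, smul_zero, smul_zero, add_zero]

theorem der_zero {F K M ι : Type*} [Field F] [CharZero F] [Field K] [Algebra F K]
    [AddCommGroup M] [Module K M] [Module F M] (z : ι → K) (hz : IsTranscendenceBasis F z)
    (D : Derivation F K M) (h : ∀ i, D (z i) = 0) (y : K) : D y = 0 := by
  have : Algebra.IsAlgebraic (IntermediateField.adjoin F (Set.range z)) K :=
    hz.isAlgebraic_field
  have : CharZero (IntermediateField.adjoin F (Set.range z)) :=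
    charZero_of_injective_algebraMap
      (algebraMap F (IntermediateField.adjoin F (Set.range z))).injective
  refine der_alg (A := IntermediateField.adjoin F (Set.range z)) D ?_ y
    (Algebra.IsAlgebraic.isAlgebraic y)
  intro a
  refine der_adjoin D (Set.range z) ?_ a a.2
  rintro _ ⟨i, rfl⟩
  exact h i

theorem der_ext {F K M ι : Type*} [Field F] [CharZero F] [Field K] [Algebra F K]
    [AddCommGroup M] [Module K M] [Module F M] (z : ι → K) (hz : IsTranscendenceBasis F z)
    (D₁ D₂ : Derivation F K M) (h : ∀ i, D₁ (z i) = D₂ (z i)) : D₁ = D₂ := by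
  ext y
  have h1 := der_zero z hz (D₁ - D₂) (fun i => by
    rw [Derivation.sub_apply, h i, sub_self]) y
  rw [Derivation.sub_apply] at h1
  exact sub_eq_zero.1 h1

/-- the dual derivations of a transcendence basis -/
theorem exists_dual {F K ι : Type*} [Field F] [CharZero F] [Field K] [Algebra F K]
    [DecidableEq ι] (z : ι → K) (hz : IsTranscendenceBasis F z) :
    ∃ d : ι → Derivation F K K, ∀ i j, d i (z j) = if i = j then 1 else 0 := by
  have h := fun i => Pool.Agent.Lib.MP_1e09a3_nt.exists_der_of_basis z hz i
  choose d h1 h2 using h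
  refine ⟨d, fun i j => ?_⟩
  split_ifs with hij
  · rw [← hij, h1]
  · exact h2 i j (fun h => hij h.symm)

theorem der_sum {F K ι : Type*} [Field F] [Field K] [Algebra F K]
    (s : Finset ι) (a : ι → K) (d : ι → Derivation F K K) (y : K) :
    (∑ i ∈ s, a i • d i) y = ∑ i ∈ s, a i * d i y := by
  classical
  induction s using Finset.induction_on with
  | empty => simp
  | insert i s hi ih =>
    rw [Finset.sum_insert hi, Finset.sum_insert hi, Derivation.add_apply, ih,
      Derivation.smul_apply, smul_eq_mul]

/-- expansion in the dual basis -/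
theorem der_expand {F K ι : Type*} [Field F] [CharZero F] [Field K] [Algebra F K]
    [Fintype ι] [DecidableEq ι] (z : ι → K) (hz : IsTranscendenceBasis F z)
    (d : ι → Derivation F K K) (hd : ∀ i j, d i (z j) = if i = j then 1 else 0)
    (D : Derivation F K K) (y : K) : D y = ∑ i, D (z i) * d i y := by
  have h := der_ext z hz D (∑ i, D (z i) • d i) (fun j => by
    rw [der_sum]
    simp [hd])
  have h1 : D y = (∑ i, D (z i) • d i) y := by rw [← h]
  rw [h1, der_sum]


universe u

section basisE

variable {F L : Type u} [Field F] [Field L] [Algebra F L] {n : ℕ}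

/-- the moved point -/
noncomputable def mov (x w : Fin n → L) (i : Fin n) : L[X] := C (x i) + X * C (w i)

theorem eval_zero_mov (x w : Fin n → L) (q : MvPolynomial (Fin n) F) :
    eval 0 (MvPolynomial.aeval (mov x w) q) = MvPolynomial.aeval x q := by
  have h : (MvPolynomial.aeval (mov x w) q).eval 0 =
      (Polynomial.aeval (R := F) (0 : L)) 0 + MvPolynomial.aeval (R := F)
        (fun i => eval 0 (mov x w i)) q := by
    rw [map_zero, zero_add]
    induction q using MvPolynomial.induction_on with
    | C a => simp [Polynomial.algebraMap_apply]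
    | add p q hp hq => simp only [map_add, eval_add, hp, hq]
    | mul_X p i hp => simp only [map_mul, eval_mul, hp, MvPolynomial.aeval_X]
  rw [h, map_zero, zero_add]
  congr 2
  funext i
  simp [mov]

theorem indep_mov (x w : Fin n → L) (hx : AlgebraicIndependent F x) :
    AlgebraicIndependent F (mov x w) := by
  rw [algebraicIndependent_iff]
  intro p hp
  have h := eval_zero_mov x w p
  rw [hp, eval_zero] at h
  exact (algebraicIndependent_iff.1 hx) p h.symm

theorem indep_X_mov (x w : Fin n → L) (hx : AlgebraicIndependent F x) :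
    AlgebraicIndependent F (Sum.elim (fun _ : Unit => (X : L[X])) (mov x w)) := by
  rw [AlgebraicIndependent.sumElim_iff]
  refine ⟨indep_mov x w hx, ?_⟩
  rw [algebraicIndependent_unique_type_iff]
  rw [transcendental_iff]
  have key : ∀ a : Algebra.adjoin F (Set.range (mov x w)), eval 0 (a : L[X]) = 0 → a = 0 := by
    intro a ha
    obtain ⟨a, ha'⟩ := a
    have h1 := ha'
    rw [Algebra.adjoin_range_eq_range_aeval] at h1
    obtain ⟨q, hq⟩ := h1
    have hq' : MvPolynomial.aeval (mov x w) q = a := hq
    have h2 := eval_zero_mov x w q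
    rw [hq', show eval 0 a = 0 from ha] at h2
    have h3 := (algebraicIndependent_iff.1 hx) q h2.symm
    apply Subtype.ext
    change a = 0
    rw [← hq', h3, map_zero]
  suffices H : ∀ (N : ℕ) (p : (Algebra.adjoin F (Set.range (mov x w)))[X]), p.natDegree ≤ N →
      aeval (X : L[X]) p = 0 → p = 0 from fun p hp => H p.natDegree p le_rfl hp
  intro N
  induction N with
  | zero =>
    intro p hp h
    have hp0 := natDegree_eq_zero.1 (Nat.le_zero.1 hp)
    obtain ⟨a, rfl⟩ := hp0
    rw [aeval_C] at h
    have : a = 0 := Subtype.ext h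
    rw [this, C_0]
  | succ N ih =>
    intro p hp h
    have h0 : p.coeff 0 = 0 := by
      apply key
      have h1 := congrArg (eval 0) h
      rw [← divX_mul_X_add p, map_add, map_mul, aeval_X, aeval_C, eval_add, eval_mul, eval_X,
        mul_zero, zero_add, eval_zero] at h1
      exact h1
    have hd : p = divX p * X := by
      conv_lhs => rw [← divX_mul_X_add p, h0, C_0, add_zero]
    have h2 : aeval (X : L[X]) (divX p) = 0 := by
      rw [hd, map_mul, aeval_X] at h
      exact (mul_eq_zero.1 h).resolve_right X_ne_zero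
    have h3 := ih (divX p) (by rw [natDegree_divX_eq_natDegree_tsub_one]; omega) h2
    rw [hd, h3, zero_mul]

theorem basis_mov (x w : Fin n → L) (hx : IsTranscendenceBasis F x) :
    IsTranscendenceBasis F (algebraMap L[X] (FractionRing L[X]) ∘
      Sum.elim (fun _ : Unit => (X : L[X])) (mov x w)) := by
  have h0 : IsTranscendenceBasis F (algebraMap L[X] (FractionRing L[X]) ∘
      Sum.elim (fun _ : Unit => (X : L[X])) (algebraMap L L[X] ∘ x)) := by
    have hI : Function.Injective (algebraMap L[X] (FractionRing L[X])) :=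
      IsFractionRing.injective _ _
    have hf : FaithfulSMul L[X] (FractionRing L[X]) :=
      (faithfulSMul_iff_algebraMap_injective _ _).mpr hI
    have hK : Algebra.IsAlgebraic L[X] (FractionRing L[X]) :=
      (IsFractionRing.comap_isAlgebraic_iff (K := FractionRing L[X])).mpr
        (inferInstance : Algebra.IsAlgebraic (FractionRing L[X]) (FractionRing L[X]))
    exact (hx.sumElim_comp (IsTranscendenceBasis.polynomial Unit L)).algebraMap_comp
  have hc := h0.lift_cardinalMk_eq_trdeg
  have h1 : AlgebraicIndependent F (algebraMap L[X] (FractionRing L[X]) ∘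
      Sum.elim (fun _ : Unit => (X : L[X])) (mov x w)) :=
    (indep_X_mov x w hx.1).map' (f := IsScalarTower.toAlgHom F L[X] (FractionRing L[X]))
      (IsFractionRing.injective _ _)
  refine h1.isTranscendenceBasis_of_lift_trdeg_le_of_finite ?_
  exact hc.symm.le

end basisE


theorem exists_anti {L : Type*} [Field L] [CharZero L] (q : L[X]) : ∃ f : L[X], derivative f = q := by
  induction q using Polynomial.induction_on' with
  | add p q hp hq =>
    obtain ⟨f, hf⟩ := hp
    obtain ⟨g, hg⟩ := hq
    exact ⟨f + g, by rw [derivative_add, hf, hg]⟩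
  | monomial n a =>
    refine ⟨monomial (n + 1) (a / (n + 1)), ?_⟩
    have h : ((n : L) + 1) ≠ 0 := Nat.cast_add_one_ne_zero n
    rw [derivative_monomial, Nat.add_sub_cancel, Nat.cast_add, Nat.cast_one, div_mul_cancel₀ _ h]

section core

variable {F L : Type u} [Field F] [CharZero F] [Field L] [Algebra F L] {n c : ℕ}

open MvPolynomial (aeval) in
theorem core [CharZero L] (x : Fin n → L) (hx : IsTranscendenceBasis F x) (v : Fin c → L) (l0 : Fin c)
    (hv : v l0 = 1) (e : Fin c → Fin n → F) (w : Fin n → L)
    (hw : ∀ i, w i = ∑ l, v l * algebraMap F L (e l i))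
    (ξ : Fin n → F) (hξ : ∀ l, ∑ i, ξ i * e l i = if l = l0 then 1 else 0)
    (b g : MvPolynomial (Fin n) F) (hb0 : MvPolynomial.aeval x b ≠ 0)
    (hline : MvPolynomial.aeval (mov x w) b = C (MvPolynomial.aeval x b)) :
    ∃ (D : Fin c → Derivation F (FractionRing L[X]) (FractionRing L[X]))
      (D' : Derivation F (FractionRing L[X]) (FractionRing L[X])) (h : Fin c → FractionRing L[X]),
      (∀ l i, D l (algebraMap L[X] _ (mov x w i)) = algebraMap F _ (e l i)) ∧
      (∀ l, D l (∑ i, algebraMap F _ (ξ i) * algebraMap L[X] _ (mov x w i) -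
        algebraMap L[X] _ X) = 0) ∧
      (∀ i, D' (algebraMap L[X] _ (mov x w i)) = 0) ∧ D' (algebraMap L[X] _ X) = 1 ∧
      algebraMap L[X] (FractionRing L[X]) (MvPolynomial.aeval (mov x w) g) /
        algebraMap L[X] (FractionRing L[X]) (MvPolynomial.aeval (mov x w) b) =
        ∑ l, D l (h l) := by
  classical
  let E := FractionRing L[X]
  let T : L[X] →+* E := algebraMap L[X] E
  have hTinj : Function.Injective T := IsFractionRing.injective _ _
  have hzb := basis_mov (F := F) x (fun _ => 0) hx
  have hzs := basis_mov (F := F) x w hx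
  set zb : Unit ⊕ Fin n → E := algebraMap L[X] (FractionRing L[X]) ∘
      Sum.elim (fun _ : Unit => (X : L[X])) (mov x fun _ => 0) with hzbdef
  set zs : Unit ⊕ Fin n → E := algebraMap L[X] (FractionRing L[X]) ∘
      Sum.elim (fun _ : Unit => (X : L[X])) (mov x w) with hzsdef
  obtain ⟨p, hp⟩ := exists_dual zb hzb
  obtain ⟨d, hd⟩ := exists_dual zs hzs
  obtain ⟨δ, hδ⟩ := exists_dual x hx
  -- the derivation by the parameter
  have hτ0 : ∀ a : L, p (Sum.inl ()) (algebraMap L E a) = 0 := by
    intro a
    have h := der_zero x hx ((p (Sum.inl ())).compAlgebraMap L) (fun i => by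
      change p (Sum.inl ()) (algebraMap L E (x i)) = 0
      have h1 := hp (Sum.inl ()) (Sum.inr i)
      have h2 : zb (Sum.inr i) = algebraMap L E (x i) := by
        simp only [hzbdef, Function.comp, Sum.elim_inr, mov, map_zero, mul_zero, add_zero]
        rfl
      rw [h2] at h1
      rw [h1]
      simp) a
    exact h
  have hττ : p (Sum.inl ()) (T X) = 1 := by
    have h1 := hp (Sum.inl ()) (Sum.inl ())
    rw [if_pos rfl] at h1
    exact h1
  have hTa : ∀ f : L[X], T f = Polynomial.aeval (T X) f := by
    intro f
    have h := Polynomial.aeval_algebraMap_apply (R := L) E (X : L[X]) f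
    rw [Polynomial.aeval_X_left_apply] at h
    exact h.symm
  have hτ : ∀ f : L[X], p (Sum.inl ()) (T f) = T (derivative f) := by
    intro f
    rw [hTa, der_aeval (p (Sum.inl ())) hτ0, hττ, smul_eq_mul, mul_one, ← hTa]
  have hpd : ∀ (i : Fin n) (a : L), p (Sum.inr i) (T (C a)) = T (C (δ i a)) := by
    intro i a
    have h := der_ext x hx ((p (Sum.inr i)).compAlgebraMap L)
      ((Algebra.linearMap L E).compDer (δ i)) (fun j => by
        change p (Sum.inr i) (algebraMap L E (x j)) = algebraMap L E (δ i (x j))
        have h1 := hp (Sum.inr i) (Sum.inr j)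
        have h2 : zb (Sum.inr j) = algebraMap L E (x j) := by
          simp only [hzbdef, Function.comp, Sum.elim_inr, mov, map_zero, mul_zero, add_zero]
          rfl
        rw [h2] at h1
        rw [h1, hδ]
        by_cases hij : i = j
        · simp [hij]
        · simp [hij])
    exact congrArg (fun D : Derivation F L E => D a) h
  have hpX : ∀ i : Fin n, p (Sum.inr i) (T X) = 0 := by
    intro i
    have h1 := hp (Sum.inr i) (Sum.inl ())
    rw [if_neg (by simp)] at h1
    exact h1
  -- the Jacobian matrix
  let Mp : Matrix (Unit ⊕ Fin n) (Unit ⊕ Fin n) L[X] :=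
    Matrix.fromBlocks (Matrix.of fun _ _ => 1) (Matrix.of fun _ j => C (w j)) 0
      (Matrix.of fun i j => C (if i = j then 1 else 0) + X * C (δ i (w j)))
  have hM11 : ∀ i j, Mp (Sum.inl i) (Sum.inl j) = 1 := fun _ _ => rfl
  have hM12 : ∀ i j, Mp (Sum.inl i) (Sum.inr j) = C (w j) := fun _ _ => rfl
  have hM21 : ∀ i j, Mp (Sum.inr i) (Sum.inl j) = 0 := fun _ _ => rfl
  have hM22 : ∀ i j, Mp (Sum.inr i) (Sum.inr j) =
      C (if i = j then 1 else 0) + X * C (δ i (w j)) := fun _ _ => rfl
  have hM : ∀ m j, p m (zs j) = T (Mp m j) := by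
    rintro (m | i) (j | j)
    · exact hττ.trans (map_one T).symm
    · change p (Sum.inl ()) (T (mov x w j)) = T (C (w j))
      rw [hτ]
      simp [mov]
    · exact (hpX i).trans (map_zero T).symm
    · change p (Sum.inr i) (T (C (x j) + X * C (w j))) =
        T (C (if i = j then 1 else 0) + X * C (δ i (w j)))
      rw [map_add, map_mul, map_add, Derivation.leibniz, hpX, hpd, hpd, hδ, smul_zero, add_zero,
        smul_eq_mul, map_add, map_mul]
  have hdet : Mp.det ≠ 0 := by
    intro h
    have h1 := congrArg (eval (0 : L)) h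
    rw [eval_zero, ← coe_evalRingHom, RingHom.map_det] at h1
    have h2 : (evalRingHom (0 : L)).mapMatrix Mp = Matrix.fromBlocks 1 (Matrix.of fun _ j => w j) 0 1 := by
      ext i j
      rcases i with i | i <;> rcases j with j | j
      · change eval 0 (1 : L[X]) = (1 : Matrix Unit Unit L) i j
        rw [eval_one, Matrix.one_apply, if_pos (Subsingleton.elim i j)]
      · change eval 0 (C (w j)) = w j
        rw [eval_C]
      · change eval 0 (0 : L[X]) = 0
        rw [eval_zero]
      · change eval 0 (C (if i = j then 1 else 0) + X * C (δ i (w j))) = (1 : Matrix (Fin n) (Fin n) L) i j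
        rw [eval_add, eval_mul, eval_X, zero_mul, add_zero, eval_C, Matrix.one_apply]
    rw [h2, Matrix.det_fromBlocks_zero₂₁, Matrix.det_one, Matrix.det_one, mul_one] at h1
    exact one_ne_zero h1
  have hJ0 : T Mp.det ≠ 0 := fun h => hdet (hTinj (h.trans (map_zero T).symm))
  have hFE : ∀ a : F, algebraMap F E a = T (C (algebraMap F L a)) := fun a => rfl
  -- the constants of the directions
  let a : Fin c → Unit ⊕ Fin n → F := fun l => Sum.elim (fun _ => if l = l0 then 1 else 0) (e l)
  let D : Fin c → Derivation F E E := fun l => ∑ k, algebraMap F E (a l k) • d k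
  have hD : ∀ l y, D l y = ∑ k, algebraMap F E (a l k) * d k y := fun l y =>
    der_sum Finset.univ (fun k => algebraMap F E (a l k)) d y
  have hDz : ∀ l j, D l (zs j) = algebraMap F E (a l j) := by
    intro l j
    rw [hD, Finset.sum_eq_single j]
    · rw [hd, if_pos rfl, mul_one]
    · intro k _ hk
      rw [hd, if_neg hk, mul_zero]
    · intro h
      exact absurd (Finset.mem_univ j) h
  let V : Fin c → E := fun l => T (C (v l))
  have hpz : ∀ j, p (Sum.inl ()) (zs j) = ∑ l, V l * algebraMap F E (a l j) := by
    rintro (j | j)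
    · have h1 : p (Sum.inl ()) (zs (Sum.inl j)) = 1 := hττ
      rw [h1, Finset.sum_eq_single l0]
      · change 1 = T (C (v l0)) * algebraMap F E (if l0 = l0 then 1 else 0)
        rw [if_pos rfl, hv, map_one, map_one, map_one, mul_one]
      · intro l _ hl
        change T (C (v l)) * algebraMap F E (if l = l0 then 1 else 0) = 0
        rw [if_neg hl, map_zero, mul_zero]
      · intro h
        exact absurd (Finset.mem_univ l0) h
    · rw [hM, hM12, hw, map_sum, map_sum]
      refine Finset.sum_congr rfl fun l _ => ?_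
      rw [map_mul, map_mul, hFE]
      rfl
  have hpD : ∀ y, p (Sum.inl ()) y = ∑ l, V l * D l y := by
    intro y
    have h := der_ext zs hzs (p (Sum.inl ())) (∑ l, V l • D l) (fun j => by
      rw [der_sum, hpz]
      exact Finset.sum_congr rfl fun l _ => by rw [hDz])
    have h1 : p (Sum.inl ()) y = (∑ l, V l • D l) y := by rw [← h]
    rw [h1, der_sum]
  -- the divergence
  let A : Matrix (Unit ⊕ Fin n) (Unit ⊕ Fin n) E := fun k j => d k (p (Sum.inl ()) (zs j))
  have hMA : (Mp.map T).map (p (Sum.inl ())) = Mp.map T * A := by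
    ext m j
    rw [Matrix.map_apply, Matrix.map_apply, Matrix.mul_apply]
    have h1 : p (Sum.inl ()) (T (Mp m j)) = p m (p (Sum.inl ()) (zs j)) := by
      rcases m with m | i
      · rw [← hM]
      · rcases j with j | j
        · have h2 : p (Sum.inl ()) (zs (Sum.inl j)) = 1 := hττ
          rw [h2, hM21, map_zero, map_zero, Derivation.map_one_eq_zero]
        · rw [hM (Sum.inl ()) (Sum.inr j), hτ, hM12, hM22, hpd, derivative_add, derivative_C,
            zero_add, derivative_mul, derivative_X, derivative_C, mul_zero, add_zero, one_mul]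
    rw [h1, der_expand zs hzs d hd (p m)]
    refine Finset.sum_congr rfl fun k _ => ?_
    rw [hM, Matrix.map_apply]
  have hJac : p (Sum.inl ()) (T Mp.det) = T Mp.det * A.trace := by
    have h := J14.jacobi (p (Sum.inl ())) (Mp.map T) A hMA
    have h2 : (Mp.map T).det = T Mp.det := by
      rw [← RingHom.mapMatrix_apply, ← RingHom.map_det]
    rw [h2] at h
    exact h
  have hdiv : ∑ l, D l (V l) = A.trace := by
    rw [Matrix.trace]
    have h1 : ∀ k, Matrix.diag A k = ∑ l, algebraMap F E (a l k) * d k (V l) := by
      intro k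
      change d k (p (Sum.inl ()) (zs k)) = _
      rw [hpz, map_sum]
      refine Finset.sum_congr rfl fun l _ => ?_
      rw [mul_comm, ← Algebra.smul_def, Derivation.map_smul, Algebra.smul_def]
    simp only [h1, hD]
    rw [Finset.sum_comm]
  obtain ⟨f, hf⟩ := exists_anti (Mp.det * MvPolynomial.aeval (mov x w) g)
  let β : E := T (C (MvPolynomial.aeval x b))
  have hβ : β ≠ 0 := by
    intro h
    apply hb0
    exact C_injective (hTinj (h.trans (by rw [map_zero, map_zero])))
  have hpβ : p (Sum.inl ()) β = 0 := hτ0 _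
  let H : E := T f / β / T Mp.det
  have hH : H * (β * T Mp.det) = T f := by
    change T f / β / T Mp.det * (β * T Mp.det) = T f
    rw [div_div, div_mul_cancel₀ _ (mul_ne_zero hβ hJ0)]
  have hpH : (p (Sum.inl ()) H + H * A.trace) * β = T (MvPolynomial.aeval (mov x w) g) := by
    have h1 := congrArg (p (Sum.inl ())) hH
    rw [Derivation.leibniz, Derivation.leibniz, hpβ, hJac, hτ, hf, smul_zero, add_zero, map_mul,
      smul_eq_mul, smul_eq_mul, smul_eq_mul] at h1
    apply mul_right_cancel₀ hJ0
    linear_combination h1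
  refine ⟨D, d (Sum.inl ()), fun l => V l * H, ?_, ?_, ?_, ?_, ?_⟩
  · intro l i
    exact hDz l (Sum.inr i)
  · intro l
    have h1 : ∀ i, D l (algebraMap F E (ξ i) * algebraMap L[X] _ (mov x w i)) =
        algebraMap F E (ξ i * e l i) := by
      intro i
      rw [← Algebra.smul_def, Derivation.map_smul, Algebra.smul_def, map_mul]
      congr 1
      exact hDz l (Sum.inr i)
    have h2 : D l (algebraMap L[X] _ X) = algebraMap F E (if l = l0 then 1 else 0) :=
      hDz l (Sum.inl ())
    rw [map_sub, map_sum, h2]
    rw [Finset.sum_congr rfl fun i _ => h1 i, ← map_sum, hξ, sub_self]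
  · intro i
    have h1 := hd (Sum.inl ()) (Sum.inr i)
    rw [if_neg (by simp)] at h1
    exact h1
  · have h1 := hd (Sum.inl ()) (Sum.inl ())
    rw [if_pos rfl] at h1
    exact h1
  · rw [hline, div_eq_iff hβ]
    change T (MvPolynomial.aeval (mov x w) g) = (∑ l, D l (V l * H)) * β
    rw [← hpH]
    congr 1
    rw [hpD, ← hdiv, Finset.mul_sum, ← Finset.sum_add_distrib]
    refine Finset.sum_congr rfl fun l _ => ?_
    rw [Derivation.leibniz, smul_eq_mul, smul_eq_mul]

end core


section descent

theorem exists_restrict {F K E : Type*} [Field F] [Field K] [Field E] [Algebra F K]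
    [Algebra F E] [Algebra K E] [IsScalarTower F K E] (D : Derivation F E E)
    (hD : ∀ a : K, ∃ a' : K, D (algebraMap K E a) = algebraMap K E a') :
    ∃ d : Derivation F K K, ∀ a, D (algebraMap K E a) = algebraMap K E (d a) := by
  choose f hf using hD
  have hinj := (algebraMap K E).injective
  refine ⟨Derivation.mk'
    { toFun := f
      map_add' := fun x y => by
        apply hinj
        rw [← hf, map_add, map_add, map_add, hf, hf]
      map_smul' := fun a x => by
        apply hinj
        rw [← hf, Algebra.smul_def, map_mul, ← IsScalarTower.algebraMap_apply,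
          ← Algebra.smul_def, Derivation.map_smul, hf, RingHom.id_apply, Algebra.smul_def,
          Algebra.smul_def, map_mul, ← IsScalarTower.algebraMap_apply] }
    (fun a b => by
      apply hinj
      change algebraMap K E (f (a * b)) = algebraMap K E (a • f b + b • f a)
      rw [← hf, map_mul, Derivation.leibniz, hf, hf, map_add, smul_eq_mul, smul_eq_mul,
        smul_eq_mul, smul_eq_mul, map_mul, map_mul]), fun a => hf a⟩

theorem basis_Q (F : Type u) [Field F] (n : ℕ) :
    IsTranscendenceBasis F (algebraMap (MvPolynomial (Fin n) F)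
      (FractionRing (MvPolynomial (Fin n) F)) ∘ MvPolynomial.X) := by
  have hK : Algebra.IsAlgebraic (MvPolynomial (Fin n) F)
      (FractionRing (MvPolynomial (Fin n) F)) :=
    (IsFractionRing.comap_isAlgebraic_iff (K := FractionRing (MvPolynomial (Fin n) F))).mpr
      (inferInstance : Algebra.IsAlgebraic (FractionRing (MvPolynomial (Fin n) F))
        (FractionRing (MvPolynomial (Fin n) F)))
  have hI : Function.Injective (algebraMap (MvPolynomial (Fin n) F)
      (FractionRing (MvPolynomial (Fin n) F))) := IsFractionRing.injective _ _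
  have hf : FaithfulSMul (MvPolynomial (Fin n) F) (FractionRing (MvPolynomial (Fin n) F)) :=
    (faithfulSMul_iff_algebraMap_injective _ _).mpr hI
  have h1 : IsTranscendenceBasis F (MvPolynomial.X : Fin n → MvPolynomial (Fin n) F) :=
    IsTranscendenceBasis.mvPolynomial (Fin n) F
  exact h1.algebraMap_comp

theorem dK_X {F : Type u} [Field F] {n : ℕ} (e : Fin n → F) (i : Fin n) :
    dK e (algebraMap (MvPolynomial (Fin n) F) (FractionRing (MvPolynomial (Fin n) F))
      (MvPolynomial.X i)) = algebraMap F (FractionRing (MvPolynomial (Fin n) F)) (e i) := by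
  classical
  rw [dK_algebraMap, Finset.sum_eq_single i]
  · rw [MvPolynomial.pderiv_X_self, mul_one]
    rfl
  · intro j _ hj
    rw [MvPolynomial.pderiv_X_of_ne hj.symm, mul_zero]
  · intro h
    exact absurd (Finset.mem_univ i) h

/-- a dual linear form -/
theorem exists_xi {F : Type*} [Field F] {n c : ℕ} (e : Fin c → Fin n → F)
    (he : LinearIndependent F e) (l0 : Fin c) :
    ∃ ξ : Fin n → F, ∀ l, ∑ i, ξ i * e l i = if l = l0 then 1 else 0 := by
  classical
  have h1 : LinearMap.ker (Fintype.linearCombination F e) = ⊥ :=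
    LinearMap.ker_eq_bot.2 (linearIndependent_iff_injective_fintypeLinearCombination.1 he)
  obtain ⟨G, hG⟩ := LinearMap.exists_leftInverse_of_injective _ h1
  refine ⟨fun i => G (Pi.single i 1) l0, fun l => ?_⟩
  have h2 : G (e l) = Pi.single l 1 := by
    have h3 : G (Fintype.linearCombination F e (Pi.single l 1)) = Pi.single l 1 := by
      rw [← LinearMap.comp_apply, hG, LinearMap.id_apply]
    rw [Fintype.linearCombination_apply_single, one_smul] at h3
    exact h3
  have h4 : e l = ∑ i, e l i • (Pi.single i 1 : Fin n → F) := by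
    funext j
    simp [Finset.sum_apply, Pi.single_apply]
  have h5 : G (e l) l0 = ∑ i, G (Pi.single i 1) l0 * e l i := by
    conv_lhs => rw [h4]
    rw [map_sum, Finset.sum_apply]
    refine Finset.sum_congr rfl fun i _ => ?_
    rw [map_smul, Pi.smul_apply, smul_eq_mul, mul_comm]
  rw [← h5, h2, Pi.single_apply]
  simp only [eq_comm]

/-- the field `Q(κ)` below `E` and the descent to `Q` -/
theorem descend {F : Type u} [Field F] [CharZero F] {n c : ℕ} (E : Type u) [Field E]
    [Algebra F E] (e : Fin c → Fin n → F) (ζ : Fin n → E) (τ : E) (ξ : Fin n → F)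
    (hz : IsTranscendenceBasis F (Sum.elim (fun _ : Unit => τ) ζ))
    (D : Fin c → Derivation F E E) (D' : Derivation F E E)
    (hDζ : ∀ l i, D l (ζ i) = algebraMap F E (e l i))
    (hDκ : ∀ l, D l (∑ i, algebraMap F E (ξ i) * ζ i - τ) = 0)
    (hD'ζ : ∀ i, D' (ζ i) = 0) (hD'τ : D' τ = 1) (h : Fin c → E)
    (b g : MvPolynomial (Fin n) F)
    (hh : MvPolynomial.aeval ζ g / MvPolynomial.aeval ζ b = ∑ l, D l (h l)) :
    ∃ h' : Fin c → FractionRing (MvPolynomial (Fin n) F),
      algebraMap _ (FractionRing (MvPolynomial (Fin n) F)) g /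
        algebraMap _ (FractionRing (MvPolynomial (Fin n) F)) b =
        ∑ l, dK (e l) (h' l) := by
  classical
  let R := MvPolynomial (Fin n) F
  let Q := FractionRing R
  have hζ : AlgebraicIndependent F ζ := (AlgebraicIndependent.sumElim_iff.1 hz.1).1
  have hζi : Function.Injective (MvPolynomial.aeval ζ : R →ₐ[F] E) := hζ
  let ψ : Q →ₐ[F] E := IsFractionRing.liftAlgHom (g := (MvPolynomial.aeval ζ : R →ₐ[F] E)) hζi
  have hψ : ∀ f : R, ψ (algebraMap R Q f) = MvPolynomial.aeval ζ f := fun f =>
    IsFractionRing.lift_algebraMap (g := (MvPolynomial.aeval ζ : R →ₐ[F] E).toRingHom) hζi f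
  let algQE : Algebra Q E := ψ.toRingHom.toAlgebra
  have hQE : ∀ q : Q, algebraMap Q E q = ψ q := fun _ => rfl
  have towFQE : IsScalarTower F Q E := IsScalarTower.of_algebraMap_eq fun a => by
    rw [hQE]
    exact (ψ.commutes a).symm
  -- the derivations on `Q`
  have hDψ : ∀ l (q : Q), D l (ψ q) = ψ (dK (e l) q) := by
    intro l q
    have h1 := der_ext _ (basis_Q F n) ((D l).compAlgebraMap Q)
      ((Algebra.linearMap Q E).compDer (dK (e l))) (fun i => by
        change D l (ψ (algebraMap R Q (MvPolynomial.X i))) =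
          ψ (dK (e l) (algebraMap R Q (MvPolynomial.X i)))
        rw [hψ, MvPolynomial.aeval_X, hDζ, dK_X]
        exact (ψ.commutes _).symm)
    exact congrArg (fun G : Derivation F Q E => G q) h1
  have hD'ψ : ∀ q : Q, D' (algebraMap Q E q) = 0 := by
    intro q
    exact der_zero _ (basis_Q F n) (D'.compAlgebraMap Q) (fun i => by
        change D' (ψ (algebraMap R Q (MvPolynomial.X i))) = 0
        rw [hψ, MvPolynomial.aeval_X, hD'ζ]) q
  have : CharZero Q := charZero_of_injective_algebraMap (algebraMap F Q).injective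
  let κ : E := ∑ i, algebraMap F E (ξ i) * ζ i - τ
  have hD'κ : D' κ = -1 := by
    have h1 : ∀ i, D' (algebraMap F E (ξ i) * ζ i) = 0 := by
      intro i
      rw [← Algebra.smul_def, Derivation.map_smul, hD'ζ, smul_zero]
    change D' (∑ i, algebraMap F E (ξ i) * ζ i - τ) = -1
    rw [map_sub, map_sum, Finset.sum_congr rfl fun i _ => h1 i, Finset.sum_const_zero, hD'τ,
      zero_sub]
  have hκ : Transcendental Q κ := by
    intro hal
    have h1 := der_alg (A := Q) D' hD'ψ κ hal
    rw [hD'κ] at h1
    exact one_ne_zero (neg_eq_zero.1 h1)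
  -- the field `K`
  let K := FractionRing Q[X]
  have hinjκ : Function.Injective (Polynomial.aeval κ : Q[X] →ₐ[Q] E) := by
    rw [injective_iff_map_eq_zero]
    exact transcendental_iff.1 hκ
  let φ : K →ₐ[Q] E := IsFractionRing.liftAlgHom (g := (Polynomial.aeval κ : Q[X] →ₐ[Q] E)) hinjκ
  have hφ : ∀ f : Q[X], φ (algebraMap Q[X] K f) = Polynomial.aeval κ f := fun f =>
    IsFractionRing.lift_algebraMap (g := (Polynomial.aeval κ : Q[X] →ₐ[Q] E).toRingHom) hinjκ f
  let algKE : Algebra K E := φ.toRingHom.toAlgebra
  have hKE : ∀ q : K, algebraMap K E q = φ q := fun _ => rfl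
  have towQKE : IsScalarTower Q K E := IsScalarTower.of_algebraMap_eq fun a => by
    rw [hKE]
    exact (φ.commutes a).symm
  have towFKE : IsScalarTower F K E := IsScalarTower.of_algebraMap_eq fun a => by
    rw [IsScalarTower.algebraMap_apply F Q E, IsScalarTower.algebraMap_apply Q K E,
      IsScalarTower.algebraMap_apply F Q K]
  have hφψ : ∀ q : Q, φ (algebraMap Q K q) = ψ q := fun q => φ.commutes q
  let κK : K := algebraMap Q[X] K X
  have hκK : φ κK = κ := by rw [hφ, Polynomial.aeval_X]
  -- `E` is algebraic over `K`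
  have hmem : IntermediateField.adjoin F (Set.range (Sum.elim (fun _ : Unit => τ) ζ)) ≤
      (φ.restrictScalars F).fieldRange := by
    rw [IntermediateField.adjoin_le_iff]
    rintro _ ⟨j, rfl⟩
    rcases j with j | i
    · refine ⟨∑ i, algebraMap Q K (algebraMap F Q (ξ i)) *
        algebraMap Q K (algebraMap R Q (MvPolynomial.X i)) - κK, ?_⟩
      change φ (∑ i, algebraMap Q K (algebraMap F Q (ξ i)) *
        algebraMap Q K (algebraMap R Q (MvPolynomial.X i)) - κK) = τ
      rw [map_sub, map_sum, hκK]
      have h1 : ∀ i, φ (algebraMap Q K (algebraMap F Q (ξ i)) *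
          algebraMap Q K (algebraMap R Q (MvPolynomial.X i))) = algebraMap F E (ξ i) * ζ i := by
        intro i
        rw [map_mul, hφψ, hφψ, hψ, MvPolynomial.aeval_X, ψ.commutes]
      rw [Finset.sum_congr rfl fun i _ => h1 i]
      exact sub_sub_cancel _ _
    · refine ⟨algebraMap Q K (algebraMap R Q (MvPolynomial.X i)), ?_⟩
      change φ (algebraMap Q K (algebraMap R Q (MvPolynomial.X i))) = ζ i
      rw [hφψ, hψ, MvPolynomial.aeval_X]
  have halg : Algebra.IsAlgebraic K E := by
    have h0 : Algebra.IsAlgebraic (IntermediateField.adjoin F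
        (Set.range (Sum.elim (fun _ : Unit => τ) ζ))) E := hz.isAlgebraic_field
    have hex : ∀ a : IntermediateField.adjoin F
        (Set.range (Sum.elim (fun _ : Unit => τ) ζ)), ∃ z : K, φ z = a := fun a => hmem a.2
    choose θ0 hθ0 using hex
    have hinj : Function.Injective φ := φ.toRingHom.injective
    let θ : IntermediateField.adjoin F (Set.range (Sum.elim (fun _ : Unit => τ) ζ)) →+* K :=
      { toFun := θ0
        map_one' := hinj (by rw [hθ0, map_one]; rfl)
        map_zero' := hinj (by rw [hθ0, map_zero]; rfl)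
        map_mul' := fun a b => hinj (by rw [hθ0, map_mul, hθ0, hθ0]; rfl)
        map_add' := fun a b => hinj (by rw [hθ0, map_add, hθ0, hθ0]; rfl) }
    have hθ : ∀ a, φ (θ a) = a := hθ0
    refine ⟨fun y => ?_⟩
    obtain ⟨p, hp0, hp⟩ := h0.isAlgebraic y
    refine ⟨p.map θ, (Polynomial.map_ne_zero_iff θ.injective).2 hp0, ?_⟩
    rw [Polynomial.aeval_def, Polynomial.eval₂_map]
    have h1 : (algebraMap K E).comp θ = algebraMap (IntermediateField.adjoin F
        (Set.range (Sum.elim (fun _ : Unit => τ) ζ))) E := RingHom.ext hθ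
    rw [h1, ← Polynomial.aeval_def, hp]
  -- the derivations on `K`
  have hDκ' : ∀ l, D l κ = 0 := hDκ
  have hDp : ∀ l (p : Q[X]), ∃ a' : K, D l (φ (algebraMap Q[X] K p)) = φ a' := by
    intro l p
    induction p using Polynomial.induction_on' with
    | add p q hp hq =>
      obtain ⟨a, ha⟩ := hp
      obtain ⟨b, hb⟩ := hq
      exact ⟨a + b, by rw [map_add, map_add, map_add, ha, hb, map_add]⟩
    | monomial n a =>
      refine ⟨algebraMap Q K (dK (e l) a) * κK ^ n, ?_⟩
      rw [hφ, aeval_monomial, hQE, Derivation.leibniz, Derivation.leibniz_pow, hDκ', smul_zero,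
        smul_zero, smul_zero, zero_add, hDψ, map_mul, map_pow, hκK, hφψ, smul_eq_mul, mul_comm]
  have hDK : ∀ l (z : K), ∃ z' : K, D l (algebraMap K E z) = algebraMap K E z' := by
    intro l z
    obtain ⟨p, q, hq, rfl⟩ := IsFractionRing.div_surjective (A := Q[X]) z
    obtain ⟨p', hp'⟩ := hDp l p
    obtain ⟨q', hq'⟩ := hDp l q
    refine ⟨(algebraMap Q[X] K q)⁻¹ ^ 2 * (algebraMap Q[X] K q * p' -
      algebraMap Q[X] K p * q'), ?_⟩
    rw [hKE, map_div₀, Derivation.leibniz_div, hp', hq', hKE, map_mul, map_pow, map_inv₀,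
      map_sub, map_mul, map_mul, smul_eq_mul, smul_eq_mul, smul_eq_mul]
  choose d' hd' using fun l => exists_restrict (D l) (hDK l)
  have hd'Q : ∀ l (a : Q), d' l (algebraMap Q K a) = algebraMap Q K (dK (e l) a) := by
    intro l a
    apply (algebraMap K E).injective
    rw [← hd', hKE, hφψ, hDψ, hKE, hφψ]
  have hd'κ : ∀ l, d' l κK = 0 := by
    intro l
    apply (algebraMap K E).injective
    rw [← hd', hKE, hκK, hDκ', map_zero]
  have : CharZero K := charZero_of_injective_algebraMap (algebraMap Q K).injective
  have hy : algebraMap K E (algebraMap Q K (algebraMap R Q g / algebraMap R Q b)) =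
      ∑ l, D l (h l) := by
    rw [← hh, hKE, hφψ, map_div₀, hψ, hψ]
  obtain ⟨h1, hh1⟩ := desc_alg (F := F) d' D hd'
    (algebraMap Q K (algebraMap R Q g / algebraMap R Q b)) h hy
  have hX : ∀ p : Q[X], Polynomial.aeval κK p = algebraMap Q[X] K p := by
    intro p
    have h2 := Polynomial.aeval_algebraMap_apply (R := Q) K (X : Q[X]) p
    rw [Polynomial.aeval_X_left_apply] at h2
    exact h2
  have hκKt : Transcendental Q κK := by
    rw [transcendental_iff]
    intro p hp
    rw [hX] at hp
    exact (IsFractionRing.injective Q[X] K) (hp.trans (map_zero _).symm)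
  exact desc_transc (F := F) κK hκKt (fun z => by
    obtain ⟨p, q, hq, rfl⟩ := IsFractionRing.div_surjective (A := Q[X]) z
    exact ⟨p, q, nonZeroDivisors.ne_zero hq, by rw [hX, hX]⟩) (fun l => dK (e l)) d' hd'Q hd'κ
    (algebraMap R Q g / algebraMap R Q b) h1 hh1

/-- `g / b` is a divergence in the directions `e` when `deg b < c`. -/
theorem ex91 {F : Type u} [Field F] [CharZero F] {n c : ℕ} (e : Fin c → Fin n → F)
    (he : LinearIndependent F e) (b g : MvPolynomial (Fin n) F) (hb : b ≠ 0)
    (hbc : b.totalDegree < c) :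
    ∃ h : Fin c → FractionRing (MvPolynomial (Fin n) F),
      algebraMap _ (FractionRing (MvPolynomial (Fin n) F)) g /
        algebraMap _ (FractionRing (MvPolynomial (Fin n) F)) b =
        ∑ l, dK (e l) (h l) := by
  classical
  let Q := FractionRing (MvPolynomial (Fin n) F)
  let L := AlgebraicClosure Q
  let x : Fin n → L := algebraMap Q L ∘ (algebraMap (MvPolynomial (Fin n) F) Q ∘ MvPolynomial.X)
  have hx : IsTranscendenceBasis F x := (basis_Q F n).algebraMap_comp
  obtain ⟨v', hv', hline'⟩ := MPX64d474lc.GF.EXa14.line14 (K := L) b hbc e x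
  obtain ⟨l0, hl0⟩ : ∃ l0, v' l0 ≠ 0 := by
    by_contra hcon
    push Not at hcon
    exact hv' (funext hcon)
  obtain ⟨ξ, hξ⟩ := exists_xi e he l0
  let v : Fin c → L := fun l => (v' l0)⁻¹ * v' l
  let w : Fin n → L := fun i => ∑ l, v l * algebraMap F L (e l i)
  have hv : v l0 = 1 := inv_mul_cancel₀ hl0
  have hb0 : MvPolynomial.aeval x b ≠ 0 := fun h =>
    hb ((algebraicIndependent_iff.1 hx.1) b h)
  have hline : MvPolynomial.aeval (mov x w) b = C (MvPolynomial.aeval x b) := by
    have h1 := congrArg (fun f : L[X] => f.comp (C (v' l0)⁻¹ * X)) hline'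
    simp only [C_comp] at h1
    rw [← h1]
    have h2 : ∀ q : MvPolynomial (Fin n) F, (MvPolynomial.aeval (fun i => C (x i) +
        X * C (∑ l, v' l * algebraMap F L (e l i))) q).comp (C (v' l0)⁻¹ * X) =
        MvPolynomial.aeval (mov x w) q := by
      intro q
      induction q using MvPolynomial.induction_on with
      | C a => simp [Polynomial.algebraMap_apply]
      | add p q hp hq => simp only [map_add, add_comp, hp, hq]
      | mul_X p i hp =>
        rw [map_mul, map_mul, mul_comp, hp, MvPolynomial.aeval_X, MvPolynomial.aeval_X]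
        congr 1
        rw [add_comp, C_comp, mul_comp, X_comp, C_comp, mov]
        congr 1
        simp only [w, v]
        rw [mul_assoc, mul_left_comm, ← C_mul, Finset.mul_sum]
        congr 2
        exact Finset.sum_congr rfl fun l _ => by ring
    exact (h2 b).symm
  obtain ⟨D, D', h, h1, h2, h3, h4, h5⟩ := core x hx v l0 hv e w (fun i => rfl) ξ hξ b g hb0 hline
  have hz := basis_mov (F := F) x w hx
  have hz' : (algebraMap L[X] (FractionRing L[X]) ∘
      Sum.elim (fun _ : Unit => (X : L[X])) (mov x w)) =
      Sum.elim (fun _ : Unit => algebraMap L[X] (FractionRing L[X]) X)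
        (fun i => algebraMap L[X] (FractionRing L[X]) (mov x w i)) := by
    funext j
    rcases j with j | j <;> rfl
  rw [hz'] at hz
  have h6 : ∀ q : MvPolynomial (Fin n) F, MvPolynomial.aeval
      (fun i => algebraMap L[X] (FractionRing L[X]) (mov x w i)) q =
      algebraMap L[X] (FractionRing L[X]) (MvPolynomial.aeval (mov x w) q) := by
    intro q
    exact MvPolynomial.aeval_algebraMap_apply (FractionRing L[X]) (mov x w) q
  exact descend (FractionRing L[X]) e _ _ ξ hz D D' h1 h2 h3 h4 h b g (by rw [h6, h6, h5])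

end descent

end EX91

end Pool.Agent.Lib.MP_64d474_lc.GF
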