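import Pool.Agent.Lib.MP_64d474_lc.GF.ExchDefs66
import Pool.Agent.Lib.MP_64d474_lc.GF.X46
import Pool.Agent.Lib.MP_64d474_lc.GF.Fin66

set_option autoImplicit false

/-!
# Matrices all of whose nonzero terms map all but a few blocks to themselves
-/

namespace Pool.Agent.Lib.MP_64d474_lc.GF

open MvPolynomial Finset

universe u

variable {F : Type u} [Field F] {m N : ℕ}

/-- the labels of the blocks that are not mapped to themselves -/
def bad (β : Fin N → ℕ) (σ : Equiv.Perm (Fin N)) : Finset ℕ :=
  (univ.image β).filter fun k => ∃ j, β j = k ∧ β (σ j) ≠ k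

/-- the matrix in which the blocks with labels in `T` are merged, and the entries between
different blocks are deleted -/
noncomputable def merged (M : Matrix (Fin N) (Fin N) (MvPolynomial (Fin m) F)) (β : Fin N → ℕ)
    (T : Finset ℕ) : Matrix (Fin N) (Fin N) (MvPolynomial (Fin m) F) :=
  Matrix.of fun i j => if β i = β j ∨ (β i ∈ T ∧ β j ∈ T) then M i j else 0

theorem bad_subset_iff (β : Fin N → ℕ) (σ : Equiv.Perm (Fin N)) (T : Finset ℕ) :
    bad β σ ⊆ T ↔ ∀ j, β (σ j) = β j ∨ (β (σ j) ∈ T ∧ β j ∈ T) := by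
  classical
  constructor
  · intro h j
    by_cases e : β (σ j) = β j
    · exact Or.inl e
    right
    refine ⟨h ?_, h ?_⟩
    · rw [bad, Finset.mem_filter]
      refine ⟨Finset.mem_image_of_mem β (Finset.mem_univ _), ?_⟩
      by_contra hno
      push Not at hno
      have h1 : (univ.filter fun i => β i = β (σ j)).image σ ⊆
          univ.filter fun i => β i = β (σ j) := by
        intro i hi
        obtain ⟨i', hi', rfl⟩ := Finset.mem_image.1 hi
        exact Finset.mem_filter.2 ⟨Finset.mem_univ _, hno i' (Finset.mem_filter.1 hi').2⟩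
      have h2 := Finset.eq_of_subset_of_card_le h1
        (le_of_eq (Finset.card_image_of_injective _ σ.injective).symm)
      have h3 : σ j ∈ (univ.filter fun i => β i = β (σ j)).image σ := by
        rw [h2]; exact Finset.mem_filter.2 ⟨Finset.mem_univ _, rfl⟩
      obtain ⟨i', hi', h4⟩ := Finset.mem_image.1 h3
      rw [σ.injective h4] at hi'
      exact e (Finset.mem_filter.1 hi').2.symm
    · rw [bad, Finset.mem_filter]
      exact ⟨Finset.mem_image_of_mem β (Finset.mem_univ _), j, rfl, e⟩
  · intro h k hk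
    rw [bad, Finset.mem_filter] at hk
    obtain ⟨-, j, rfl, hj⟩ := hk
    rcases h j with h1 | h1
    · exact absurd h1 hj
    · exact h1.2

/-- the sum of the terms with the bad labels `S` -/
noncomputable def part (M : Matrix (Fin N) (Fin N) (MvPolynomial (Fin m) F)) (β : Fin N → ℕ)
    (S : Finset ℕ) : MvPolynomial (Fin m) F :=
  ∑ σ ∈ univ.filter fun σ : Equiv.Perm (Fin N) => bad β σ = S,
    Equiv.Perm.sign σ • ∏ j, M (σ j) j

theorem det_merged (M : Matrix (Fin N) (Fin N) (MvPolynomial (Fin m) F)) (β : Fin N → ℕ)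
    (T : Finset ℕ) : (merged M β T).det = ∑ S ∈ T.powerset, part M β S := by
  classical
  have h1 : (merged M β T).det = ∑ σ ∈ univ.filter fun σ : Equiv.Perm (Fin N) => bad β σ ⊆ T,
      Equiv.Perm.sign σ • ∏ j, M (σ j) j := by
    rw [Matrix.det_apply, Finset.sum_filter]
    refine Finset.sum_congr rfl fun σ _ => ?_
    by_cases h : bad β σ ⊆ T
    · rw [if_pos h]
      congr 1
      refine Finset.prod_congr rfl fun j _ => ?_
      exact if_pos ((bad_subset_iff β σ T).1 h j)
    · rw [if_neg h]
      rw [bad_subset_iff] at h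
      push Not at h
      obtain ⟨j, hj1, hj2⟩ := h
      have h2 : ∏ j, (merged M β T) (σ j) j = 0 := by
        refine Finset.prod_eq_zero (Finset.mem_univ j) (if_neg ?_)
        rintro (h3 | ⟨h3, h4⟩)
        · exact hj1 h3
        · exact hj2 h3 h4
      rw [h2, smul_zero]
  rw [h1, ← Finset.sum_fiberwise_of_maps_to (s := univ.filter fun σ : Equiv.Perm (Fin N) =>
    bad β σ ⊆ T) (t := T.powerset) (g := fun σ => bad β σ)
    (fun σ hσ => Finset.mem_powerset.2 (Finset.mem_filter.1 hσ).2)]
  refine Finset.sum_congr rfl fun S hS => ?_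
  rw [part, Finset.filter_filter]
  congr 1
  ext σ
  simp only [Finset.mem_filter, Finset.mem_univ, true_and]
  constructor
  · exact fun h => h.2
  · rintro rfl
    exact ⟨Finset.mem_powerset.1 hS, rfl⟩

/-- the determinant of the block with the label `k` -/
noncomputable def bd (M : Matrix (Fin N) (Fin N) (MvPolynomial (Fin m) F)) (β : Fin N → ℕ)
    (k : ℕ) : MvPolynomial (Fin m) F :=
  (Matrix.of fun i j : {i // β i = k} => M i j).det

/-- the determinant of the union of the blocks with labels in `T` -/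
noncomputable def ud (M : Matrix (Fin N) (Fin N) (MvPolynomial (Fin m) F)) (β : Fin N → ℕ)
    (T : Finset ℕ) : MvPolynomial (Fin m) F :=
  (Matrix.of fun i j : {i // β i ∈ T} => M i j).det

theorem det_merged_eq (M : Matrix (Fin N) (Fin N) (MvPolynomial (Fin m) F)) (β : Fin N → ℕ)
    (T : Finset ℕ) :
    (merged M β T).det = (∏ k ∈ (univ.image β) \ T, bd M β k) * ud M β T := by
  classical
  let b : Fin N → ℕ := fun i => if β i ∈ T then 0 else β i + 1
  have hb0 : ∀ i, b i = 0 ↔ β i ∈ T := by
    intro i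
    by_cases h : β i ∈ T <;> simp [b, h]
  have hbk : ∀ k, k ∉ T → ∀ i, b i = k + 1 ↔ β i = k := by
    intro k hk i
    by_cases h : β i ∈ T
    · simp only [b, if_pos h]
      constructor
      · intro h1; omega
      · intro h1; rw [h1] at h; exact absurd h hk
    · simp only [b, if_neg h]
      omega
  have htri : Matrix.BlockTriangular (merged M β T) b := by
    intro i j hij
    refine if_neg ?_
    rintro (h | ⟨h, h'⟩)
    · have : b i = b j := by simp only [b, h]
      omega
    · have h1 := (hb0 i).2 h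
      have h2 := (hb0 j).2 h'
      omega
  rw [htri.det]
  have hsub : univ.image b ⊆ insert 0 (((univ.image β) \ T).image (· + 1)) := by
    intro a ha
    obtain ⟨i, -, rfl⟩ := Finset.mem_image.1 ha
    by_cases h : β i ∈ T
    · rw [(hb0 i).2 h]; exact Finset.mem_insert_self _ _
    · refine Finset.mem_insert_of_mem (Finset.mem_image.2 ⟨β i, ?_, ?_⟩)
      · exact Finset.mem_sdiff.2 ⟨Finset.mem_image_of_mem β (Finset.mem_univ i), h⟩
      · exact ((hbk (β i) h i).2 rfl).symm
  rw [Finset.prod_subset hsub]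
  · rw [Finset.prod_insert, Finset.prod_image, mul_comm]
    · congr 1
      · refine Finset.prod_congr rfl fun k hk => ?_
        have hkT : k ∉ T := (Finset.mem_sdiff.1 hk).2
        let e : {i // b i = k + 1} ≃ {i // β i = k} :=
          Equiv.subtypeEquivRight fun i => hbk k hkT i
        have h1 : (merged M β T).toSquareBlock b (k + 1) =
            (Matrix.of fun i j : {i // β i = k} => M i j).submatrix e e := by
          ext1 i j
          have hi := (hbk k hkT i).1 i.2
          have hj := (hbk k hkT j).1 j.2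
          exact if_pos (Or.inl (hi.trans hj.symm))
        rw [h1, Matrix.det_submatrix_equiv_self]
        rfl
      · let e : {i // b i = 0} ≃ {i // β i ∈ T} := Equiv.subtypeEquivRight fun i => hb0 i
        have h1 : (merged M β T).toSquareBlock b 0 =
            (Matrix.of fun i j : {i // β i ∈ T} => M i j).submatrix e e := by
          ext1 i j
          exact if_pos (Or.inr ⟨(hb0 i).1 i.2, (hb0 j).1 j.2⟩)
        rw [h1, Matrix.det_submatrix_equiv_self]
        rfl
    · intro x _ y _ h
      exact Nat.succ_injective h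
    · intro h
      obtain ⟨k, -, hk⟩ := Finset.mem_image.1 h
      exact absurd hk (Nat.succ_ne_zero k)
  · intro a _ ha
    have : IsEmpty {i // b i = a} :=
      ⟨fun i => ha (Finset.mem_image.2 ⟨i, Finset.mem_univ _, i.2⟩)⟩
    exact Matrix.det_isEmpty

/-- the number of indices with labels in `S` -/
def wt (β : Fin N → ℕ) (S : Finset ℕ) : ℕ := ∑ k ∈ S, (univ.filter fun i => β i = k).card

theorem card_mem (β : Fin N → ℕ) (S : Finset ℕ) :
    Fintype.card {i // β i ∈ S} = wt β S := by
  classical
  rw [Fintype.card_subtype, wt, Finset.card_eq_sum_card_fiberwise (f := β) (t := S)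
    (fun i hi => by simpa using hi)]
  refine Finset.sum_congr rfl fun k hk => ?_
  congr 1
  ext i
  simp only [Finset.mem_filter, Finset.mem_univ, true_and]
  constructor
  · exact fun h => h.2
  · rintro rfl; exact ⟨hk, rfl⟩

theorem deg_bd {M : Matrix (Fin N) (Fin N) (MvPolynomial (Fin m) F)} (β : Fin N → ℕ) {d : ℕ}
    (hd : ∀ i j, (M i j).totalDegree ≤ d) (k : ℕ) :
    (bd M β k).totalDegree ≤ (univ.filter fun i => β i = k).card * d := by
  refine (totalDegree_det_le_sum (Matrix.of fun i j : {i // β i = k} => M i j) (fun _ => d)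
    fun i j => hd i j).trans ?_
  rw [Finset.sum_const, Finset.card_univ, Fintype.card_subtype, smul_eq_mul]

theorem deg_ud {M : Matrix (Fin N) (Fin N) (MvPolynomial (Fin m) F)} (β : Fin N → ℕ) {d : ℕ}
    (hd : ∀ i j, (M i j).totalDegree ≤ d) (S : Finset ℕ) :
    (ud M β S).totalDegree ≤ wt β S * d := by
  refine (totalDegree_det_le_sum (Matrix.of fun i j : {i // β i ∈ S} => M i j) (fun _ => d)
    fun i j => hd i j).trans ?_
  rw [Finset.sum_const, Finset.card_univ, card_mem, smul_eq_mul]

theorem deg_prod_bd {M : Matrix (Fin N) (Fin N) (MvPolynomial (Fin m) F)} (β : Fin N → ℕ) {d : ℕ}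
    (hd : ∀ i j, (M i j).totalDegree ≤ d) (S : Finset ℕ) :
    (∏ k ∈ S, bd M β k).totalDegree ≤ wt β S * d := by
  refine (totalDegree_finsetProd _ _).trans ?_
  rw [wt, Finset.sum_mul]
  exact Finset.sum_le_sum fun k _ => deg_bd β hd k

/-- `y = c D` with `deg D ≤ n` -/
def Mul (c : MvPolynomial (Fin m) F) (n : ℕ) (y : MvPolynomial (Fin m) F) : Prop :=
  ∃ D : MvPolynomial (Fin m) F, D.totalDegree ≤ n ∧ y = c * D

theorem Mul.sub {c : MvPolynomial (Fin m) F} {n : ℕ} {y z : MvPolynomial (Fin m) F}
    (hy : Mul c n y) (hz : Mul c n z) : Mul c n (y - z) := by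
  obtain ⟨D, hD, rfl⟩ := hy
  obtain ⟨E, hE, rfl⟩ := hz
  exact ⟨D - E, (totalDegree_sub _ _).trans (max_le hD hE), by rw [mul_sub]⟩

theorem Mul.sum {c : MvPolynomial (Fin m) F} {n : ℕ} {ι : Type*} (s : Finset ι)
    (y : ι → MvPolynomial (Fin m) F) (hy : ∀ i ∈ s, Mul c n (y i)) : Mul c n (∑ i ∈ s, y i) := by
  classical
  induction s using Finset.induction_on with
  | empty => exact ⟨0, by simp, by simp⟩
  | insert a s ha ih =>
    rw [Finset.sum_insert ha]
    obtain ⟨D, hD, h1⟩ := hy a (Finset.mem_insert_self a s)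
    obtain ⟨E, hE, h2⟩ := ih fun i hi => hy i (Finset.mem_insert_of_mem hi)
    exact ⟨D + E, (totalDegree_add _ _).trans (max_le hD hE), by rw [h1, h2, mul_add]⟩

/-- the sum of the terms with the bad labels `S` is divisible by the other blocks -/
theorem part_mul {M : Matrix (Fin N) (Fin N) (MvPolynomial (Fin m) F)} (β : Fin N → ℕ) {d : ℕ}
    (hd : ∀ i j, (M i j).totalDegree ≤ d) (S : Finset ℕ) (hS : S ⊆ univ.image β) :
    Mul (∏ k ∈ (univ.image β) \ S, bd M β k) (wt β S * d) (part M β S) := by
  classical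
  induction S using Finset.strongInduction with
  | H S ih =>
    have h1 : part M β S = (merged M β S).det - ∑ S' ∈ S.ssubsets, part M β S' := by
      rw [det_merged, ← Finset.add_sum_erase _ _ (Finset.mem_powerset_self S)]
      exact (add_sub_cancel_right _ _).symm
    rw [h1]
    refine Mul.sub ⟨ud M β S, deg_ud β hd S, det_merged_eq M β S⟩ (Mul.sum _ _ ?_)
    intro S' hS'
    have hlt := Finset.mem_ssubsets.1 hS'
    obtain ⟨D, hD, h2⟩ := ih S' hlt (hlt.subset.trans hS)
    refine ⟨(∏ k ∈ S \ S', bd M β k) * D, ?_, ?_⟩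
    · refine (totalDegree_mul _ _).trans ((Nat.add_le_add (deg_prod_bd β hd _) hD).trans ?_)
      rw [← Nat.add_mul, wt, wt, wt, Finset.sum_sdiff hlt.subset]
    · rw [h2, ← mul_assoc, ← Finset.prod_union]
      · congr 2
        ext k
        simp only [Finset.mem_sdiff, Finset.mem_union]
        constructor
        · rintro ⟨h3, h4⟩
          by_cases h5 : k ∈ S
          · exact Or.inr ⟨h5, h4⟩
          · exact Or.inl ⟨h3, h5⟩
        · rintro (⟨h3, h4⟩ | ⟨h3, h4⟩)
          · exact ⟨h3, fun h5 => h4 (hlt.subset h5)⟩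
          · exact ⟨hS h3, h4⟩
      · rw [Finset.disjoint_left]
        intro k h3 h4
        exact (Finset.mem_sdiff.1 h3).2 (Finset.mem_sdiff.1 h4).1

/-- the determinant of a matrix all of whose nonzero terms map all but `K` blocks to themselves
is mixed -/
theorem mixed_of_exch {q K d : ℕ} {A : Matrix (Fin N) (Fin N) (MvPolynomial (Fin m) F)}
    (h : Exch q K A) (hd : ∀ i j, (A i j).totalDegree ≤ d) :
    Mixed (q * d) (K * q * d) A.det := by
  classical
  obtain ⟨π, β, hq, hK⟩ := h
  set M : Matrix (Fin N) (Fin N) (MvPolynomial (Fin m) F) := A.submatrix id π with hM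
  have hMd : ∀ i j, (M i j).totalDegree ≤ d := fun i j => hd _ _
  have hwt : ∀ S : Finset ℕ, S.card ≤ K → wt β S * d ≤ K * q * d := by
    intro S hS
    refine Nat.mul_le_mul_right d ((Finset.sum_le_sum fun k _ => hq k).trans ?_)
    rw [Finset.sum_const, smul_eq_mul]
    exact Nat.mul_le_mul_right q hS
  let Z : Finset ℕ := (univ.image β).filter fun k => bd M β k = 0
  have hsum : M.det = ∑ S ∈ (univ.image β).powerset, part M β S := by
    rw [← det_merged]
    congr 1
    ext1 i j
    exact (if_pos (Or.inr ⟨Finset.mem_image_of_mem β (Finset.mem_univ i),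
      Finset.mem_image_of_mem β (Finset.mem_univ j)⟩)).symm
  have hpart : ∀ S ∈ (univ.image β).powerset, ∃ φ ∈ AA F m (K * q * d),
      algebraMap _ (FractionRing (MvPolynomial (Fin m) F)) (part M β S) =
        algebraMap _ (FractionRing (MvPolynomial (Fin m) F))
          (∏ k ∈ (univ.image β) \ Z, bd M β k) * φ := by
    intro S hS
    have hSΛ := Finset.mem_powerset.1 hS
    by_cases hcard : S.card ≤ K
    · obtain ⟨D, hD, h1⟩ := part_mul β hMd S hSΛ
      by_cases hZ : Z ⊆ S
      · have h2 : ∏ k ∈ (univ.image β) \ Z, bd M β k =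
            (∏ k ∈ (univ.image β) \ S, bd M β k) * ∏ k ∈ S \ Z, bd M β k := by
          rw [← Finset.prod_union]
          · congr 1
            ext k
            simp only [Finset.mem_sdiff, Finset.mem_union]
            constructor
            · rintro ⟨h3, h4⟩
              by_cases h5 : k ∈ S
              · exact Or.inr ⟨h5, h4⟩
              · exact Or.inl ⟨h3, h5⟩
            · rintro (⟨h3, h4⟩ | ⟨h3, h4⟩)
              · exact ⟨h3, fun h5 => h4 (hZ h5)⟩
              · exact ⟨hSΛ h3, h4⟩
          · rw [Finset.disjoint_left]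
            intro k h3 h4
            exact (Finset.mem_sdiff.1 h3).2 (Finset.mem_sdiff.1 h4).1
        have h0 : ∏ k ∈ S \ Z, bd M β k ≠ 0 := by
          rw [Finset.prod_ne_zero_iff]
          intro k hk hk0
          exact (Finset.mem_sdiff.1 hk).2
            (Finset.mem_filter.2 ⟨hSΛ (Finset.mem_sdiff.1 hk).1, hk0⟩)
        refine ⟨algebraMap _ (FractionRing (MvPolynomial (Fin m) F)) D /
          algebraMap _ (FractionRing (MvPolynomial (Fin m) F)) (∏ k ∈ S \ Z, bd M β k),
          frac_mem (hD.trans (hwt S hcard)) ((deg_prod_bd β hMd _).trans ?_) h0, ?_⟩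
        · refine (Nat.mul_le_mul_right d ?_).trans (hwt S hcard)
          exact Finset.sum_le_sum_of_subset Finset.sdiff_subset
        · have h0' : algebraMap _ (FractionRing (MvPolynomial (Fin m) F))
              (∏ k ∈ S \ Z, bd M β k) ≠ 0 := by
            rw [Ne, map_eq_zero_iff _ (IsFractionRing.injective _ _)]
            exact h0
          rw [h2, h1, map_mul, map_mul, mul_assoc, mul_div_cancel₀ _ h0']
      · rw [Finset.not_subset] at hZ
        obtain ⟨k, hk, hkS⟩ := hZ
        have h2 : part M β S = 0 := by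
          rw [h1, Finset.prod_eq_zero (i := k) (Finset.mem_sdiff.2 ⟨(Finset.mem_filter.1 hk).1, hkS⟩)
            (Finset.mem_filter.1 hk).2, zero_mul]
        exact ⟨0, Submodule.zero_mem _, by rw [h2, map_zero, mul_zero]⟩
    · have h2 : part M β S = 0 := by
        refine Finset.sum_eq_zero fun σ hσ => ?_
        have h3 : bad β σ = S := (Finset.mem_filter.1 hσ).2
        have h4 : ¬ ∀ j, A (σ j) (π j) ≠ 0 := fun h5 => hcard (h3 ▸ hK σ h5)
        push Not at h4
        obtain ⟨j, hj⟩ := h4
        have h6 : ∏ j, M (σ j) j = 0 := Finset.prod_eq_zero (Finset.mem_univ j) hj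
        rw [h6, smul_zero]
      exact ⟨0, Submodule.zero_mem _, by rw [h2, map_zero, mul_zero]⟩
  have hT : ∀ g ∈ ((univ.image β) \ Z).val.map (bd M β), g ≠ 0 ∧ g.totalDegree ≤ q * d := by
    intro g hg
    obtain ⟨k, hk, rfl⟩ := Multiset.mem_map.1 hg
    rw [Finset.mem_val] at hk
    have hk' := Finset.mem_sdiff.1 hk
    exact ⟨fun h0 => hk'.2 (Finset.mem_filter.2 ⟨hk'.1, h0⟩),
      (deg_bd β hMd k).trans (Nat.mul_le_mul_right d (hq k))⟩
  have hMdet : ∃ φ ∈ AA F m (K * q * d), algebraMap _ (FractionRing (MvPolynomial (Fin m) F)) M.det =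
      algebraMap _ (FractionRing (MvPolynomial (Fin m) F))
        (((univ.image β) \ Z).val.map (bd M β)).prod * φ := by
    choose! φ hφ h1 using hpart
    refine ⟨∑ S ∈ (univ.image β).powerset, φ S, Submodule.sum_mem _ fun S hS => hφ S hS, ?_⟩
    rw [hsum, map_sum, Finset.mul_sum]
    exact Finset.sum_congr rfl fun S hS => h1 S hS
  have hdet : M.det = (Equiv.Perm.sign π : MvPolynomial (Fin m) F) * A.det :=
    Matrix.det_permute' π A
  obtain ⟨φ, hφ, h1⟩ := hMdet
  rcases Int.units_eq_one_or (Equiv.Perm.sign π) with h2 | h2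
  · refine ⟨_, hT, φ, hφ, ?_⟩
    rw [← h1, hdet, h2]
    simp
  · refine ⟨_, hT, -φ, Submodule.neg_mem _ hφ, ?_⟩
    rw [mul_neg, ← h1, hdet, h2]
    simp

end Pool.Agent.Lib.MP_64d474_lc.GF
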