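import Pool.Agent.Lib.MP_64d474_lc.GF.Defs66

set_option autoImplicit false

/-!
# Matrices all of whose nonzero terms map all but a few blocks to themselves
-/

namespace Pool.Agent.Lib.MP_64d474_lc.GF

open MvPolynomial Finset

universe u

variable {F : Type u} [Field F] {m : ℕ}

/-- for a permutation `π` of the columns and a division of the indices into blocks (indices with
the same label) with at most `q` indices, every nonzero term `∏ A (σ j) (π j)` of the determinant
maps all but at most `K` blocks to themselves -/
def Exch {N : ℕ} (q K : ℕ) (A : Matrix (Fin N) (Fin N) (MvPolynomial (Fin m) F)) : Prop :=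
  ∃ (π : Equiv.Perm (Fin N)) (β : Fin N → ℕ),
    (∀ k, (univ.filter fun i => β i = k).card ≤ q) ∧
    ∀ σ : Equiv.Perm (Fin N), (∀ j, A (σ j) (π j) ≠ 0) →
      ((univ.image β).filter fun k => ∃ j, β j = k ∧ β (σ j) ≠ k).card ≤ K

end Pool.Agent.Lib.MP_64d474_lc.GF
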