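import Pool.Agent.Lib.MP_64d474_lc.GF.X46

set_option autoImplicit false

/-!
# Bordered matrices with small blocks and bounded depth: the regular case
-/

namespace Pool.Agent.Lib.MP_64d474_lc.GF

open MvPolynomial Finset

universe u

variable {F : Type u} [Field F] {m : ℕ}

/-- a strictly layered matrix plus the identity has determinant one -/
theorem det_one_add_layered {R ι : Type*} [CommRing R] [Fintype ι] [DecidableEq ι] (lv : ι → ℕ)
    (M : Matrix ι ι R) (hM : ∀ x y, M x y ≠ 0 → lv x < lv y) : (1 + M).det = 1 := by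
  have h1 : (1 + M).BlockTriangular lv := by
    intro i j hij
    have h2 : M i j = 0 := by
      by_contra h
      exact absurd (hM i j h) (not_lt.2 hij.le)
    have h3 : i ≠ j := by
      rintro rfl
      exact lt_irrefl _ hij
    rw [Matrix.add_apply, h2, Matrix.one_apply_ne h3, add_zero]
  rw [h1.det]
  refine Finset.prod_eq_one fun a _ => ?_
  have h4 : (1 + M).toSquareBlock lv a = 1 := by
    ext ⟨i, hi⟩ ⟨j, hj⟩
    have h5 : M i j = 0 := by
      by_contra h
      have h6 := hM i j h
      rw [hi, hj] at h6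
      exact lt_irrefl _ h6
    rw [Matrix.toSquareBlock_def, Matrix.of_apply, Matrix.add_apply, h5, add_zero]
    simp [Matrix.one_apply]
  rw [h4, Matrix.det_one]

theorem pow_layered {R ι : Type*} [CommRing R] [Fintype ι] [DecidableEq ι] (lv : ι → ℕ)
    (M : Matrix ι ι R) (hM : ∀ x y, M x y ≠ 0 → lv x < lv y) (l : ℕ) :
    ∀ x y, (M ^ l) x y ≠ 0 → lv x + l ≤ lv y := by
  induction l with
  | zero =>
    intro x y h
    rw [pow_zero] at h
    have : x = y := by
      by_contra hxy
      exact h (Matrix.one_apply_ne hxy)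
    rw [this, add_zero]
  | succ l ih =>
    intro x y h
    rw [pow_succ, Matrix.mul_apply] at h
    obtain ⟨p, -, hp⟩ := Finset.exists_ne_zero_of_sum_ne_zero h
    have h1 := ih x p (left_ne_zero_of_mul hp)
    have h2 := hM p y (right_ne_zero_of_mul hp)
    omega

theorem AA.mul_matrix {ι κ τ : Type*} [Fintype κ] {s t : ℕ}
    (M : Matrix ι κ (FractionRing (MvPolynomial (Fin m) F)))
    (N : Matrix κ τ (FractionRing (MvPolynomial (Fin m) F)))
    (hM : ∀ x y, M x y ∈ AA F m s) (hN : ∀ x y, N x y ∈ AA F m t) (x : ι) (y : τ) :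
    (M * N) x y ∈ AA F m (s + t) := by
  rw [Matrix.mul_apply]
  exact Submodule.sum_mem _ fun p _ => AA.mul (hM x p) (hN p y)

theorem AA.pow_matrix {ι : Type*} [Fintype ι] [DecidableEq ι] {t : ℕ}
    (M : Matrix ι ι (FractionRing (MvPolynomial (Fin m) F))) (hM : ∀ x y, M x y ∈ AA F m t)
    (l : ℕ) : ∀ x y, (M ^ l) x y ∈ AA F m (l * t) := by
  induction l with
  | zero =>
    intro x y
    rw [pow_zero, Matrix.one_apply]
    split_ifs
    · exact AA.one
    · exact Submodule.zero_mem _
  | succ l ih =>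
    intro x y
    rw [pow_succ, Nat.succ_mul]
    exact AA.mul_matrix _ _ ih hM x y

theorem mixed_layered_bordered {c q d L : ℕ} (A : FV.Bordered F m c) (hA : Small q d A)
    (lv : Fin A.p → ℕ) (hlv : ∀ k, lv k < L)
    (Nm : Matrix ((i : Fin A.p) × Fin (A.sz i)) ((i : Fin A.p) × Fin (A.sz i))
      (MvPolynomial (Fin m) F))
    (hN : ∀ x y, Nm x y ≠ 0 → lv x.1 < lv y.1) (hNd : ∀ x y, (Nm x y).totalDegree ≤ d) :
    Mixed (q * d) (c * ((L + 2) * ((q + 1) * d)))
      (Matrix.fromBlocks (Matrix.blockDiagonal' A.B + Nm) A.U A.V A.W).det := by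
  classical
  obtain ⟨hB, hent⟩ := hA
  let Q := FractionRing (MvPolynomial (Fin m) F)
  let ι : MvPolynomial (Fin m) F →+* Q := algebraMap _ Q
  have hι : Function.Injective ι := IsFractionRing.injective _ _
  have hBent : ∀ i x y, (A.B i x y).totalDegree ≤ d := by
    intro i x y
    have h := hent (Sum.inl ⟨i, x⟩) (Sum.inl ⟨i, y⟩)
    rw [FV.Bordered.mat, Matrix.fromBlocks_apply₁₁, Matrix.blockDiagonal'_apply_eq] at h
    exact h
  have hUent : ∀ p j, (A.U p j).totalDegree ≤ d := by
    intro p j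
    have h := hent (Sum.inl p) (Sum.inr j)
    rwa [FV.Bordered.mat, Matrix.fromBlocks_apply₁₂] at h
  have hVent : ∀ j p, (A.V j p).totalDegree ≤ d := by
    intro j p
    have h := hent (Sum.inr j) (Sum.inl p)
    rwa [FV.Bordered.mat, Matrix.fromBlocks_apply₂₁] at h
  have hWent : ∀ j l, (A.W j l).totalDegree ≤ d := by
    intro j l
    have h := hent (Sum.inr j) (Sum.inr l)
    rwa [FV.Bordered.mat, Matrix.fromBlocks_apply₂₂] at h
  -- the inverse of the blocks over the fraction field
  let Bi : ∀ i, Matrix (Fin (A.sz i)) (Fin (A.sz i)) Q :=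
    fun i => (ι (A.B i).det)⁻¹ • (A.B i).adjugate.map ι
  have hBi : ∀ i, (A.B i).map ι * Bi i = 1 := by
    intro i
    show (A.B i).map ι * ((ι (A.B i).det)⁻¹ • (A.B i).adjugate.map ι) = 1
    rw [Matrix.mul_smul, ← Matrix.map_mul, Matrix.mul_adjugate]
    have h0 : ι (A.B i).det ≠ 0 := (map_ne_zero_iff ι hι).2 (hB i).1
    ext x y
    rw [Matrix.smul_apply, Matrix.map_apply, Matrix.smul_apply, smul_eq_mul, smul_eq_mul, map_mul,
      ← mul_assoc, inv_mul_cancel₀ h0, one_mul, Matrix.one_apply, Matrix.one_apply]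
    split_ifs
    · exact map_one ι
    · exact map_zero ι
  set Dm : Matrix ((i : Fin A.p) × Fin (A.sz i)) ((i : Fin A.p) × Fin (A.sz i)) Q :=
    Matrix.blockDiagonal' (fun i => (A.B i).map ι) with hDm
  set Di : Matrix ((i : Fin A.p) × Fin (A.sz i)) ((i : Fin A.p) × Fin (A.sz i)) Q :=
    Matrix.blockDiagonal' Bi with hDi
  have h1 : Dm * Di = 1 := by
    rw [hDm, hDi, ← Matrix.blockDiagonal'_mul]
    have : (fun k => (A.B k).map ι * Bi k) = 1 := by
      funext k; exact hBi k
    rw [this, Matrix.blockDiagonal'_one]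
  set Ni := Nm.map ι with hNi
  set M := Di * Ni with hM
  have hMl : ∀ x y, M x y ≠ 0 → lv x.1 < lv y.1 := by
    intro x y h
    rw [hM, Matrix.mul_apply] at h
    obtain ⟨p, -, hp⟩ := Finset.exists_ne_zero_of_sum_ne_zero h
    have h2 := left_ne_zero_of_mul hp
    have h3 := right_ne_zero_of_mul hp
    have h4 : x.1 = p.1 := by
      by_contra h5
      obtain ⟨i, x⟩ := x
      obtain ⟨j, p⟩ := p
      exact h2 (by rw [hDi]; exact Matrix.blockDiagonal'_apply_ne _ _ _ h5)
    rw [h4]
    refine hN p y fun h5 => h3 ?_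
    rw [hNi, Matrix.map_apply, h5, map_zero]
  have hnil : M ^ L = 0 := by
    ext x y
    by_contra h
    have h2 : lv x.1 + L ≤ lv y.1 := pow_layered (fun x => lv x.1) M hMl L x y h
    have h3 := hlv y.1
    omega
  set S := ∑ l ∈ Finset.range L, (-M) ^ l with hS
  have hS1 : (1 + M) * S = 1 := by
    have h2 := mul_neg_geom_sum (-M) L
    rw [neg_pow, hnil, mul_zero, sub_zero, sub_neg_eq_add] at h2
    exact h2
  have h2 : Dm + Ni = Dm * (1 + M) := by
    rw [mul_add, mul_one, hM, ← mul_assoc, h1, one_mul]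
  have h3 : (Dm + Ni) * (S * Di) = 1 := by
    rw [h2, mul_assoc, ← mul_assoc (1 + M), hS1, one_mul, h1]
  let _inst : Invertible (Dm + Ni) := ⟨S * Di, mul_eq_one_comm.1 h3, h3⟩
  have h4 : ⅟(Dm + Ni) = S * Di := invOf_eq_right_inv h3
  have hmat : (Matrix.fromBlocks (Matrix.blockDiagonal' A.B + Nm) A.U A.V A.W).map ι =
      Matrix.fromBlocks (Dm + Ni) (A.U.map ι) (A.V.map ι) (A.W.map ι) := by
    rw [Matrix.fromBlocks_map, Matrix.map_add ι (map_add ι), Matrix.blockDiagonal'_map _ _
      (map_zero ι)]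
  -- the entries of the inverse
  have hDiA : ∀ x y, Di x y ∈ AA F m (q * d) := by
    rintro ⟨i, x⟩ ⟨j, y⟩
    by_cases hij : i = j
    · subst hij
      rw [hDi, Matrix.blockDiagonal'_apply_eq]
      have h5 : Bi i x y = ι ((A.B i).adjugate x y) / ι (A.B i).det := by
        show (ι (A.B i).det)⁻¹ * ι ((A.B i).adjugate x y) = _
        rw [div_eq_mul_inv]
        exact mul_comm _ _
      rw [h5]
      refine AA.frac ?_ ?_ (hB i).1
      · refine (totalDegree_adjugate_le (A.B i) d (hBent i) x y).trans ?_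
        rw [Fintype.card_fin]
        exact Nat.mul_le_mul_right _ ((Nat.sub_le _ _).trans (hB i).2)
      · refine (totalDegree_det_le_sum _ (fun _ => d) (hBent i)).trans ?_
        rw [Finset.sum_const, Finset.card_univ, Fintype.card_fin, smul_eq_mul]
        exact Nat.mul_le_mul_right _ (hB i).2
    · rw [hDi, Matrix.blockDiagonal'_apply_ne _ _ _ hij]
      exact Submodule.zero_mem _
  have hMA : ∀ x y, M x y ∈ AA F m ((q + 1) * d) := by
    intro x y
    rw [Nat.succ_mul]
    exact AA.mul_matrix _ _ hDiA (fun x y => by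
      rw [hNi, Matrix.map_apply]
      exact AA.poly (hNd x y)) x y
  have hSA : ∀ x y, S x y ∈ AA F m (L * ((q + 1) * d)) := by
    intro x y
    rw [hS, Matrix.sum_apply]
    refine Submodule.sum_mem _ fun l hl => ?_
    refine AA.mono (Nat.mul_le_mul_right _ (Finset.mem_range.1 hl).le) (AA.pow_matrix _ ?_ l x y)
    intro x y
    rw [Matrix.neg_apply]
    exact Submodule.neg_mem _ (hMA x y)
  have hSDA := AA.mul_matrix S Di hSA hDiA
  let T : Multiset (MvPolynomial (Fin m) F) := (Finset.univ : Finset (Fin A.p)).val.map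
    fun i => (A.B i).det
  refine ⟨T, ?_, (A.W.map ι - A.V.map ι * (S * Di) * A.U.map ι).det, ?_, ?_⟩
  · intro g hg
    obtain ⟨i, -, rfl⟩ := Multiset.mem_map.1 hg
    refine ⟨(hB i).1, (totalDegree_det_le_sum _ (fun _ => d) (hBent i)).trans ?_⟩
    rw [Finset.sum_const, Finset.card_univ, Fintype.card_fin, smul_eq_mul]
    exact Nat.mul_le_mul_right _ (hB i).2
  · have h5 := AA.det (F := F) (m := m) (t := (L + 2) * ((q + 1) * d))
      (A.W.map ι - A.V.map ι * (S * Di) * A.U.map ι) fun a b => ?_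
    · rwa [Fintype.card_fin] at h5
    · rw [Matrix.sub_apply]
      refine Submodule.sub_mem _ ?_ ?_
      · rw [Matrix.map_apply]
        refine AA.poly ((hWent a b).trans ?_)
        exact (Nat.le_mul_of_pos_left _ (Nat.succ_pos q)).trans
          (Nat.le_mul_of_pos_left _ (by omega))
      · have h6 := AA.mul_matrix (F := F) (m := m) (A.V.map ι * (S * Di)) (A.U.map ι) (t := d)
          (fun x y => AA.mul_matrix (F := F) (m := m) (A.V.map ι) (S * Di) (s := d)
            (fun x y => by rw [Matrix.map_apply]; exact AA.poly (hVent x y)) hSDA x y)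
          (fun x y => by rw [Matrix.map_apply]; exact AA.poly (hUent x y)) a b
        refine AA.mono ?_ h6
        calc d + (L * ((q + 1) * d) + q * d) + d = L * ((q + 1) * d) + (q + 2) * d := by ring
          _ ≤ L * ((q + 1) * d) + 2 * ((q + 1) * d) := by
              refine Nat.add_le_add_left ?_ _
              rw [← mul_assoc]
              exact Nat.mul_le_mul_right _ (by omega)
          _ = (L + 2) * ((q + 1) * d) := by ring
  · have h5 : algebraMap _ (FractionRing (MvPolynomial (Fin m) F))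
        (Matrix.fromBlocks (Matrix.blockDiagonal' A.B + Nm) A.U A.V A.W).det =
        ((Matrix.fromBlocks (Matrix.blockDiagonal' A.B + Nm) A.U A.V A.W).map ι).det := by
      rw [← RingHom.mapMatrix_apply, ← RingHom.map_det]
    rw [h5, hmat, Matrix.det_fromBlocks₁₁, h4, h2, Matrix.det_mul,
      det_one_add_layered (fun x => lv x.1) M hMl, mul_one, hDm, MP64FV46.det_blockDiag']
    congr 1
    have h6 : T.prod = ∏ i, (A.B i).det := rfl
    rw [h6, map_prod]
    refine Finset.prod_congr rfl fun i _ => ?_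
    rw [← RingHom.mapMatrix_apply, ← RingHom.map_det]

end Pool.Agent.Lib.MP_64d474_lc.GF
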