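import Pool.Agent.Lib.MP_64d474_lc.GF.LayB46
import Pool.Agent.Lib.MP_64d474_lc.GF.ExchDefs66

set_option autoImplicit false

/-!
# Layered matrices have few exchanging blocks
-/

namespace Pool.Agent.Lib.MP_64d474_lc.GF

open MvPolynomial Finset

universe u

variable {F : Type u} [Field F] {m : ℕ}

/-- the label of the index `i` -/
def layLab (o : Option ℕ) (i : ℕ) : ℕ := o.elim (2 * i + 1) fun k => 2 * k

theorem layLab_even {o : Option ℕ} {i k : ℕ} : layLab o i = 2 * k ↔ o = some k := by
  cases o with
  | none => simp only [layLab, Option.elim_none, reduceCtorEq, iff_false]; omega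
  | some a => simp only [layLab, Option.elim_some, Option.some.injEq]; omega

theorem layLab_odd {o : Option ℕ} {i k : ℕ} : layLab o i = 2 * k + 1 ↔ o = none ∧ i = k := by
  cases o with
  | none => simp only [layLab, Option.elim_none, true_and]; omega
  | some a => simp only [layLab, Option.elim_some, reduceCtorEq, false_and, iff_false]; omega

theorem layExch {N c q L : ℕ} {A : Matrix (Fin N) (Fin N) (MvPolynomial (Fin m) F)} (hq : 1 ≤ q)
    (h : Layered c q L A) : Exch q (c * (L + 1)) A := by
  classical
  obtain ⟨s, b, lev, hc, hk, hL, hA⟩ := h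
  refine ⟨s, fun i => layLab (b i) i, fun k => ?_, fun σ hσ => ?_⟩
  · rcases Nat.even_or_odd' k with ⟨a, rfl | rfl⟩
    · refine le_trans (card_le_card fun i hi => ?_) (hk a)
      rw [mem_filter] at hi ⊢
      exact ⟨hi.1, layLab_even.1 hi.2⟩
    · refine le_trans (card_le_one.2 fun i hi j hj => ?_) hq
      rw [mem_filter] at hi hj
      exact Fin.ext ((layLab_odd.1 hi.2).2.trans (layLab_odd.1 hj.2).2.symm)
  · set Z : Finset (Fin N) := univ.filter fun i => b i = none with hZ
    set J : ℕ → Finset (Fin N) := fun l => univ.filter fun j =>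
      (∃ k, b j = some k ∧ lev k = l) ∧ layLab (b (σ j)) (σ j) ≠ layLab (b j) j with hJ
    have hJc : ∀ l, (J l).card ≤ c := by
      intro l
      set H : Finset (Fin N) := univ.filter fun j => ∃ k, b j = some k ∧ l ≤ lev k with hH
      set H' : Finset (Fin N) := univ.filter fun j => σ j ∈ H with hH'
      have h1 : H'.card = H.card := by
        refine card_bij (fun j _ => σ j) (fun j hj => (mem_filter.1 hj).2)
          (fun _ _ _ _ h => σ.injective h) fun j hj => ⟨σ.symm j, ?_, by simp⟩
        rw [hH', mem_filter]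
        exact ⟨mem_univ _, by simpa using hj⟩
      have h2 : J l ⊆ H \ H' := by
        intro j hj
        rw [hJ, mem_filter] at hj
        obtain ⟨-, ⟨k, hbk, hlk⟩, hne⟩ := hj
        rw [mem_sdiff, hH, mem_filter]
        refine ⟨⟨mem_univ _, k, hbk, hlk.ge⟩, fun hj' => ?_⟩
        rw [hH', mem_filter, hH, mem_filter] at hj'
        obtain ⟨-, -, k', hbk', hlk'⟩ := hj'
        rcases hA _ _ (hσ j) with h3 | h3 | h3 | ⟨a, a', h3, h4, h5⟩
        · rw [h3] at hbk'; cases hbk'
        · rw [h3] at hbk; cases hbk
        · refine hne ?_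
          rw [layLab_even.2 (h3.trans hbk), layLab_even.2 hbk]
        · rw [hbk'] at h3
          rw [hbk] at h4
          cases h3; cases h4
          omega
      have h3 : H' \ H ⊆ Z := by
        intro j hj
        rw [mem_sdiff, hH', mem_filter, hH, mem_filter, mem_filter] at hj
        obtain ⟨⟨-, -, k', hbk', hlk'⟩, hj2⟩ := hj
        rw [hZ, mem_filter]
        refine ⟨mem_univ _, ?_⟩
        rcases hA _ _ (hσ j) with h3 | h3 | h3 | ⟨a, a', h3, h4, h5⟩
        · rw [h3] at hbk'; cases hbk'
        · exact h3
        · exact absurd ⟨mem_univ _, k', h3.symm.trans hbk', hlk'⟩ hj2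
        · rw [hbk'] at h3
          cases h3
          exact absurd ⟨mem_univ _, a', h4, by omega⟩ hj2
      calc (J l).card ≤ (H \ H').card := card_le_card h2
        _ = (H' \ H).card := card_sdiff_comm h1.symm
        _ ≤ Z.card := card_le_card h3
        _ ≤ c := hc
    have h4 : ((univ.image fun i : Fin N => layLab (b i) i).filter fun k =>
        ∃ j : Fin N, layLab (b j) j = k ∧ layLab (b (σ j)) (σ j) ≠ k) ⊆
        Z.image (fun i => layLab (b i) i) ∪
          (range L).biUnion fun l => (J l).image fun i => layLab (b i) i := by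
      intro k hk
      rw [mem_filter] at hk
      obtain ⟨-, j, rfl, hj⟩ := hk
      rw [mem_union, mem_image, mem_biUnion]
      cases hb : b j with
      | none => exact Or.inl ⟨j, by rw [hZ, mem_filter]; exact ⟨mem_univ _, hb⟩, by rw [hb]⟩
      | some k =>
        refine Or.inr ⟨lev k, mem_range.2 (hL k), mem_image.2 ⟨j, ?_, by rw [hb]⟩⟩
        rw [hJ, mem_filter]
        exact ⟨mem_univ _, ⟨k, hb, rfl⟩, hj⟩
    calc _ ≤ _ := card_le_card h4
      _ ≤ _ := card_union_le _ _
      _ ≤ c + ∑ l ∈ range L, c := by
        refine add_le_add (card_image_le.trans hc) (card_biUnion_le.trans ?_)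
        exact sum_le_sum fun l _ => card_image_le.trans (hJc l)
      _ = c * (L + 1) := by
        rw [sum_const, card_range, smul_eq_mul]; ring

end Pool.Agent.Lib.MP_64d474_lc.GF
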