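import Mathlib

/-!
# Sums of arbitrarily many fractions with bounded denominators in few affine forms: definitions
-/

set_option autoImplicit false

namespace Pool.Agent.Lib.MP_64d474_lc.Lin61

open MvPolynomial Finset

universe u

/-- The numerator of `∑ i ∈ s, N i / h i ^ e`. -/
def num {R ι : Type*} [CommRing R] [DecidableEq ι] (s : Finset ι) (e : ℕ) (N h : ι → R) : R :=
  ∑ i ∈ s, N i * ∏ j ∈ s.erase i, h j ^ e

/-- `p` is a polynomial in `W` polynomials of degree at most one. -/
def Few {K : Type u} [Field K] {σ : Type} (W : ℕ) (p : MvPolynomial σ K) : Prop :=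
  ∃ l : Fin W → MvPolynomial σ K, (∀ t, (l t).totalDegree ≤ 1) ∧
    p ∈ Algebra.adjoin K (Set.range l)

/-- Restriction to the coordinate plane `o + K^I`. -/
noncomputable def rs {K : Type u} [Field K] {σ : Type} [DecidableEq σ] (I : Finset σ) (o : σ → K) :
    MvPolynomial σ K →ₐ[K] MvPolynomial σ K :=
  MvPolynomial.aeval fun i => if i ∈ I then MvPolynomial.X i else MvPolynomial.C (o i)

theorem map_num {R R' ι : Type*} [CommRing R] [CommRing R'] [DecidableEq ι] (φ : R →+* R')
    (s : Finset ι) (e : ℕ) (N h : ι → R) :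
    φ (num s e N h) = num s e (fun i => φ (N i)) (fun i => φ (h i)) := by
  simp [num, map_sum, map_mul, map_prod, map_pow]

end Pool.Agent.Lib.MP_64d474_lc.Lin61
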