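import Pool.Agent.Lib.MP_64d474_lc.GF.LinDefs61
import Pool.Agent.Lib.MP_64d474_lc.AK.RowH82

/-!
# Affine forms and shears
-/

set_option autoImplicit false

namespace Pool.Agent.Lib.MP_64d474_lc.Lin61

open MvPolynomial Finset

universe u

section affine

set_option linter.unusedSectionVars false

variable {K : Type u} [Field K] {σ : Type} [Fintype σ] [DecidableEq σ]

theorem affine_eq {a : MvPolynomial σ K} (ha : a.totalDegree ≤ 1) :
    a = C (coeff 0 a) + ∑ i, C (coeff (Finsupp.single i 1) a) * X i := by
  ext m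
  rw [coeff_add, coeff_sum, coeff_C]
  simp_rw [coeff_C_mul, coeff_X]
  by_cases hm : m = 0
  · subst hm
    have : ∀ i : σ, Finsupp.single i 1 ≠ (0 : σ →₀ ℕ) := fun i => by
      simp [Finsupp.single_eq_zero]
    simp [this]
  · rw [if_neg (Ne.symm hm), zero_add]
    by_cases h1 : ∃ i, Finsupp.single i 1 = m
    · obtain ⟨i, rfl⟩ := h1
      rw [Finset.sum_eq_single i]
      · simp
      · intro j _ hj
        rw [if_neg, mul_zero]
        intro h
        exact hj ((Finsupp.single_left_inj one_ne_zero).1 h)
      · simp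
    · push Not at h1
      rw [Finset.sum_eq_zero fun i _ => by rw [if_neg (h1 i), mul_zero]]
      by_contra hne
      have hs : m ∈ a.support := by rw [mem_support_iff]; exact hne
      have hd := (le_totalDegree hs).trans ha
      have hd' : m.degree ≤ 1 := by
        simpa [Finsupp.degree, Finsupp.sum] using hd
      rcases Nat.le_one_iff_eq_zero_or_eq_one.1 hd' with h0 | h0
      · exact hm ((Finsupp.degree_eq_zero_iff m).1 h0)
      · obtain ⟨i, hi⟩ : ∃ i, m i ≠ 0 := by
          by_contra hno
          push Not at hno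
          exact hm (Finsupp.ext hno)
        have hle : Finsupp.single i 1 ≤ m := by
          rw [Finsupp.single_le_iff]; omega
        have hdeg := congrArg Finsupp.degree (add_tsub_cancel_of_le hle)
        rw [map_add, Finsupp.degree_single, h0] at hdeg
        have hz : m - Finsupp.single i 1 = 0 := (Finsupp.degree_eq_zero_iff _).1 (by omega)
        have := add_tsub_cancel_of_le hle
        rw [hz, add_zero] at this
        exact h1 i this

theorem totalDegree_aeval_le {L : Type u} [Field L] [Algebra K L] (g : σ → MvPolynomial σ L)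
    (hg : ∀ k, (g k).totalDegree ≤ 1) (f : MvPolynomial σ K) :
    (aeval g f).totalDegree ≤ f.totalDegree := by
  rw [aeval_def, eval₂_eq]
  refine (totalDegree_finsetSum _ _).trans (Finset.sup_le fun d hd => ?_)
  refine (totalDegree_mul _ _).trans ?_
  have h1 : (algebraMap K (MvPolynomial σ L) (coeff d f)).totalDegree = 0 := by
    rw [IsScalarTower.algebraMap_apply K L (MvPolynomial σ L), algebraMap_eq]
    exact totalDegree_C _
  rw [h1, zero_add]
  refine (totalDegree_finsetProd _ _).trans ?_
  calc ∑ i ∈ d.support, (g i ^ d i).totalDegree ≤ ∑ i ∈ d.support, d i := by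
        refine Finset.sum_le_sum fun i _ => (totalDegree_pow _ _).trans ?_
        calc d i * (g i).totalDegree ≤ d i * 1 := Nat.mul_le_mul_left _ (hg i)
          _ = d i := mul_one _
    _ ≤ f.totalDegree := le_totalDegree hd

/-- Replace `X i` by `a`. -/
noncomputable def rep (i : σ) (a : MvPolynomial σ K) : MvPolynomial σ K →ₐ[K] MvPolynomial σ K :=
  aeval (Function.update X i a)

theorem rep_X_self (i : σ) (a : MvPolynomial σ K) : rep i a (X i) = a := by
  simp [rep]

theorem rep_X_ne {i j : σ} (h : j ≠ i) (a : MvPolynomial σ K) : rep i a (X j) = X j := by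
  simp [rep, Function.update_of_ne h]

theorem rep_degree (i : σ) {a : MvPolynomial σ K} (ha : a.totalDegree ≤ 1) (p : MvPolynomial σ K) :
    (rep i a p).totalDegree ≤ p.totalDegree := by
  refine totalDegree_aeval_le _ (fun k => ?_) p
  by_cases hk : k = i
  · subst hk; simpa using ha
  · rw [Function.update_of_ne hk, totalDegree_X]

theorem rep_supported {i : σ} {J : Finset σ} (hi : i ∉ J) (a : MvPolynomial σ K)
    {p : MvPolynomial σ K} (hp : p ∈ supported K (J : Set σ)) : rep i a p = p := by
  refine Algebra.adjoin_induction (p := fun q _ => rep i a q = q) ?_ ?_ ?_ ?_ hp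
  · rintro _ ⟨j, hj, rfl⟩
    refine rep_X_ne (fun h => hi ?_) a
    rw [← h]; exact hj
  · intro r; exact AlgHom.commutes _ r
  · intro x y _ _ hx hy; rw [map_add, hx, hy]
  · intro x y _ _ hx hy; rw [map_mul, hx, hy]

/-- `a` affine with nonzero coefficient at `X i`: the inverse substitution. -/
noncomputable def inv (i : σ) (a : MvPolynomial σ K) : MvPolynomial σ K :=
  X i + C (coeff (Finsupp.single i 1) a)⁻¹ * (X i - a)

theorem inv_degree (i : σ) {a : MvPolynomial σ K} (ha : a.totalDegree ≤ 1) :
    (inv i a).totalDegree ≤ 1 := by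
  unfold inv
  refine (totalDegree_add _ _).trans (max_le (by rw [totalDegree_X]) ?_)
  refine (totalDegree_mul _ _).trans ?_
  rw [totalDegree_C, zero_add]
  exact (totalDegree_sub _ _).trans (max_le (by rw [totalDegree_X]) ha)

theorem rep_inv {i : σ} {a : MvPolynomial σ K} (ha : a.totalDegree ≤ 1)
    (h : coeff (Finsupp.single i 1) a ≠ 0) : rep i (inv i a) a = X i := by
  have h1 := affine_eq ha
  rw [← Finset.add_sum_erase _ _ (mem_univ i)] at h1
  set α := coeff (Finsupp.single i 1) a with hα
  set r := ∑ j ∈ univ.erase i, C (coeff (Finsupp.single j 1) a) * (X j : MvPolynomial σ K) with hr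
  have h2 : ∀ b, rep i b r = r := by
    intro b
    rw [hr, map_sum]
    refine Finset.sum_congr rfl fun j hj => ?_
    rw [map_mul, rep_X_ne (Finset.ne_of_mem_erase hj), algHom_C, algebraMap_eq]
  have h3 : ∀ b, rep i b a = C (coeff 0 a) + (C α * b + r) := by
    intro b
    have := congrArg (rep i b) h1
    rw [map_add, map_add, map_mul, rep_X_self, h2, algHom_C, algHom_C, algebraMap_eq] at this
    exact this
  rw [h3]
  have h4 : (C α : MvPolynomial σ K) * C α⁻¹ = 1 := by
    rw [← C_mul, mul_inv_cancel₀ h, C_1]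
  unfold inv
  rw [← hα]
  linear_combination (X i - a) * h4 - h1

theorem rep_rep_inv {i : σ} {a : MvPolynomial σ K} (ha : a.totalDegree ≤ 1)
    (h : coeff (Finsupp.single i 1) a ≠ 0) (p : MvPolynomial σ K) :
    rep i (inv i a) (rep i a p) = p := by
  have : (rep i (inv i a)).comp (rep i a) = AlgHom.id K _ := by
    apply algHom_ext
    intro j
    rw [AlgHom.comp_apply, AlgHom.id_apply]
    by_cases hj : j = i
    · subst hj
      rw [rep_X_self, rep_inv ha h]
    · rw [rep_X_ne hj, rep_X_ne hj]
  exact congrArg (fun f => f p) this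

theorem rep_inv_rep {i : σ} {a : MvPolynomial σ K} (ha : a.totalDegree ≤ 1)
    (h : coeff (Finsupp.single i 1) a ≠ 0) (p : MvPolynomial σ K) :
    rep i a (rep i (inv i a) p) = p := by
  have : (rep i a).comp (rep i (inv i a)) = AlgHom.id K _ := by
    apply algHom_ext
    intro j
    rw [AlgHom.comp_apply, AlgHom.id_apply]
    by_cases hj : j = i
    · subst hj
      rw [rep_X_self]
      have h1 := affine_eq ha
      rw [← Finset.add_sum_erase _ _ (mem_univ j)] at h1
      set α := coeff (Finsupp.single j 1) a with hα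
      set r := ∑ k ∈ univ.erase j, C (coeff (Finsupp.single k 1) a) * (X k : MvPolynomial σ K)
        with hr
      have h2 : ∀ b, rep j b r = r := by
        intro b
        rw [hr, map_sum]
        refine Finset.sum_congr rfl fun k hk => ?_
        rw [map_mul, rep_X_ne (Finset.ne_of_mem_erase hk), algHom_C, algebraMap_eq]
      have h3 : ∀ b, rep j b a = C (coeff 0 a) + (C α * b + r) := by
        intro b
        have := congrArg (rep j b) h1
        rw [map_add, map_add, map_mul, rep_X_self, h2, algHom_C, algHom_C, algebraMap_eq] at this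
        exact this
      have h4 : (C α : MvPolynomial σ K) * C α⁻¹ = 1 := by
        rw [← C_mul, mul_inv_cancel₀ h, C_1]
      unfold inv
      rw [map_add, map_mul, map_sub, rep_X_self, h3, algHom_C, algebraMap_eq, ← hα]
      linear_combination (X j - a) * h4 + C α⁻¹ * h1
    · rw [rep_X_ne hj, rep_X_ne hj]
  exact congrArg (fun f => f p) this

/-- Finitely many affine forms become affine forms in few variables after a shear. -/
theorem exists_shear : ∀ (W : ℕ) (l : Fin W → MvPolynomial σ K), (∀ t, (l t).totalDegree ≤ 1) →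
    ∃ (J : Finset σ) (τ : MvPolynomial σ K ≃ₐ[K] MvPolynomial σ K), J.card ≤ W ∧
      (∀ p, (τ p).totalDegree ≤ p.totalDegree) ∧ (∀ i, i ∉ J → τ (X i) = X i) ∧
      ∀ t, τ (l t) ∈ supported K (J : Set σ) := by
  intro W
  induction W with
  | zero =>
    intro l _
    exact ⟨∅, AlgEquiv.refl, by simp, fun p => le_rfl, fun i _ => rfl, fun t => t.elim0⟩
  | succ W ih =>
    intro l hl
    obtain ⟨J, τ, hJ, hdeg, hX, hsup⟩ := ih (fun t => l t.castSucc) fun t => hl _
    set a := τ (l (Fin.last W)) with ha
    have had : a.totalDegree ≤ 1 := (hdeg _).trans (hl _)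
    by_cases hc : ∀ i, i ∉ J → coeff (Finsupp.single i 1) a = 0
    · refine ⟨J, τ, by omega, hdeg, hX, fun t => ?_⟩
      refine Fin.lastCases ?_ (fun t => hsup t) t
      rw [← ha, affine_eq had]
      refine Subalgebra.add_mem _ (Subalgebra.algebraMap_mem _ _) (Subalgebra.sum_mem _ fun i _ => ?_)
      by_cases hi : i ∈ J
      · exact Subalgebra.mul_mem _ (Subalgebra.algebraMap_mem _ _)
          (Algebra.subset_adjoin ⟨i, hi, rfl⟩)
      · rw [hc i hi, C_0, zero_mul]
        exact Subalgebra.zero_mem _
    · push Not at hc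
      obtain ⟨i, hi, hne⟩ := hc
      let ρ : MvPolynomial σ K ≃ₐ[K] MvPolynomial σ K :=
        AlgEquiv.ofAlgHom (rep i (inv i a)) (rep i a)
          (AlgHom.ext fun p => rep_rep_inv had hne p) (AlgHom.ext fun p => rep_inv_rep had hne p)
      have hρ : ∀ p, ρ p = rep i (inv i a) p := fun p => rfl
      refine ⟨insert i J, τ.trans ρ, ?_, fun p => ?_, fun j hj => ?_, fun t => ?_⟩
      · rw [Finset.card_insert_of_notMem hi]; omega
      · rw [AlgEquiv.trans_apply, hρ]
        exact (rep_degree i (inv_degree i had) _).trans (hdeg p)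
      · rw [Finset.mem_insert, not_or] at hj
        rw [AlgEquiv.trans_apply, hX j hj.2, hρ, rep_X_ne hj.1]
      · rw [AlgEquiv.trans_apply, hρ]
        refine Fin.lastCases ?_ (fun t => ?_) t
        · rw [← ha, rep_inv had hne]
          exact Algebra.subset_adjoin ⟨i, by simp, rfl⟩
        · rw [rep_supported hi _ (hsup t)]
          exact supported_mono (by intro x hx; simp at hx ⊢; exact Or.inr hx) (hsup t)

theorem few_shear {W : ℕ} {p : MvPolynomial σ K} (hp : Few W p) :
    ∃ (J : Finset σ) (τ : MvPolynomial σ K ≃ₐ[K] MvPolynomial σ K), J.card ≤ W ∧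
      (∀ p, (τ p).totalDegree ≤ p.totalDegree) ∧ (∀ i, i ∉ J → τ (X i) = X i) ∧
      τ p ∈ supported K (J : Set σ) := by
  obtain ⟨l, hl, hp⟩ := hp
  obtain ⟨J, τ, h1, h2, h3, h4⟩ := exists_shear W l hl
  refine ⟨J, τ, h1, h2, h3, ?_⟩
  refine Algebra.adjoin_induction (p := fun q _ => τ q ∈ supported K (J : Set σ)) ?_ ?_ ?_ ?_ hp
  · rintro _ ⟨t, rfl⟩; exact h4 t
  · intro r; rw [AlgEquiv.commutes]; exact Subalgebra.algebraMap_mem _ _
  · intro x y _ _ hx hy; rw [map_add]; exact Subalgebra.add_mem _ hx hy
  · intro x y _ _ hx hy; rw [map_mul]; exact Subalgebra.mul_mem _ hx hy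

end affine

end Pool.Agent.Lib.MP_64d474_lc.Lin61
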