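import Pool.Agent.Lib.MP_64d474_lc.GF.LinExp61
import Pool.Agent.Lib.MP_64d474_lc.GF.LinShear61

/-!
# Degrees of the polar coefficients
-/

set_option autoImplicit false

namespace Pool.Agent.Lib.MP_64d474_lc.Lin61

open Finset Polynomial

universe u

section deg

set_option linter.unusedSectionVars false

variable {K L : Type u} [Field K] [Field L] [Algebra K L] {σ : Type} [Fintype σ] [DecidableEq σ]

/-- The substitution `X i ↦ a i + X κ i`. -/
noncomputable def Th (a : σ → MvPolynomial σ L) (κ : σ → L) :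
    MvPolynomial σ K →ₐ[K] (MvPolynomial σ L)[X] :=
  MvPolynomial.aeval fun i => C (a i) + X * C (MvPolynomial.C (κ i))

theorem Th_X (a : σ → MvPolynomial σ L) (κ : σ → L) (i : σ) :
    Th (K := K) a κ (MvPolynomial.X i) = C (a i) + X * C (MvPolynomial.C (κ i)) := by
  simp [Th]

theorem Th_C (a : σ → MvPolynomial σ L) (κ : σ → L) (r : K) :
    Th a κ (MvPolynomial.C r) = C (MvPolynomial.C (algebraMap K L r)) := by
  rw [Th, MvPolynomial.algHom_C]
  rfl

theorem filtX_pow {d : ℕ} {x : (MvPolynomial σ L)[X]} (hx : x ∈ AK.filtX L σ d) (k : ℕ) :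
    x ^ k ∈ AK.filtX L σ (k * d) := by
  induction k with
  | zero => rw [pow_zero, zero_mul]; exact AK.filtX_one
  | succ k ih => rw [pow_succ, add_mul, one_mul]; exact AK.filtX_mul ih hx

theorem filtX_base {a : σ → MvPolynomial σ L} (ha : ∀ i, (a i).totalDegree ≤ 1) (κ : σ → L)
    (i : σ) : (C (a i) + X * C (MvPolynomial.C (κ i)) : (MvPolynomial σ L)[X]) ∈
      AK.filtX L σ 1 := by
  refine AddSubgroup.add_mem _ (AK.filtX_C (ha i)) ?_
  intro j
  rw [coeff_mul_C, coeff_X]
  split_ifs with hj
  · right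
    rw [one_mul, MvPolynomial.totalDegree_C]
    omega
  · left; simp

theorem Th_mem {a : σ → MvPolynomial σ L} (ha : ∀ i, (a i).totalDegree ≤ 1) (κ : σ → L)
    (p : MvPolynomial σ K) : Th a κ p ∈ AK.filtX L σ p.totalDegree := by
  have hpow : ∀ (i : σ) (k : ℕ),
      (C (a i) + X * C (MvPolynomial.C (κ i)) : (MvPolynomial σ L)[X]) ^ k ∈
        AK.filtX L σ k := by
    intro i k
    have := filtX_pow (filtX_base ha κ i) k
    rwa [mul_one] at this
  have : Th a κ p = ∑ d ∈ p.support, C (MvPolynomial.C (algebraMap K L (p.coeff d))) *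
      ∏ i ∈ d.support, (C (a i) + X * C (MvPolynomial.C (κ i))) ^ d i := by
    rw [Th, MvPolynomial.aeval_def, MvPolynomial.eval₂_eq]
    rfl
  rw [this]
  refine AddSubgroup.sum_mem _ fun d hd => ?_
  have hle : ∑ i ∈ d.support, d i ≤ p.totalDegree := MvPolynomial.le_totalDegree hd
  refine AK.filtX_mono hle ?_
  have hpr : ∀ s : Finset σ,
      ∏ i ∈ s, (C (a i) + X * C (MvPolynomial.C (κ i)) :
        (MvPolynomial σ L)[X]) ^ d i ∈ AK.filtX L σ (∑ i ∈ s, d i) := by
    intro s
    induction s using Finset.induction_on with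
    | empty => rw [Finset.prod_empty, Finset.sum_empty]; exact AK.filtX_one
    | insert i s hi ih =>
      rw [Finset.prod_insert hi, Finset.sum_insert hi]
      exact AK.filtX_mul (hpow i _) ih
  have := AK.filtX_mul (AK.filtX_C (F := L) (σ := σ) (d := 0)
    (a := MvPolynomial.C (algebraMap K L (p.coeff d))) (by simp)) (hpr d.support)
  rwa [zero_add] at this

/-- The coefficients of a polynomial in few affine forms are again of this kind. -/
theorem few_coeff {W : ℕ} {a : σ → MvPolynomial σ L} (ha : ∀ i, (a i).totalDegree ≤ 1) (κ : σ → L)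
    {p : MvPolynomial σ K} (hp : Few W p) (j : ℕ) : Few W ((Th a κ p).coeff j) := by
  obtain ⟨l, hl, hp⟩ := hp
  refine ⟨fun t => (Th a κ (l t)).coeff 0, fun t => ?_, ?_⟩
  · change ((Th a κ (l t)).coeff 0).totalDegree ≤ 1
    rcases Th_mem ha κ (l t) 0 with h | h
    · rw [h]; simp
    · have := hl t; omega
  set A := Algebra.adjoin L (Set.range fun t => (Th a κ (l t)).coeff 0) with hA
  revert j
  refine Algebra.adjoin_induction (p := fun q _ => ∀ j, (Th a κ q).coeff j ∈ A) ?_ ?_ ?_ ?_ hp
  · rintro _ ⟨t, rfl⟩ j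
    rcases j with _ | j
    · exact Algebra.subset_adjoin ⟨t, rfl⟩
    · rcases Th_mem ha κ (l t) (j + 1) with h | h
      · rw [h]; exact Subalgebra.zero_mem _
      · have h0 : ((Th a κ (l t)).coeff (j + 1)).totalDegree = 0 := by
          have := hl t; omega
        rw [MvPolynomial.totalDegree_eq_zero_iff_eq_C.1 h0]
        exact Subalgebra.algebraMap_mem _ _
  · intro r j
    rw [MvPolynomial.algebraMap_eq, Th_C, coeff_C]
    split_ifs
    · exact Subalgebra.algebraMap_mem _ _
    · exact Subalgebra.zero_mem _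
  · intro x y _ _ hx hy j
    rw [map_add, coeff_add]
    exact Subalgebra.add_mem _ (hx j) (hy j)
  · intro x y _ _ hx hy j
    rw [map_mul, coeff_mul]
    exact Subalgebra.sum_mem _ fun q _ => Subalgebra.mul_mem _ (hx _) (hy _)

theorem ww_mem {d : ℕ} {x : (MvPolynomial σ L)[X]} (hx : x ∈ AK.filtX L σ d) (e k : ℕ) :
    ww e k x ∈ AK.filtX L σ (k * d) := by
  have h0 : C (x.coeff 0) ∈ AK.filtX L σ d := by
    intro j
    rw [coeff_C]
    split_ifs with hj
    · subst hj; exact hx 0
    · left; rfl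
  unfold ww
  refine AddSubgroup.sum_mem _ fun i hi => ?_
  have hi' : i ≤ k := by rw [Finset.mem_range] at hi; omega
  have h1 : (((e + i - 1).choose i : ℕ) : (MvPolynomial σ L)[X]) ∈ AK.filtX L σ 0 := by
    have : (((e + i - 1).choose i : ℕ) : (MvPolynomial σ L)[X]) =
        C (MvPolynomial.C (((e + i - 1).choose i : ℕ) : L)) := by simp
    rw [this]
    exact AK.filtX_C (by rw [MvPolynomial.totalDegree_C])
  have h2 := filtX_pow (AddSubgroup.sub_mem _ h0 hx) i
  have h3 := filtX_pow h0 (k - i)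
  have h4 := AK.filtX_mul (AK.filtX_mul h1 h2) h3
  have h5 : 0 + i * d + (k - i) * d = k * d := by
    rw [zero_add, ← add_mul]; congr 1; omega
  rwa [h5] at h4

theorem PP_mem {ι : Type*} {e k M n δ : ℕ} {N u : ι → (MvPolynomial σ L)[X]} {μ : ι → ℕ} {i : ι}
    (hN : N i ∈ AK.filtX L σ n) (hu : u i ∈ AK.filtX L σ δ) (t : ℕ) :
    ((PP e k M N u μ i).coeff t).totalDegree ≤ n + M + k * δ := by
  have hX : (X : (MvPolynomial σ L)[X]) ∈ AK.filtX L σ 1 := by
    intro j
    rw [coeff_X]
    split_ifs with hj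
    · right; rw [MvPolynomial.totalDegree_one]; omega
    · left; rfl
  have h1 := AK.filtX_mul (AK.filtX_mul hN (filtX_pow hX (M - e * μ i))) (ww_mem hu e k)
  rcases h1 t with h | h
  · unfold PP; rw [h]; simp
  · unfold PP
    have : (M - e * μ i) * 1 ≤ M := by omega
    omega

end deg

section maps

variable {R R' : Type*} [CommRing R] [CommRing R']

theorem ww_map (φ : R →+* R') (e k : ℕ) (x : R[X]) : (ww e k x).map φ = ww e k (x.map φ) := by
  simp [ww, Polynomial.map_sum, Polynomial.map_mul, Polynomial.map_pow, Polynomial.map_sub]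

theorem PP_map {ι : Type*} (φ : R →+* R') (e k M : ℕ) (N x : ι → R[X]) (μ : ι → ℕ) (i : ι) :
    (PP e k M N x μ i).map φ = PP e k M (fun i => (N i).map φ) (fun i => (x i).map φ) μ i := by
  simp [PP, ww_map, Polynomial.map_mul, Polynomial.map_pow]

/-- Split off the power of `X`. -/
theorem exists_unit_part {p : R[X]} (hp : p ≠ 0) :
    ∃ x : R[X], p = X ^ p.natTrailingDegree * x ∧ x.coeff 0 ≠ 0 ∧
      ∀ j, x.coeff j = p.coeff (j + p.natTrailingDegree) := by
  have h1 : X ^ p.natTrailingDegree ∣ p := by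
    rw [X_pow_dvd_iff]
    intro d hd
    exact coeff_eq_zero_of_lt_natTrailingDegree hd
  obtain ⟨x, hx⟩ := h1
  have h2 : ∀ j, x.coeff j = p.coeff (j + p.natTrailingDegree) := by
    intro j
    have h3 := congrArg (fun q => q.coeff (j + p.natTrailingDegree)) hx
    simp only [coeff_X_pow_mul] at h3
    exact h3.symm
  refine ⟨x, hx, ?_, h2⟩
  rw [h2, zero_add]
  exact trailingCoeff_nonzero_iff_nonzero.2 hp

end maps

section functional

variable {K L : Type u} [Field K] [Field L] [Algebra K L] {σ : Type}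

/-- Conditions over a larger field are implied by conditions over the small field. -/
theorem exists_descent (b : MvPolynomial σ L) (hb : b ≠ 0) :
    ∃ b' : MvPolynomial σ K, b' ≠ 0 ∧ b'.totalDegree ≤ b.totalDegree ∧
      ∀ o : σ → K, MvPolynomial.eval o b' ≠ 0 →
        MvPolynomial.eval (fun i => algebraMap K L (o i)) b ≠ 0 := by
  classical
  obtain ⟨m, hm⟩ := MvPolynomial.ne_zero_iff.1 hb
  obtain ⟨f, hf⟩ : ∃ f : L →ₗ[K] K, f (b.coeff m) ≠ 0 := by
    by_contra hno
    push Not at hno
    exact hm ((Module.forall_dual_apply_eq_zero_iff K (b.coeff m)).1 hno)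
  refine ⟨∑ d ∈ b.support, MvPolynomial.monomial d (f (b.coeff d)), ?_, ?_, ?_⟩
  · rw [MvPolynomial.ne_zero_iff]
    refine ⟨m, ?_⟩
    rw [MvPolynomial.coeff_sum, Finset.sum_eq_single m]
    · rwa [MvPolynomial.coeff_monomial, if_pos rfl]
    · intro d _ hd
      rw [MvPolynomial.coeff_monomial, if_neg hd]
    · intro h
      rw [MvPolynomial.notMem_support_iff] at h
      exact absurd h hm
  · refine (MvPolynomial.totalDegree_finsetSum _ _).trans (Finset.sup_le fun d hd => ?_)
    exact (MvPolynomial.totalDegree_monomial_le _ _).trans (MvPolynomial.le_totalDegree hd)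
  · intro o h h0
    apply h
    rw [MvPolynomial.eval_eq] at h0
    have h1 := congrArg f h0
    rw [map_sum, map_zero] at h1
    rw [map_sum, ← h1]
    refine Finset.sum_congr rfl fun d _ => ?_
    rw [MvPolynomial.eval_monomial]
    have h2 : ∏ i ∈ d.support, (algebraMap K L (o i)) ^ d i =
        algebraMap K L (∏ i ∈ d.support, o i ^ d i) := by
      rw [map_prod]
      exact Finset.prod_congr rfl fun i _ => (map_pow _ _ _).symm
    rw [h2, mul_comm (MvPolynomial.coeff d b), ← Algebra.smul_def, LinearMap.map_smul, smul_eq_mul,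
      mul_comm]
    rfl

end functional

end Pool.Agent.Lib.MP_64d474_lc.Lin61
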