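import Pool.Agent.Lib.MP_64d474_lc.GF.LinDefs61

/-!
# The polar coefficients of a sum of fractions
-/

set_option autoImplicit false

namespace Pool.Agent.Lib.MP_64d474_lc.Lin61

open Polynomial Finset

section exp

variable {R ι : Type*} [CommRing R] [DecidableEq ι]

/-- An approximate inverse of `u ^ e`. -/
noncomputable def ww (e K : ℕ) (u : R[X]) : R[X] :=
  ∑ k ∈ range (K + 1), (((e + k - 1).choose k : ℕ) : R[X]) * (C (u.coeff 0) - u) ^ k *
    C (u.coeff 0) ^ (K - k)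

theorem ww_zero (K : ℕ) (u : R[X]) : ww 0 K u = C (u.coeff 0) ^ K := by
  unfold ww
  rw [Finset.sum_eq_single_of_mem 0 (by simp)]
  · simp
  · intro k _ hk
    obtain ⟨k, rfl⟩ : ∃ k', k = k' + 1 := ⟨k - 1, by omega⟩
    have : (0 + (k + 1) - 1).choose (k + 1) = 0 := Nat.choose_eq_zero_of_lt (by omega)
    rw [this]; simp

/-- One step of the recursion. -/
theorem ww_succ (e K : ℕ) (u : R[X]) :
    (C (u.coeff 0) - u) ^ (K + 1) ∣ u * ww (e + 1) K u - C (u.coeff 0) * ww e K u := by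
  set c := C (u.coeff 0) with hc
  set z := c - u with hz
  have hu : u = c - z := by rw [hz]; ring
  have key : ∀ n : ℕ, n ≤ K →
      (c - z) * ∑ k ∈ range (n + 1), (((e + 1 + k - 1).choose k : ℕ) : R[X]) * z ^ k * c ^ (K - k)
        - c * ∑ k ∈ range (n + 1), (((e + k - 1).choose k : ℕ) : R[X]) * z ^ k * c ^ (K - k)
        = - ((((e + 1 + n - 1).choose n : ℕ) : R[X]) * z ^ (n + 1) * c ^ (K - n)) := by
    intro n
    induction n with
    | zero => intro _; simp; ring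
    | succ n ih =>
      intro hn
      rw [Finset.sum_range_succ _ (n + 1), Finset.sum_range_succ _ (n + 1), mul_add, mul_add]
      have h1 := ih (by omega)
      have h2 : ((e + 1 + (n + 1) - 1).choose (n + 1) : ℕ) =
          (e + 1 + n - 1).choose n + (e + (n + 1) - 1).choose (n + 1) := by
        have : e + 1 + (n + 1) - 1 = (e + n) + 1 := by omega
        rw [this, Nat.choose_succ_succ]
        congr 1
        congr 1
        omega
      have h3 : c ^ (K - n) = c * c ^ (K - (n + 1)) := by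
        rw [← pow_succ']; congr 1; omega
      rw [h2, Nat.cast_add]
      rw [h3] at h1
      linear_combination h1
  have h := key K le_rfl
  unfold ww
  rw [← hc, ← hz]
  nth_rewrite 1 [hu]
  rw [h, Nat.sub_self, pow_zero, mul_one]
  exact (dvd_neg.2 (Dvd.intro_left _ rfl))

theorem ww_spec (e K : ℕ) (u : R[X]) :
    (X : R[X]) ^ (K + 1) ∣ u ^ e * ww e K u - C (u.coeff 0) ^ (e + K) := by
  have hX : (X : R[X]) ∣ C (u.coeff 0) - u := by
    rw [X_dvd_iff]; simp
  induction e with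
  | zero => rw [ww_zero]; simp
  | succ e ih =>
    have h1 := (pow_dvd_pow_of_dvd hX (K + 1)).trans (ww_succ e K u)
    have h2 : u ^ (e + 1) * ww (e + 1) K u - C (u.coeff 0) ^ (e + 1 + K)
        = u ^ e * (u * ww (e + 1) K u - C (u.coeff 0) * ww e K u)
          + C (u.coeff 0) * (u ^ e * ww e K u - C (u.coeff 0) ^ (e + K)) := by ring
    rw [h2]
    exact dvd_add (Dvd.dvd.mul_left h1 _) (Dvd.dvd.mul_left ih _)

/-- The terms with a pole. -/
noncomputable def PP (e K M : ℕ) (N u : ι → R[X]) (μ : ι → ℕ) (i : ι) : R[X] :=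
  N i * X ^ (M - e * μ i) * ww e K (u i)

theorem expansion_dvd (s : Finset ι) (e K M : ℕ) (N u : ι → R[X]) (μ : ι → ℕ)
    (hM : ∀ i ∈ s, e * μ i ≤ M) (hMK : M ≤ K + 1) :
    (X : R[X]) ^ (M + e * ∑ i ∈ s, μ i) ∣
      X ^ (e * ∑ i ∈ s, μ i) *
        (num (s.filter fun i => μ i ≠ 0) (e + K) (PP e K M N u μ) (fun i => C ((u i).coeff 0))) *
          (∏ j ∈ s, u j ^ e)
      - X ^ M * (∏ j ∈ s.filter fun i => μ i ≠ 0, C ((u j).coeff 0) ^ (e + K)) *
          num s e N (fun i => X ^ μ i * u i) := by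
  classical
  set s' := s.filter fun i => μ i ≠ 0 with hs'
  have hsub : s' ⊆ s := filter_subset _ _
  generalize hE : e * ∑ i ∈ s, μ i = E
  unfold num
  rw [mul_sum, sum_mul, mul_sum]
  rw [← Finset.sum_filter_add_sum_filter_not s (fun i => μ i ≠ 0), ← hs']
  rw [← sub_sub, ← sum_sub_distrib]
  refine dvd_sub (Finset.dvd_sum fun i hi => ?_) (Finset.dvd_sum fun i hi => ?_) <;> subst hE
  · have his : i ∈ s := hsub hi
    have e1 : (∏ j ∈ s, u j ^ e) = u i ^ e * ∏ j ∈ s.erase i, u j ^ e :=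
      (mul_prod_erase s _ his).symm
    have e2 : (∏ j ∈ s', C ((u j).coeff 0) ^ (e + K)) =
        C ((u i).coeff 0) ^ (e + K) * ∏ j ∈ s'.erase i, C ((u j).coeff 0) ^ (e + K) :=
      (mul_prod_erase s' _ hi).symm
    have e3 : (∏ j ∈ s.erase i, ((X : R[X]) ^ μ j * u j) ^ e) =
        X ^ (e * ∑ j ∈ s.erase i, μ j) * ∏ j ∈ s.erase i, u j ^ e := by
      rw [mul_sum, ← prod_pow_eq_pow_sum, ← prod_mul_distrib]
      refine prod_congr rfl fun j _ => ?_
      rw [mul_pow, ← pow_mul, mul_comm (μ j) e]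
    have e4 : e * ∑ j ∈ s, μ j = e * μ i + e * ∑ j ∈ s.erase i, μ j := by
      rw [← mul_add, add_sum_erase s _ his]
    obtain ⟨q, hq⟩ := ww_spec e K (u i)
    have e5 : M = e * μ i + (M - e * μ i) := by have := hM i his; omega
    refine ⟨X ^ (K + 1 - M) * X ^ (M - e * μ i) * q * N i *
      (∏ j ∈ s'.erase i, C ((u j).coeff 0) ^ (e + K)) * ∏ j ∈ s.erase i, u j ^ e, ?_⟩
    rw [e1, e2, e3]
    have e6 : (X : R[X]) ^ (K + 1) = X ^ M * X ^ (K + 1 - M) := by
      rw [← pow_add]; congr 1; omega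
    rw [e6] at hq
    have e7 : (X : R[X]) ^ (M + e * ∑ j ∈ s, μ j) = X ^ M * X ^ (e * ∑ j ∈ s, μ j) := pow_add _ _ _
    have e8 : (X : R[X]) ^ (e * ∑ j ∈ s, μ j) = X ^ (e * μ i) * X ^ (e * ∑ j ∈ s.erase i, μ j) := by
      rw [← pow_add, e4]
    have e9 : (X : R[X]) ^ M = X ^ (e * μ i) * X ^ (M - e * μ i) := by
      rw [← pow_add, ← e5]
    unfold PP
    rw [e7, e8]
    set A := ∏ j ∈ s'.erase i, C ((u j).coeff 0) ^ (e + K)
    set B := ∏ j ∈ s.erase i, u j ^ e
    set Y := (X : R[X]) ^ (e * ∑ j ∈ s.erase i, μ j)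
    set Z := (X : R[X]) ^ (e * μ i)
    set V := (X : R[X]) ^ (M - e * μ i)
    rw [e9]
    rw [e9] at hq
    linear_combination (Z * Y * N i * V * A * B) * hq
  · rw [mem_filter, not_not] at hi
    have e3 : (∏ j ∈ s.erase i, ((X : R[X]) ^ μ j * u j) ^ e) =
        X ^ (e * ∑ j ∈ s.erase i, μ j) * ∏ j ∈ s.erase i, u j ^ e := by
      rw [mul_sum, ← prod_pow_eq_pow_sum, ← prod_mul_distrib]
      refine prod_congr rfl fun j _ => ?_
      rw [mul_pow, ← pow_mul, mul_comm (μ j) e]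
    have e4 : ∑ j ∈ s, μ j = ∑ j ∈ s.erase i, μ j := by
      rw [← add_sum_erase s _ hi.1, hi.2, zero_add]
    rw [e3, e4, pow_add]
    exact ⟨(∏ j ∈ s', C ((u j).coeff 0) ^ (e + K)) * N i * ∏ j ∈ s.erase i, u j ^ e, by ring⟩

/-- The polar coefficients detect whether the sum has a pole at `X = 0`. -/
theorem expansion [IsDomain R] (s : Finset ι) (e K M : ℕ) (N u : ι → R[X]) (μ : ι → ℕ)
    (hM : ∀ i ∈ s, e * μ i ≤ M) (hMK : M ≤ K + 1) (hc : ∀ i ∈ s, (u i).coeff 0 ≠ 0) :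
    (∀ t < M, num (s.filter fun i => μ i ≠ 0) (e + K) (fun i => (PP e K M N u μ i).coeff t)
      (fun i => (u i).coeff 0) = 0) ↔
      (X : R[X]) ^ (e * ∑ i ∈ s, μ i) ∣ num s e N (fun i => X ^ μ i * u i) := by
  classical
  set s' := s.filter fun i => μ i ≠ 0 with hs'
  have hsub : s' ⊆ s := filter_subset _ _
  set Z := num s' (e + K) (PP e K M N u μ) (fun i => C ((u i).coeff 0)) with hZ
  have hcoeff : ∀ t, Z.coeff t = num s' (e + K) (fun i => (PP e K M N u μ i).coeff t)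
      (fun i => (u i).coeff 0) := by
    intro t
    rw [hZ]
    unfold num
    rw [finsetSum_coeff]
    refine sum_congr rfl fun i _ => ?_
    have : (∏ j ∈ s'.erase i, C ((u j).coeff 0) ^ (e + K)) =
        C (∏ j ∈ s'.erase i, (u j).coeff 0 ^ (e + K)) := by
      rw [map_prod]; refine prod_congr rfl fun j _ => by rw [map_pow]
    rw [this, coeff_mul_C]
  have h1 : (∀ t < M, num s' (e + K) (fun i => (PP e K M N u μ i).coeff t)
      (fun i => (u i).coeff 0) = 0) ↔ X ^ M ∣ Z := by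
    rw [X_pow_dvd_iff]
    exact forall₂_congr fun t _ => by rw [hcoeff]
  rw [h1]
  have hp : Prime (X : R[X]) := prime_X
  have hX0 : (X : R[X]) ≠ 0 := X_ne_zero
  have hE := expansion_dvd s e K M N u μ hM hMK
  rw [← hs', ← hZ] at hE
  set n := num s e N (fun i => X ^ μ i * u i) with hn
  set E := e * ∑ i ∈ s, μ i with hEdef
  have hu : ¬ (X : R[X]) ∣ ∏ j ∈ s, u j ^ e := by
    intro h
    obtain ⟨j, hj, hd⟩ := (hp.dvd_finsetProd_iff _).1 h
    exact hc j hj (X_dvd_iff.1 (hp.dvd_of_dvd_pow hd))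
  have hc' : ¬ (X : R[X]) ∣ ∏ j ∈ s', C ((u j).coeff 0) ^ (e + K) := by
    intro h
    obtain ⟨j, hj, hd⟩ := (hp.dvd_finsetProd_iff _).1 h
    have := X_dvd_iff.1 (hp.dvd_of_dvd_pow hd)
    rw [coeff_C_zero] at this
    exact hc j (hsub hj) this
  constructor
  · intro h
    have h2 : (X : R[X]) ^ (M + E) ∣ X ^ E * Z * ∏ j ∈ s, u j ^ e := by
      rw [add_comm, pow_add]
      exact Dvd.dvd.mul_right (mul_dvd_mul_left _ h) _
    have h3 : (X : R[X]) ^ (M + E) ∣ X ^ M * (∏ j ∈ s', C ((u j).coeff 0) ^ (e + K)) * n := by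
      have := dvd_sub h2 hE
      rwa [sub_sub_cancel] at this
    rw [pow_add, mul_assoc] at h3
    have h4 := (mul_dvd_mul_iff_left (pow_ne_zero M hX0)).1 h3
    exact hp.pow_dvd_of_dvd_mul_left E hc' h4
  · intro h
    have h2 : (X : R[X]) ^ (M + E) ∣ X ^ M * (∏ j ∈ s', C ((u j).coeff 0) ^ (e + K)) * n := by
      rw [pow_add, mul_assoc]
      exact mul_dvd_mul_left _ (Dvd.dvd.mul_left h _)
    have h3 : (X : R[X]) ^ (M + E) ∣ X ^ E * Z * ∏ j ∈ s, u j ^ e := by
      have := dvd_add hE h2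
      rwa [sub_add_cancel] at this
    rw [add_comm, pow_add, mul_assoc] at h3
    have h4 := (mul_dvd_mul_iff_left (pow_ne_zero E hX0)).1 h3
    exact hp.pow_dvd_of_dvd_mul_right M hu h4

end exp

end Pool.Agent.Lib.MP_64d474_lc.Lin61
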