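import Pool.Agent.Lib.MP_64d474_lc.GF.LinPkg61

/-!
# Sums of arbitrarily many fractions with bounded denominators in few affine forms
-/

set_option autoImplicit false

namespace Pool.Agent.Lib.MP_64d474_lc.Lin61

open Finset Polynomial

universe u

section main

set_option linter.unusedSectionVars false

variable {σ : Type} [Fintype σ] [DecidableEq σ]

/-- The degrees of the conditions. -/
def bd : ℕ → ℕ → ℕ → ℕ
  | 0, _, N => N
  | δ + 1, e, N => max (max N (δ + 1))
      (bd δ (e + e * (δ + 1)) (N + e * (δ + 1) + e * (δ + 1) * (δ + 1)))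

theorem le_bd : ∀ (δ e N : ℕ), max N δ ≤ bd δ e N
  | 0, _, N => by simp [bd]
  | δ + 1, e, N => by rw [bd]; exact le_max_left _ _

theorem num_congr {R ι : Type*} [CommRing R] [DecidableEq ι] {s : Finset ι} (e : ℕ)
    {A A' h h' : ι → R} (hA : ∀ i ∈ s, A i = A' i) (hh : ∀ i ∈ s, h i = h' i) :
    num s e A h = num s e A' h' := by
  unfold num
  refine Finset.sum_congr rfl fun i hi => ?_
  rw [hA i hi]
  congr 1
  exact Finset.prod_congr rfl fun j hj => by rw [hh j (Finset.mem_of_mem_erase hj)]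

theorem eval_rs {K : Type u} [Field K] (I : Finset σ) (o : σ → K) (p : MvPolynomial σ K) :
    MvPolynomial.eval o (rs I o p) = MvPolynomial.eval o p := by
  have h : (MvPolynomial.eval o).comp (rs I o).toRingHom = MvPolynomial.eval o := by
    apply MvPolynomial.ringHom_ext
    · intro r
      simp [rs]
    · intro i
      simp only [rs, RingHom.comp_apply, AlgHom.toRingHom_eq_coe, RingHom.coe_coe,
        MvPolynomial.aeval_X]
      split_ifs <;> simp
  exact congrArg (fun f => f p) h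

theorem pf_of_dvd {K : Type u} [Field K] {ι : Type} [DecidableEq ι] (δ e N : ℕ) (s : Finset ι)
    (A h : ι → MvPolynomial σ K) (hh : ∀ i ∈ s, h i ≠ 0) (hd : ∀ i ∈ s, (h i).totalDegree ≤ δ)
    (hA : ∀ i ∈ s, (A i).totalDegree ≤ N) (hnum : num s e A h ≠ 0)
    (hdv : (∏ j ∈ s, h j ^ e) ∣ num s e A h) :
    ∃ I : Finset σ, I.card = 0 ∧ ∃ BB : Finset (MvPolynomial σ K),
      (∀ b ∈ BB, b ≠ 0 ∧ b.totalDegree ≤ bd δ e N) ∧
      ∀ o : σ → K, (∀ b ∈ BB, MvPolynomial.eval o b ≠ 0) → rs I o (num s e A h) ≠ 0 := by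
  classical
  have hH : (∏ j ∈ s, h j ^ e) ≠ 0 :=
    Finset.prod_ne_zero_iff.2 fun j hj => pow_ne_zero _ (hh j hj)
  obtain ⟨P, hP⟩ := hdv
  have hP0 : P ≠ 0 := by
    rintro rfl
    exact hnum (by rw [hP, mul_zero])
  have hdeg : (num s e A h).totalDegree ≤ N + (∏ j ∈ s, h j ^ e).totalDegree := by
    unfold num
    refine (MvPolynomial.totalDegree_finsetSum _ _).trans (Finset.sup_le fun i hi => ?_)
    refine (MvPolynomial.totalDegree_mul _ _).trans (Nat.add_le_add (hA i hi) ?_)
    refine MvPolynomial.totalDegree_le_of_dvd_of_isDomain ?_ hH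
    exact Finset.prod_dvd_prod_of_subset _ _ _ (Finset.erase_subset _ _)
  have hPdeg : P.totalDegree ≤ N := by
    rw [hP, MvPolynomial.totalDegree_mul_of_isDomain hH hP0] at hdeg
    omega
  refine ⟨∅, rfl, insert P (s.image h), ?_, ?_⟩
  · intro b hb
    rcases Finset.mem_insert.1 hb with rfl | hb
    · exact ⟨hP0, hPdeg.trans ((le_max_left _ _).trans (le_bd δ e N))⟩
    · obtain ⟨i, hi, rfl⟩ := Finset.mem_image.1 hb
      exact ⟨hh i hi, (hd i hi).trans ((le_max_right _ _).trans (le_bd δ e N))⟩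
  · intro o ho h0
    have h1 := eval_rs ∅ o (num s e A h)
    rw [h0, map_zero, hP, map_mul, map_prod] at h1
    have h2 := mul_eq_zero.1 h1.symm
    rcases h2 with h2 | h2
    · obtain ⟨j, hj, h3⟩ := Finset.prod_eq_zero_iff.1 h2
      rw [map_pow] at h3
      exact ho (h j) (Finset.mem_insert_of_mem (Finset.mem_image_of_mem _ hj))
        (eq_zero_of_pow_eq_zero h3)
    · exact ho P (Finset.mem_insert_self _ _) h2

/-- A nonzero sum of fractions with bounded denominators in few affine forms does not vanish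
on a generic coordinate plane of bounded dimension. -/
theorem pf (W : ℕ) : ∀ (δ : ℕ) (K : Type u) [Field K] (e N : ℕ) {ι : Type} [DecidableEq ι]
    (s : Finset ι) (A h : ι → MvPolynomial σ K), (∀ i ∈ s, h i ≠ 0) →
    (∀ i ∈ s, (h i).totalDegree ≤ δ) → (∀ i ∈ s, Few W (h i)) →
    (∀ i ∈ s, (A i).totalDegree ≤ N) → num s e A h ≠ 0 →
    ∃ I : Finset σ, I.card ≤ W * δ ∧ ∃ BB : Finset (MvPolynomial σ K),
      (∀ b ∈ BB, b ≠ 0 ∧ b.totalDegree ≤ bd δ e N) ∧
      ∀ o : σ → K, (∀ b ∈ BB, MvPolynomial.eval o b ≠ 0) → rs I o (num s e A h) ≠ 0 := by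
  classical
  intro δ
  induction δ with
  | zero =>
    intro K _ e N ι _ s A h hh hd hf hA hnum
    have hu : IsUnit (∏ j ∈ s, h j ^ e) := by
      refine Finset.prod_induction _ (fun x => IsUnit x) (fun x y hx hy => hx.mul hy) isUnit_one ?_
      intro j hj
      refine IsUnit.pow _ ?_
      have h1 := MvPolynomial.totalDegree_eq_zero_iff_eq_C.1 (Nat.le_zero.1 (hd j hj))
      have h2 : MvPolynomial.coeff 0 (h j) ≠ 0 := by
        intro h0
        apply hh j hj
        rw [h1, h0, MvPolynomial.C_0]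
      rw [h1]
      exact (isUnit_iff_ne_zero.2 h2).map MvPolynomial.C
    obtain ⟨I, hI, BB, h1, h2⟩ := pf_of_dvd 0 e N s A h hh hd hA hnum hu.dvd
    exact ⟨I, by omega, BB, h1, h2⟩
  | succ δ ih =>
    intro K _ e N ι _ s A h hh hd hf hA hnum
    by_cases hdv : (∏ j ∈ s, h j ^ e) ∣ num s e A h
    · obtain ⟨I, hI, BB, h1, h2⟩ := pf_of_dvd (δ + 1) e N s A h hh hd hA hnum hdv
      exact ⟨I, by omega, BB, h1, h2⟩
    have hH : (∏ j ∈ s, h j ^ e) ≠ 0 :=
      Finset.prod_ne_zero_iff.2 fun j hj => pow_ne_zero _ (hh j hj)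
    obtain ⟨b, hb, n, hn1, hn2⟩ : ∃ b, Prime b ∧ ∃ n, b ^ n ∣ ∏ j ∈ s, h j ^ e ∧
        ¬ b ^ n ∣ num s e A h := by
      by_contra hno
      push Not at hno
      apply hdv
      rw [UniqueFactorizationMonoid.dvd_iff_emultiplicity_le hH]
      intro p hp
      rw [emultiplicity_le_emultiplicity_iff]
      exact fun n hn => hno p hp n hn
    have hn0 : n ≠ 0 := by rintro rfl; exact hn2 (by simp)
    obtain ⟨i₀, hi₀, hbi⟩ : ∃ i ∈ s, b ∣ h i := by
      have h1 : b ∣ ∏ j ∈ s, h j ^ e := (dvd_pow_self b hn0).trans hn1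
      obtain ⟨i, hi, h2⟩ := (hb.dvd_finsetProd_iff _).1 h1
      exact ⟨i, hi, hb.dvd_of_dvd_pow h2⟩
    obtain ⟨J, Ω, _, _, a, κ, hJ, ha, hout, hb0, hbne, hnd⟩ :=
      exists_package (hh i₀ hi₀) (hf i₀ hi₀) hb.irreducible hbi
    set Θ : MvPolynomial σ K →ₐ[K] (MvPolynomial σ Ω)[X] := Th a κ with hΘ
    have hXp : Prime (X : (MvPolynomial σ Ω)[X]) := prime_X
    have hfac : ∀ x : MvPolynomial σ K, x ≠ 0 → ∃ (m : ℕ) (x' : MvPolynomial σ K),
        x = b ^ m * x' ∧ ¬ b ∣ x' ∧ ¬ (X : (MvPolynomial σ Ω)[X]) ∣ Θ x' := by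
      intro x hx
      obtain ⟨x', hx', hnx⟩ :=
        (FiniteMultiplicity.of_not_isUnit hb.not_isUnit hx).exists_eq_pow_mul_and_not_dvd
      refine ⟨_, x', hx', hnx, ?_⟩
      rw [X_dvd_iff]
      exact hnd x' hnx
    have hΘne : ∀ x : MvPolynomial σ K, x ≠ 0 → Θ x ≠ 0 := by
      intro x hx
      obtain ⟨m, x', hx', _, hnx⟩ := hfac x hx
      rw [hx', map_mul, map_pow]
      refine mul_ne_zero (pow_ne_zero _ hbne) ?_
      intro h0
      exact hnx (by rw [h0]; exact dvd_zero _)
    -- the unit parts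
    have hex : ∀ j, ∃ x : (MvPolynomial σ Ω)[X], h j ≠ 0 →
        (Θ (h j) = X ^ (Θ (h j)).natTrailingDegree * x ∧ x.coeff 0 ≠ 0 ∧
          ∀ k, x.coeff k = (Θ (h j)).coeff (k + (Θ (h j)).natTrailingDegree)) := by
      intro j
      by_cases hj : h j = 0
      · exact ⟨0, fun hne => absurd hj hne⟩
      · obtain ⟨x, hx⟩ := exists_unit_part (hΘne _ hj)
        exact ⟨x, fun _ => hx⟩
    choose u hu using hex
    set μ : ι → ℕ := fun j => (Θ (h j)).natTrailingDegree with hμ
    have hu1 : ∀ j ∈ s, Θ (h j) = X ^ μ j * u j := fun j hj => (hu j (hh j hj)).1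
    have hu2 : ∀ j ∈ s, (u j).coeff 0 ≠ 0 := fun j hj => (hu j (hh j hj)).2.1
    have hu3 : ∀ j ∈ s, ∀ k, (u j).coeff k = (Θ (h j)).coeff (k + μ j) :=
      fun j hj => (hu j (hh j hj)).2.2
    have hfilt : ∀ j ∈ s, ∀ k, (u j).coeff k ∈ AK.filtJ Ω σ (δ + 1) (k + μ j) := by
      intro j hj k
      rw [hu3 j hj]
      exact AK.filtJ_mono (hd j hj) (Th_mem ha κ (h j) _)
    have hfew : ∀ j ∈ s, Few W ((Θ (h j)).coeff (0 + μ j)) := by
      intro j hj
      exact few_coeff ha κ (hf j hj) (0 + μ j)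
    have hfew' : ∀ j ∈ s, Few W ((u j).coeff 0) := by
      intro j hj
      have h1 := hu3 j hj 0
      have h2 := hfew j hj
      exact h1 ▸ h2
    have hPPdeg : ∀ j ∈ s, ∀ t, ((PP e (e * (δ + 1)) (e * (δ + 1)) (fun i => Θ (A i)) u μ j).coeff
        t).totalDegree ≤ N + e * (δ + 1) + e * (δ + 1) * (δ + 1) := by
      intro j hj t
      have h1 : Θ (A j) ∈ AK.filtX Ω σ N := AK.filtX_mono (hA j hj) (Th_mem ha κ (A j))
      have h2 : u j ∈ AK.filtX Ω σ (δ + 1) := by
        intro k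
        rcases hfilt j hj k with h3 | h3
        · left; exact h3
        · right; exact (Nat.add_le_add_left (Nat.le_add_right k (μ j)) _).trans h3
      exact PP_mem (ι := ι) (e := e) (k := e * (δ + 1)) (M := e * (δ + 1)) (n := N) (δ := δ + 1)
        (N := fun i => Θ (A i)) (u := u) (μ := μ) (i := j) h1 h2 t
    have hμle : ∀ j ∈ s, μ j ≤ δ + 1 := by
      intro j hj
      rcases hfilt j hj 0 with h1 | h1
      · exact absurd h1 (hu2 j hj)
      · omega
    -- the sum has a pole at `X = 0`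
    have hpole : ¬ (X : (MvPolynomial σ Ω)[X]) ^ (e * ∑ i ∈ s, μ i) ∣ Θ (num s e A h) := by
      intro hdiv
      obtain ⟨m, x', hx', hnb, hnx⟩ := hfac _ hnum
      have hmn : m < n := by
        by_contra hle
        push Not at hle
        apply hn2
        rw [hx']
        exact (pow_dvd_pow b hle).trans (Dvd.intro _ rfl)
      obtain ⟨β, hβ, hβ0, _⟩ := exists_unit_part hbne
      set g := (Θ b).natTrailingDegree with hg
      have hg0 : g ≠ 0 := by
        intro h0
        rw [h0, pow_zero, one_mul] at hβ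
        rw [hβ] at hb0
        exact hβ0 hb0
      have hβX : ¬ (X : (MvPolynomial σ Ω)[X]) ∣ β := by rw [X_dvd_iff]; exact hβ0
      have h1 : (X : (MvPolynomial σ Ω)[X]) ^ (e * ∑ i ∈ s, μ i) ∣ X ^ (g * m) := by
        rw [hx', map_mul, map_pow] at hdiv
        have h2 := hXp.pow_dvd_of_dvd_mul_right _ hnx hdiv
        rw [hβ, mul_pow, ← pow_mul] at h2
        exact hXp.pow_dvd_of_dvd_mul_right _ (fun h3 => hβX (hXp.dvd_of_dvd_pow h3)) h2
      have h4 : (X : (MvPolynomial σ Ω)[X]) ^ (g * n) ∣ X ^ (e * ∑ i ∈ s, μ i) := by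
        have h5 : (X : (MvPolynomial σ Ω)[X]) ^ (g * n) ∣ Θ (∏ j ∈ s, h j ^ e) := by
          refine dvd_trans ?_ (map_dvd Θ hn1)
          rw [map_pow, hβ, mul_pow, ← pow_mul]
          exact Dvd.intro _ rfl
        have h6 : Θ (∏ j ∈ s, h j ^ e) = X ^ (e * ∑ i ∈ s, μ i) * ∏ j ∈ s, u j ^ e := by
          rw [map_prod, mul_sum, ← prod_pow_eq_pow_sum, ← prod_mul_distrib]
          refine Finset.prod_congr rfl fun j hj => ?_
          rw [map_pow, hu1 j hj, mul_pow, ← pow_mul, mul_comm (μ j) e]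
        rw [h6] at h5
        refine hXp.pow_dvd_of_dvd_mul_right _ (fun h7 => ?_) h5
        obtain ⟨j, hj, h8⟩ := (hXp.dvd_finsetProd_iff _).1 h7
        exact hu2 j hj (X_dvd_iff.1 (hXp.dvd_of_dvd_pow h8))
      have h9 := h4.trans h1
      have hX1 : ¬ IsUnit (X : (MvPolynomial σ Ω)[X]) := hXp.not_isUnit
      rw [pow_dvd_pow_iff hXp.ne_zero hX1] at h9
      have h10 := Nat.le_of_mul_le_mul_left h9 (Nat.pos_of_ne_zero hg0)
      omega
    have hΘnum : Θ (num s e A h) = num s e (fun i => Θ (A i)) (fun i => X ^ μ i * u i) := by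
      have h1 := map_num Θ.toRingHom s e A h
      refine Eq.trans h1 (num_congr e (fun i _ => rfl) fun i hi => ?_)
      exact hu1 i hi
    have hM : ∀ i ∈ s, e * μ i ≤ e * (δ + 1) := fun i hi => Nat.mul_le_mul_left _ (hμle i hi)
    have hexp := expansion s e (e * (δ + 1)) (e * (δ + 1)) (fun i => Θ (A i)) u μ hM
      (Nat.le_succ _) hu2
    rw [← hΘnum] at hexp
    obtain ⟨t, ht, hne⟩ : ∃ t < e * (δ + 1), num (s.filter fun i => μ i ≠ 0) (e + e * (δ + 1))
        (fun i => (PP e (e * (δ + 1)) (e * (δ + 1)) (fun i => Θ (A i)) u μ i).coeff t)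
        (fun i => (u i).coeff 0) ≠ 0 := by
      by_contra hno
      push Not at hno
      exact hpole (hexp.1 hno)
    obtain ⟨I', hI', BB', hBB', hfin⟩ := ih Ω (e + e * (δ + 1))
      (N + e * (δ + 1) + e * (δ + 1) * (δ + 1)) (s.filter fun i => μ i ≠ 0)
      (fun i => (PP e (e * (δ + 1)) (e * (δ + 1)) (fun i => Θ (A i)) u μ i).coeff t)
      (fun i => (u i).coeff 0)
      (fun i hi => hu2 i (Finset.mem_filter.1 hi).1)
      (fun i hi => by
        obtain ⟨hi1, hi2⟩ := Finset.mem_filter.1 hi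
        rcases hfilt i hi1 0 with h1 | h1
        · exact absurd h1 (hu2 i hi1)
        · have : μ i ≠ 0 := hi2
          omega)
      (fun i hi => hfew' i (Finset.mem_filter.1 hi).1)
      (fun i hi => hPPdeg i (Finset.mem_filter.1 hi).1 t)
      hne
    -- descent of the conditions
    have hdes : ∀ x : MvPolynomial σ Ω, ∃ y : MvPolynomial σ K, x ≠ 0 → (y ≠ 0 ∧
        y.totalDegree ≤ x.totalDegree ∧ ∀ o : σ → K, MvPolynomial.eval o y ≠ 0 →
          MvPolynomial.eval (fun i => algebraMap K Ω (o i)) x ≠ 0) := by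
      intro x
      by_cases hx : x = 0
      · exact ⟨0, fun hne => absurd hx hne⟩
      · obtain ⟨y, hy⟩ := exists_descent (K := K) x hx
        exact ⟨y, fun _ => hy⟩
    choose D hD using hdes
    refine ⟨J ∪ I', ?_, BB'.image D ∪ s.image fun j => D ((u j).coeff 0), ?_, ?_⟩
    · have h1 := Finset.card_union_le J I'
      rw [Nat.mul_succ]
      omega
    · intro x hx
      rcases Finset.mem_union.1 hx with hx | hx
      · obtain ⟨y, hy, rfl⟩ := Finset.mem_image.1 hx
        obtain ⟨h1, h2⟩ := hBB' y hy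
        obtain ⟨h3, h4, _⟩ := hD y h1
        exact ⟨h3, h4.trans (h2.trans (by rw [bd]; exact le_max_right _ _))⟩
      · obtain ⟨j, hj, rfl⟩ := Finset.mem_image.1 hx
        obtain ⟨h3, h4, _⟩ := hD _ (hu2 j hj)
        refine ⟨h3, h4.trans ?_⟩
        have h5 : ((u j).coeff 0).totalDegree ≤ δ + 1 := by
          rcases hfilt j hj 0 with h1 | h1
          · exact absurd h1 (hu2 j hj)
          · omega
        exact h5.trans ((le_max_right _ _).trans (le_bd (δ + 1) e N))
    intro o ho h0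
    set φ := rs I' (fun i => algebraMap K Ω (o i)) with hφ
    let Θ' : MvPolynomial σ K →+* (MvPolynomial σ Ω)[X] :=
      (Polynomial.mapRingHom φ.toRingHom).comp Θ.toRingHom
    have hΘ' : ∀ p, Θ' p = (Θ p).map φ.toRingHom := fun p => rfl
    have hkey : ∀ p, Θ' (rs (J ∪ I') o p) = Θ' p := by
      intro p
      have h1 : Θ'.comp (rs (J ∪ I') o).toRingHom = Θ' := by
        apply MvPolynomial.ringHom_ext
        · intro r
          simp [rs]
        · intro i
          rw [RingHom.comp_apply]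
          have h2 : (rs (J ∪ I') o).toRingHom (MvPolynomial.X i) =
              if i ∈ J ∪ I' then MvPolynomial.X i else MvPolynomial.C (o i) := by
            simp [rs]
          rw [h2]
          split_ifs with hi
          · rfl
          · rw [Finset.mem_union, not_or] at hi
            rw [hΘ', hΘ', hΘ, Th_C, Th_X, (hout i hi.1).1, (hout i hi.1).2]
            rw [MvPolynomial.C_0, Polynomial.C_0, mul_zero, add_zero, Polynomial.map_C,
              Polynomial.map_C]
            congr 1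
            simp [hφ, rs, hi.2]
      exact congrArg (fun f => f p) h1
    have h1 := hkey (num s e A h)
    rw [h0, map_zero, hΘ', hΘnum] at h1
    have h2 := map_num (Polynomial.mapRingHom φ.toRingHom) s e (fun i => Θ (A i))
      (fun i => X ^ μ i * u i)
    have h3 : num s e (fun i => (Θ (A i)).map φ.toRingHom)
        (fun i => X ^ μ i * (u i).map φ.toRingHom) = 0 := by
      refine Eq.trans (Eq.trans (num_congr e (fun i _ => rfl) fun i hi => ?_) h2.symm) h1.symm
      simp
    have hc' : ∀ i ∈ s, ((u i).map φ.toRingHom).coeff 0 ≠ 0 := by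
      intro i hi h4
      rw [coeff_map] at h4
      have h5 := eval_rs I' (fun i => algebraMap K Ω (o i)) ((u i).coeff 0)
      have h6 : rs I' (fun i => algebraMap K Ω (o i)) ((u i).coeff 0) = 0 := h4
      rw [h6, map_zero] at h5
      refine (hD _ (hu2 i hi)).2.2 o (ho _ ?_) h5.symm
      exact Finset.mem_union_right _ (Finset.mem_image_of_mem _ hi)
    have hexp' := (expansion s e (e * (δ + 1)) (e * (δ + 1))
      (fun i => (Θ (A i)).map φ.toRingHom) (fun i => (u i).map φ.toRingHom) μ hM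
      (Nat.le_succ _) hc').2 (by rw [h3]; exact dvd_zero _) t ht
    refine hfin (fun i => algebraMap K Ω (o i)) (fun x hx => ?_) ?_
    · exact (hD x (hBB' x hx).1).2.2 o
        (ho _ (Finset.mem_union_left _ (Finset.mem_image_of_mem _ hx)))
    · have h7 := map_num φ.toRingHom (s.filter fun i => μ i ≠ 0) (e + e * (δ + 1))
        (fun i => (PP e (e * (δ + 1)) (e * (δ + 1)) (fun i => Θ (A i)) u μ i).coeff t)
        (fun i => (u i).coeff 0)
      refine Eq.trans h7 (Eq.trans (num_congr _ (fun i _ => ?_) fun i _ => ?_) hexp')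
      · rw [← PP_map, coeff_map]
      · rw [coeff_map]

end main

end Pool.Agent.Lib.MP_64d474_lc.Lin61
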