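import Pool.Agent.Lib.MP_64d474_lc.GF.LinDeg61

/-!
# The generic point of an irreducible hypersurface that depends on few affine forms
-/

set_option autoImplicit false

namespace Pool.Agent.Lib.MP_64d474_lc.Lin61

open Finset Polynomial

universe u

section pkg

set_option linter.unusedSectionVars false

variable {K : Type u} [Field K] {σ : Type} [Fintype σ] [DecidableEq σ]

theorem supported_of_dvd {J : Finset σ} {p q : MvPolynomial σ K} (hq : q ≠ 0) (h : p ∣ q)
    (hs : q ∈ MvPolynomial.supported K (J : Set σ)) :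
    p ∈ MvPolynomial.supported K (J : Set σ) := by
  obtain ⟨r, rfl⟩ := h
  have hp : p ≠ 0 := left_ne_zero_of_mul hq
  have hr : r ≠ 0 := right_ne_zero_of_mul hq
  rw [MvPolynomial.mem_supported] at hs ⊢
  refine subset_trans ?_ hs
  intro i hi
  simp only [Finset.mem_coe] at hi ⊢
  rw [MvPolynomial.mem_vars_iff_degreeOf_ne_zero] at hi ⊢
  rw [MvPolynomial.degreeOf_mul_eq hp hr]
  omega

/-- An irreducible polynomial really moves along some coordinate direction. -/
theorem exists_direction {J : Finset σ} {b : MvPolynomial σ K}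
    (hb : ∀ c : K, b ≠ MvPolynomial.C c) (hs : b ∈ MvPolynomial.supported K (J : Set σ)) :
    ∃ j ∈ J, ∃ k, k ≠ 0 ∧
      (Th (K := K) (L := K) (fun i => MvPolynomial.X i) (Pi.single j 1) b).coeff k ≠ 0 := by
  by_contra hno
  push Not at hno
  -- `b` does not change when a variable of `J` is put equal to zero
  have h1 : ∀ j ∈ J, rep j 0 b = b := by
    intro j hj
    have h2 : Th (K := K) (L := K) (fun i => MvPolynomial.X i) (Pi.single j 1) b = C b := by
      ext1 k
      rw [coeff_C]
      split_ifs with hk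
      · subst hk
        have h3 : (Polynomial.constantCoeff.comp
            (Th (K := K) (L := K) (fun i => MvPolynomial.X i) (Pi.single j 1)).toRingHom) =
            RingHom.id _ := by
          apply MvPolynomial.ringHom_ext
          · intro r
            simp [Th_C]
          · intro i
            simp [Th_X]
        exact congrArg (fun f => f b) h3
      · exact hno j hj k hk
    let ev : (MvPolynomial σ K)[X] →+* MvPolynomial σ K :=
      Polynomial.eval₂RingHom (rep j 0).toRingHom (MvPolynomial.X j)
    have h4 : (ev.comp (Th (K := K) (L := K) (fun i => MvPolynomial.X i) (Pi.single j 1)).toRingHom)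
        = RingHom.id _ := by
      apply MvPolynomial.ringHom_ext
      · intro r
        simp [ev, Th_C]
      · intro i
        by_cases hi : i = j
        · subst hi
          simp [ev, Th_X, rep_X_self]
        · simp [ev, Th_X, rep_X_ne hi, Pi.single_eq_of_ne hi]
    have h5 := congrArg (fun f => f b) h4
    have h6 : ev (C b) = rep j 0 b := by simp [ev]
    have h7 : ev (Th (K := K) (L := K) (fun i => MvPolynomial.X i) (Pi.single j 1) b) = b := h5
    rw [h2, h6] at h7
    exact h7
  -- so it is constant
  have h8 : ∀ i, i ∉ b.vars := by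
    intro i hi
    have hiJ : i ∈ J := by
      have := (MvPolynomial.mem_supported.1 hs) (Finset.mem_coe.2 hi)
      exact Finset.mem_coe.1 this
    rw [MvPolynomial.mem_vars_iff_degreeOf_ne_zero] at hi
    apply hi
    have h9 := h1 i hiJ
    have h10 : rep i 0 b ∈ MvPolynomial.supported K ((univ.erase i : Finset σ) : Set σ) := by
      have h11 : ∀ p : MvPolynomial σ K,
          rep i 0 p ∈ MvPolynomial.supported K ((univ.erase i : Finset σ) : Set σ) := by
        intro p
        induction p using MvPolynomial.induction_on with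
        | C r =>
          rw [MvPolynomial.algHom_C]
          exact Subalgebra.algebraMap_mem _ _
        | add p q hp hq => rw [map_add]; exact Subalgebra.add_mem _ hp hq
        | mul_X p n hp =>
          rw [map_mul]
          refine Subalgebra.mul_mem _ hp ?_
          by_cases hn : n = i
          · subst hn; rw [rep_X_self]; exact Subalgebra.zero_mem _
          · rw [rep_X_ne hn]
            exact Algebra.subset_adjoin ⟨n, by simp [hn], rfl⟩
      exact h11 b
    rw [h9, MvPolynomial.mem_supported] at h10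
    by_contra hd
    have := h10 (Finset.mem_coe.2 (MvPolynomial.mem_vars_iff_degreeOf_ne_zero.2 hd))
    simp at this
  have h12 : b.vars = ∅ := Finset.eq_empty_of_forall_notMem h8
  rw [MvPolynomial.vars_eq_empty_iff_eq_C] at h12
  exact hb _ h12

/-- The package. -/
theorem exists_package {W : ℕ} {h b : MvPolynomial σ K} (hh : h ≠ 0) (hf : Few W h)
    (hb : Irreducible b) (hbh : b ∣ h) :
    ∃ (J : Finset σ) (Ω : Type u) (_ : Field Ω) (_ : Algebra K Ω) (a : σ → MvPolynomial σ Ω)
      (κ : σ → Ω), J.card ≤ W ∧ (∀ i, (a i).totalDegree ≤ 1) ∧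
      (∀ i, i ∉ J → a i = MvPolynomial.X i ∧ κ i = 0) ∧
      (Th (K := K) a κ b).coeff 0 = 0 ∧ Th (K := K) a κ b ≠ 0 ∧
      ∀ x, ¬ b ∣ x → (Th (K := K) a κ x).coeff 0 ≠ 0 := by
  obtain ⟨J, τ, hJ, hdeg, hX, hsup⟩ := few_shear hf
  set b₀ := τ b with hb₀
  have hb₀irr : Irreducible b₀ := (MulEquiv.irreducible_iff τ.toMulEquiv).2 hb
  have hτh : τ h ≠ 0 := by
    intro h0
    exact hh ((map_eq_zero_iff τ τ.injective).1 h0)
  have hb₀sup : b₀ ∈ MvPolynomial.supported K (J : Set σ) :=
    supported_of_dvd hτh (map_dvd τ hbh) hsup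
  have hb₀prime : Prime b₀ := UniqueFactorizationMonoid.irreducible_iff_prime.1 hb₀irr
  have hb₀ne : b₀ ≠ 0 := hb₀irr.ne_zero
  have hnc : ∀ c : K, b₀ ≠ MvPolynomial.C c := by
    intro c hc
    apply hb₀irr.not_isUnit
    rw [hc]
    have : c ≠ 0 := by
      rintro rfl
      apply hb₀ne
      rw [hc, MvPolynomial.C_0]
    exact (isUnit_iff_ne_zero.2 this).map MvPolynomial.C
  obtain ⟨j₁, hj₁, k, hk, hkne⟩ := exists_direction hnc hb₀sup
  haveI : (Ideal.span {b₀}).IsPrime := (Ideal.span_singleton_prime hb₀ne).2 hb₀prime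
  let Q := MvPolynomial σ K ⧸ Ideal.span {b₀}
  let Ω := FractionRing Q
  let η : σ → Ω := fun i => algebraMap Q Ω (Ideal.Quotient.mk _ (MvPolynomial.X i))
  have hη : ∀ p : MvPolynomial σ K, MvPolynomial.aeval η p =
      algebraMap Q Ω (Ideal.Quotient.mk (Ideal.span {b₀}) p) := by
    intro p
    have h1 : (MvPolynomial.aeval η : MvPolynomial σ K →ₐ[K] Ω).toRingHom =
        (algebraMap Q Ω).comp (Ideal.Quotient.mk (Ideal.span {b₀})) := by
      apply MvPolynomial.ringHom_ext
      · intro r
        simp only [AlgHom.toRingHom_eq_coe, RingHom.coe_coe, MvPolynomial.algHom_C,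
          RingHom.comp_apply]
        rfl
      · intro i
        simp [η]
    exact congrArg (fun f => f p) h1
  have hη0 : ∀ p : MvPolynomial σ K, MvPolynomial.aeval η p = 0 ↔ b₀ ∣ p := by
    intro p
    rw [hη, map_eq_zero_iff _ (IsFractionRing.injective Q Ω), Ideal.Quotient.eq_zero_iff_mem,
      Ideal.mem_span_singleton]
  -- the base substitution
  let ψ : MvPolynomial σ K →ₐ[K] MvPolynomial σ Ω :=
    MvPolynomial.aeval fun i => if i ∈ J then MvPolynomial.C (η i) else MvPolynomial.X i
  have hψX : ∀ i, ψ (MvPolynomial.X i) =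
      if i ∈ J then MvPolynomial.C (η i) else MvPolynomial.X i := fun i => by simp [ψ]
  have hψC : ∀ r : K, ψ (MvPolynomial.C r) = MvPolynomial.C (algebraMap K Ω r) := fun r => by
    rw [MvPolynomial.algHom_C]; rfl
  let a : σ → MvPolynomial σ Ω := fun i => ψ (τ (MvPolynomial.X i))
  let κ : σ → Ω := fun i =>
    algebraMap K Ω (MvPolynomial.coeff (Finsupp.single j₁ 1) (τ (MvPolynomial.X i)))
  -- the base substitution with the new variable
  let Θ₀ : MvPolynomial σ K →ₐ[K] (MvPolynomial σ Ω)[X] :=
    Th (K := K) (fun i => if i ∈ J then MvPolynomial.C (η i) else MvPolynomial.X i)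
      (Pi.single j₁ 1)
  have hΘ₀aff : ∀ p : MvPolynomial σ K, p.totalDegree ≤ 1 →
      Θ₀ p = C (ψ p) + X * C (MvPolynomial.C
        (algebraMap K Ω (MvPolynomial.coeff (Finsupp.single j₁ 1) p))) := by
    intro p hp
    have h1 := affine_eq hp
    have h2 : Θ₀ p = Θ₀ (MvPolynomial.C (MvPolynomial.coeff 0 p)) +
        ∑ i, Θ₀ (MvPolynomial.C (MvPolynomial.coeff (Finsupp.single i 1) p)) *
          Θ₀ (MvPolynomial.X i) := by
      conv_lhs => rw [h1]
      rw [map_add, map_sum]
      congr 1
      exact Finset.sum_congr rfl fun i _ => by rw [map_mul]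
    have h3 : ψ p = ψ (MvPolynomial.C (MvPolynomial.coeff 0 p)) +
        ∑ i, ψ (MvPolynomial.C (MvPolynomial.coeff (Finsupp.single i 1) p)) *
          ψ (MvPolynomial.X i) := by
      conv_lhs => rw [h1]
      rw [map_add, map_sum]
      congr 1
      exact Finset.sum_congr rfl fun i _ => by rw [map_mul]
    rw [h2, h3]
    have h4 : ∀ i, Θ₀ (MvPolynomial.C (MvPolynomial.coeff (Finsupp.single i 1) p)) *
        Θ₀ (MvPolynomial.X i) =
        C (ψ (MvPolynomial.C (MvPolynomial.coeff (Finsupp.single i 1) p)) *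
          ψ (MvPolynomial.X i)) +
        (if i = j₁ then X * C (MvPolynomial.C
          (algebraMap K Ω (MvPolynomial.coeff (Finsupp.single j₁ 1) p))) else 0) := by
      intro i
      rw [hψC, hψX]
      show Th _ _ _ * Th _ _ _ = _
      rw [Th_C, Th_X, mul_add, ← C_mul]
      congr 1
      by_cases hi : i = j₁
      · subst hi
        rw [if_pos rfl, Pi.single_eq_same]
        simp only [MvPolynomial.C_1, map_one, mul_one]
        exact mul_comm _ _
      · rw [if_neg hi, Pi.single_eq_of_ne hi]
        simp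
    rw [Finset.sum_congr rfl fun i _ => h4 i, Finset.sum_add_distrib, Finset.sum_ite_eq' univ j₁,
      if_pos (mem_univ _), map_add, map_sum]
    have h5 : Θ₀ (MvPolynomial.C (MvPolynomial.coeff 0 p)) =
        C (ψ (MvPolynomial.C (MvPolynomial.coeff 0 p))) := by
      rw [hψC]; exact Th_C _ _ _
    rw [h5]
    ring
  have hΘ : ∀ p : MvPolynomial σ K, Th (K := K) a κ p = Θ₀ (τ p) := by
    intro p
    have h1 : Th (K := K) a κ = Θ₀.comp (τ : MvPolynomial σ K →ₐ[K] MvPolynomial σ K) := by
      apply MvPolynomial.algHom_ext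
      intro i
      rw [Th_X, AlgHom.comp_apply]
      show _ = Θ₀ (τ (MvPolynomial.X i))
      rw [hΘ₀aff _ ((hdeg _).trans (by rw [MvPolynomial.totalDegree_X]))]
    exact congrArg (fun f => f p) h1
  have hΘ₀0 : ∀ p, (Θ₀ p).coeff 0 = ψ p := by
    intro p
    have h1 : (Polynomial.constantCoeff.comp Θ₀.toRingHom) = ψ.toRingHom := by
      apply MvPolynomial.ringHom_ext
      · intro r
        simp only [RingHom.comp_apply, AlgHom.toRingHom_eq_coe, RingHom.coe_coe]
        rw [hψC]
        show (Th _ _ _).coeff 0 = _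
        rw [Th_C, coeff_C_zero]
      · intro i
        simp only [RingHom.comp_apply, AlgHom.toRingHom_eq_coe, RingHom.coe_coe]
        rw [hψX]
        show (Th _ _ _).coeff 0 = _
        rw [Th_X]
        simp
    exact congrArg (fun f => f p) h1
  have hψη : ∀ p, MvPolynomial.eval η (ψ p) = MvPolynomial.aeval η p := by
    intro p
    have h1 : ((MvPolynomial.eval η).comp ψ.toRingHom) =
        (MvPolynomial.aeval η : MvPolynomial σ K →ₐ[K] Ω).toRingHom := by
      apply MvPolynomial.ringHom_ext
      · intro r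
        simp only [RingHom.comp_apply, AlgHom.toRingHom_eq_coe, RingHom.coe_coe]
        rw [hψC, MvPolynomial.eval_C, MvPolynomial.algHom_C]
      · intro i
        simp only [RingHom.comp_apply, AlgHom.toRingHom_eq_coe, RingHom.coe_coe]
        rw [hψX]
        split_ifs <;> simp
    exact congrArg (fun f => f p) h1
  have hψsup : ∀ p ∈ MvPolynomial.supported K (J : Set σ),
      ψ p = MvPolynomial.C (MvPolynomial.aeval η p) := by
    intro p hp
    refine Algebra.adjoin_induction (p := fun q _ => ψ q = MvPolynomial.C (MvPolynomial.aeval η q))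
      ?_ ?_ ?_ ?_ hp
    · rintro _ ⟨j, hj, rfl⟩
      rw [hψX, if_pos (Finset.mem_coe.1 hj), MvPolynomial.aeval_X]
    · intro r
      rw [MvPolynomial.algebraMap_eq, hψC, MvPolynomial.algHom_C]
    · intro x y _ _ hx hy; rw [map_add, map_add, hx, hy, MvPolynomial.C_add]
    · intro x y _ _ hx hy; rw [map_mul, map_mul, hx, hy, MvPolynomial.C_mul]
  refine ⟨J, Ω, inferInstance, inferInstance, a, κ, hJ, ?_, ?_, ?_, ?_, ?_⟩
  · intro i
    refine (totalDegree_aeval_le _ (fun m => ?_) _).trans
      ((hdeg _).trans (by rw [MvPolynomial.totalDegree_X]))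
    split_ifs
    · rw [MvPolynomial.totalDegree_C]; omega
    · rw [MvPolynomial.totalDegree_X]
  · intro i hi
    have hne : i ≠ j₁ := by rintro rfl; exact hi hj₁
    refine ⟨?_, ?_⟩
    · show ψ (τ (MvPolynomial.X i)) = _
      rw [hX i hi, hψX, if_neg hi]
    · show algebraMap K Ω _ = 0
      rw [hX i hi, MvPolynomial.coeff_X, if_neg, map_zero]
      intro h
      exact hne ((Finsupp.single_left_inj one_ne_zero).1 h)
  · rw [hΘ, hΘ₀0, ← hb₀, hψsup _ hb₀sup, (hη0 b₀).2 dvd_rfl, MvPolynomial.C_0]
  · rw [hΘ, ← hb₀]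
    intro h0
    -- evaluate the variables at `η`
    have h1 : (Θ₀ b₀).map (MvPolynomial.eval η) =
        (Th (K := K) (L := K) (fun i => MvPolynomial.X i) (Pi.single j₁ 1) b₀).map
          (MvPolynomial.aeval η : MvPolynomial σ K →ₐ[K] Ω).toRingHom := by
      have h2 : ((Polynomial.mapRingHom (MvPolynomial.eval η)).comp Θ₀.toRingHom) =
          ((Polynomial.mapRingHom (MvPolynomial.aeval η : MvPolynomial σ K →ₐ[K] Ω).toRingHom).comp
            (Th (K := K) (L := K) (fun i => MvPolynomial.X i) (Pi.single j₁ 1)).toRingHom) := by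
        apply MvPolynomial.ringHom_ext
        · intro r
          simp only [RingHom.comp_apply, AlgHom.toRingHom_eq_coe, RingHom.coe_coe,
            Polynomial.coe_mapRingHom]
          show (Th _ _ _).map _ = _
          rw [Th_C, Th_C, Polynomial.map_C, Polynomial.map_C, MvPolynomial.eval_C]
          simp
        · intro i
          simp only [RingHom.comp_apply, AlgHom.toRingHom_eq_coe, RingHom.coe_coe,
            Polynomial.coe_mapRingHom]
          show (Th _ _ _).map _ = _
          rw [Th_X, Th_X]
          by_cases hi : i = j₁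
          · subst hi
            split_ifs <;> simp
          · split_ifs <;> simp [Pi.single_eq_of_ne hi]
      exact congrArg (fun f => f b₀) h2
    rw [h0, Polynomial.map_zero] at h1
    have h3 := congrArg (fun q => q.coeff k) h1
    simp only [coeff_zero, coeff_map] at h3
    have h4 : b₀ ∣ (Th (K := K) (L := K) (fun i => MvPolynomial.X i) (Pi.single j₁ 1) b₀).coeff k :=
      (hη0 _).1 h3.symm
    have h5 := MvPolynomial.totalDegree_le_of_dvd_of_isDomain h4 hkne
    rcases Th_mem (K := K) (L := K) (a := fun i => MvPolynomial.X i)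
      (fun i => by rw [MvPolynomial.totalDegree_X]) (Pi.single j₁ 1) b₀ k with h6 | h6
    · exact hkne h6
    · omega
  · intro x hx h0
    rw [hΘ, hΘ₀0] at h0
    have h1 := hψη (τ x)
    rw [h0, map_zero] at h1
    have h2 := (hη0 _).1 h1.symm
    apply hx
    have h3 : τ b ∣ τ x := h2
    have h4 := map_dvd τ.symm h3
    simpa using h4

end pkg

end Pool.Agent.Lib.MP_64d474_lc.Lin61
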