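import Pool.Agent.Lib.MP_64d474_lc.GF.SF1_99

/-!
# Residues and the Frobenius
-/

set_option autoImplicit false

open Polynomial

namespace Pool.Agent.Lib.MP_64d474_lc.GF

variable {k L : Type*} [Field k] [Field L] [Algebra k[X] L] [IsFractionRing k[X] L]

/-- the residues of `X ^ b * h ^ q`, for a power `q` of the characteristic -/
theorem IsRes.frob {p : ℕ} [Fact p.Prime] [CharP k p] (n : ℕ) {Q : k[X]} {h : L} {r : k}
    (h1 : IsRes Q h r) {b : ℕ} (hb : b < p ^ n) :
    IsRes Q (algebraMap k[X] L (X ^ b) * h ^ p ^ n) (if b = p ^ n - 1 then r ^ p ^ n else 0) := by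
  obtain ⟨o, U, V, B, hU, hB, hB0, e, rfl⟩ := h1
  have hpp : p.Prime := Fact.out
  have hq : 0 < p ^ n := pow_pos hpp.pos n
  have : ExpChar k p := ExpChar.prime hpp
  have : CharP k[X] p := inferInstance
  have : CharP L p := by
    have hinj : Function.Injective (algebraMap k[X] L) := IsFractionRing.injective k[X] L
    exact charP_of_injective_algebraMap hinj p
  have : ExpChar L p := ExpChar.prime hpp
  set q := p ^ n with hqdef
  by_cases hU0 : U = 0
  · refine ⟨0, 0, X ^ b * V ^ q, B ^ q, by simp, hB.pow_left, pow_ne_zero _ hB0, ?_, ?_⟩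
    · rw [e, hU0, map_zero, zero_div, zero_add, div_pow, map_mul, map_pow, map_pow, map_pow,
        zero_div, zero_add, mul_div_assoc]
    · rw [hU0]
      simp [hq.ne']
  have hUn : U.natDegree < o * Q.natDegree := by
    rwa [Polynomial.natDegree_lt_iff_degree_lt hU0]
  refine ⟨o * q, X ^ b * U ^ q, X ^ b * V ^ q, B ^ q, ?_, hB.pow_left, pow_ne_zero _ hB0, ?_, ?_⟩
  · rw [← Polynomial.natDegree_lt_iff_degree_lt
      (mul_ne_zero (pow_ne_zero _ X_ne_zero) (pow_ne_zero _ hU0)),
      natDegree_mul (pow_ne_zero _ X_ne_zero) (pow_ne_zero _ hU0), natDegree_pow, natDegree_X,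
      natDegree_pow]
    have : q * (U.natDegree + 1) ≤ q * (o * Q.natDegree) := Nat.mul_le_mul_left q hUn
    calc b * 1 + q * U.natDegree < q * (U.natDegree + 1) := by
          rw [mul_add, mul_one, mul_one]; omega
      _ ≤ q * (o * Q.natDegree) := this
      _ = o * q * Q.natDegree := by ring
  · rw [e, hqdef, add_pow_char_pow, div_pow, div_pow, map_mul, map_mul, map_pow (algebraMap k[X] L) U,
      map_pow (algebraMap k[X] L) V, map_pow (algebraMap k[X] L) B, ← pow_mul, mul_add,
      mul_div_assoc, mul_div_assoc]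
  · have hlt : q * U.natDegree + q ≤ o * q * Q.natDegree := by
      calc q * U.natDegree + q = q * (U.natDegree + 1) := by ring
        _ ≤ q * (o * Q.natDegree) := Nat.mul_le_mul_left q hUn
        _ = o * q * Q.natDegree := by ring
    rw [coeff_X_pow_mul']
    have h3 : b ≤ o * q * Q.natDegree - 1 := by omega
    rw [if_pos h3]
    split_ifs with hbq
    · have h4 : o * q * Q.natDegree - 1 - b = q * (o * Q.natDegree - 1) := by
        have : o * q * Q.natDegree = q * (o * Q.natDegree - 1) + q := by
          have h5 : o * Q.natDegree - 1 + 1 = o * Q.natDegree := by omega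
          calc o * q * Q.natDegree = (o * Q.natDegree) * q := by ring
            _ = (o * Q.natDegree - 1 + 1) * q := by rw [h5]
            _ = _ := by ring
        omega
      rw [h4, coeff_pow_of_natDegree_le (by omega), div_pow, ← pow_mul]
    · have h4 : (U ^ q).natDegree < o * q * Q.natDegree - 1 - b := by
        rw [natDegree_pow]
        omega
      rw [coeff_eq_zero_of_natDegree_lt h4, zero_div]

end Pool.Agent.Lib.MP_64d474_lc.GF
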