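import Mathlib

set_option autoImplicit false

/-!
# Descent of `y = ∑ d_l (h_l)` from an algebraic extension (characteristic zero)
-/

namespace Pool.Agent.Lib.MP_64d474_lc.GF

namespace T14

open Polynomial Module

theorem trace_der {K L : Type*} [Field K] [Field L] [Algebra K L] [FiniteDimensional K L]
    (d : K →+ K) (D : L →+ L) (hmul : ∀ x y, D (x * y) = x * D y + y * D x)
    (hd : ∀ a, D (algebraMap K L a) = algebraMap K L (d a)) (z : L) :
    Algebra.trace K L (D z) = d (Algebra.trace K L z) := by
  classical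
  set b := Module.finBasis K L with hb
  have hrepr : ∀ (w : L) (j : Fin (finrank K L)), b.repr (D w) j =
      d (b.repr w j) + ∑ i, b.repr w i * b.repr (D (b i)) j := by
    intro w j
    conv_lhs => rw [← b.sum_repr w]
    rw [map_sum]
    have h1 : ∀ i, D (b.repr w i • b i) = b.repr w i • D (b i) + d (b.repr w i) • b i := by
      intro i
      rw [Algebra.smul_def, hmul, hd, ← Algebra.smul_def, mul_comm, ← Algebra.smul_def]
    simp only [h1, map_add, map_sum, map_smul, Finsupp.add_apply, Finsupp.finsetSum_apply,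
      Finsupp.smul_apply, smul_eq_mul, Finset.sum_add_distrib, Basis.repr_self]
    rw [add_comm]
    congr 1
    simp [Finsupp.single_apply]
  have hz : ∀ (w : L) (j : Fin (finrank K L)), b.repr (z * w) j =
      ∑ i, b.repr w i * b.repr (z * b i) j := by
    intro w j
    conv_lhs => rw [← b.sum_repr w]
    rw [Finset.mul_sum]
    simp only [mul_smul_comm, map_sum, map_smul, Finsupp.finsetSum_apply, Finsupp.smul_apply,
      smul_eq_mul]
  rw [Algebra.trace_eq_matrix_trace b, Algebra.trace_eq_matrix_trace b]
  simp only [Matrix.trace, Matrix.diag_apply, Algebra.leftMulMatrix_eq_repr_mul, map_sum]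
  have h2 : ∀ j, D z * b j = D (z * b j) - z * D (b j) := by
    intro j
    rw [hmul]
    ring
  have h3 : ∀ j, b.repr (D z * b j) j = d (b.repr (z * b j) j) +
      (∑ i, b.repr (z * b j) i * b.repr (D (b i)) j - ∑ i, b.repr (D (b j)) i *
        b.repr (z * b i) j) := by
    intro j
    rw [h2, map_sub, Finsupp.sub_apply, hrepr, hz (D (b j))]
    ring
  simp only [h3]
  rw [Finset.sum_add_distrib, Finset.sum_sub_distrib, Finset.sum_comm]
  simp only [mul_comm, sub_self, add_zero]

theorem ex_pd {F K L : Type*} [Field F] [Field K] [Field L] [Algebra F K] [Algebra F L]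
    [Algebra K L] (x : L) (d : Derivation F K K) (d' : Derivation F L L)
    (hd : ∀ a, d' (algebraMap K L a) = algebraMap K L (d a)) (p : K[X]) :
    ∃ p' : K[X], d' (aeval x p) = aeval x p' + aeval x (derivative p) * d' x := by
  induction p using Polynomial.induction_on' with
  | add p q hp hq =>
    obtain ⟨p', h1⟩ := hp
    obtain ⟨q', h3⟩ := hq
    refine ⟨p' + q', ?_⟩
    rw [map_add, map_add, map_add, h1, h3, derivative_add, map_add]
    ring
  | monomial n a =>
    refine ⟨monomial n (d a), ?_⟩
    rw [aeval_monomial, aeval_monomial, derivative_monomial, aeval_monomial, Derivation.leibniz,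
      Derivation.leibniz_pow, hd, map_mul, map_natCast]
    simp only [smul_eq_mul, nsmul_eq_mul]
    ring

theorem der_mem {F K L : Type*} [Field F] [Field K] [Field L] [CharZero K] [Algebra F K]
    [Algebra F L] [Algebra K L] [Algebra.IsAlgebraic K L] (d : Derivation F K K)
    (d' : Derivation F L L) (hd : ∀ a, d' (algebraMap K L a) = algebraMap K L (d a))
    (S : IntermediateField K L) (x : L) (hx : x ∈ S) : d' x ∈ S := by
  have hi : IsIntegral K x := Algebra.IsIntegral.isIntegral x
  obtain ⟨p', hp'⟩ := ex_pd x d d' hd (minpoly K x)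
  rw [minpoly.aeval, map_zero] at hp'
  have h1 : aeval x (derivative (minpoly K x)) ≠ 0 :=
    (minpoly.irreducible hi).separable.aeval_derivative_ne_zero (minpoly.aeval K x)
  have h2 : d' x = -(aeval x p') / aeval x (derivative (minpoly K x)) := by
    rw [eq_div_iff h1]
    linear_combination (-1 : L) * hp'
  rw [h2]
  have h3 : ∀ p : K[X], aeval x p ∈ S := by
    intro p
    have h4 := Subalgebra.aeval_coe S.toSubalgebra (⟨x, hx⟩ : S.toSubalgebra) p
    have h5 : aeval x p = ((aeval (⟨x, hx⟩ : S.toSubalgebra) p : S.toSubalgebra) : L) := h4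
    rw [h5]
    exact (aeval (⟨x, hx⟩ : S.toSubalgebra) p).2
  exact S.div_mem (S.neg_mem (h3 _)) (h3 _)

theorem desc_alg {F K L ι : Type*} [Field F] [Field K] [Field L] [CharZero K] [Algebra F K]
    [Algebra F L] [Algebra K L] [IsScalarTower F K L] [Algebra.IsAlgebraic K L] [Fintype ι]
    (d : ι → Derivation F K K) (d' : ι → Derivation F L L)
    (hd : ∀ l a, d' l (algebraMap K L a) = algebraMap K L (d l a)) (y : K) (h : ι → L)
    (hy : algebraMap K L y = ∑ l, d' l (h l)) : ∃ h' : ι → K, y = ∑ l, d l (h' l) := by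
  classical
  set S : IntermediateField K L := IntermediateField.adjoin K (Set.range h) with hS
  have hfd : FiniteDimensional K S := by
    apply IntermediateField.finiteDimensional_adjoin
    intro x _
    exact Algebra.IsIntegral.isIntegral x
  have hh : ∀ l, h l ∈ S := fun l => IntermediateField.subset_adjoin K _ ⟨l, rfl⟩
  have hD := fun l => der_mem (d l) (d' l) (hd l) S
  let D : ι → (S →+ S) := fun l =>
    { toFun := fun x => ⟨d' l x.1, hD l x.1 x.2⟩
      map_zero' := Subtype.ext (by simp)
      map_add' := fun x y => Subtype.ext (by simp) }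
  have hDmul : ∀ l (x y : S), D l (x * y) = x * D l y + y * D l x := by
    intro l x y
    apply Subtype.ext
    show d' l (x.1 * y.1) = x.1 * d' l y.1 + y.1 * d' l x.1
    rw [Derivation.leibniz, smul_eq_mul, smul_eq_mul]
  have hDd : ∀ l a, D l (algebraMap K S a) =
      algebraMap K S ((d l : K →ₗ[F] K).toAddMonoidHom a) := by
    intro l a
    apply Subtype.ext
    exact hd l a
  have hy' : algebraMap K S y = ∑ l, D l ⟨h l, hh l⟩ := by
    apply Subtype.ext
    rw [AddSubmonoidClass.coe_finsetSum]
    exact hy
  have h1 := congrArg (Algebra.trace K S) hy'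
  rw [map_sum, Algebra.trace_algebraMap] at h1
  have h2 : ∀ l, Algebra.trace K S (D l ⟨h l, hh l⟩) = d l (Algebra.trace K S ⟨h l, hh l⟩) :=
    fun l => trace_der ((d l : K →ₗ[F] K).toAddMonoidHom) (D l) (hDmul l) (hDd l) _
  simp only [h2] at h1
  have h3 : (finrank K S : K) ≠ 0 := by
    rw [Nat.cast_ne_zero]
    exact finrank_pos.ne'
  refine ⟨fun l => (finrank K S : K)⁻¹ * Algebra.trace K S ⟨h l, hh l⟩, ?_⟩
  have h4 : ∀ l (a : K), d l ((finrank K S : K)⁻¹ * a) = (finrank K S : K)⁻¹ * d l a := by
    intro l a
    rw [Derivation.leibniz, Derivation.leibniz_inv, Derivation.map_natCast, smul_zero, smul_zero,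
      add_zero, smul_eq_mul]
  simp only [h4]
  rw [← Finset.mul_sum, ← h1, nsmul_eq_mul, inv_mul_cancel_left₀ h3]

end T14

end Pool.Agent.Lib.MP_64d474_lc.GF
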