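import Pool.Agent.Lib.MP_64d474_lc.GF.Defs66

set_option autoImplicit false

/-!
# Row TR: from characteristic `p` to characteristic zero
-/

namespace Pool.Agent.Lib.MP_64d474_lc.GF

open MvPolynomial

universe u

/-- The rings of integers are Jacobson. -/
theorem jacobsonInt88 : IsJacobsonRing ℤ := by
  rw [isJacobsonRing_iff_prime_eq]
  intro P hP
  by_cases h0 : P = ⊥
  · subst h0
    rw [eq_bot_iff]
    intro x hx
    by_contra hx0
    have hx0' : x ≠ 0 := fun h => hx0 (by rw [h]; exact Ideal.zero_mem _)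
    obtain ⟨p, hp1, hp2⟩ := Nat.exists_infinite_primes (x.natAbs + 1)
    have hmax : (Ideal.span {(p : ℤ)}).IsMaximal :=
      PrincipalIdealRing.isMaximal_of_irreducible (Nat.prime_iff_prime_int.1 hp2).irreducible
    have h1 := (Ideal.mem_sInf.1 hx) (⟨bot_le, hmax⟩ : _ ∈ {J : Ideal ℤ | ⊥ ≤ J ∧ J.IsMaximal})
    rw [Ideal.mem_span_singleton] at h1
    have h2 := Nat.le_of_dvd (Int.natAbs_pos.2 hx0') (Int.natCast_dvd.1 h1)
    omega
  · have : P.IsMaximal := IsPrime.to_maximal_ideal h0
    exact Ideal.jacobson_eq_self_of_isMaximal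

/-- A finitely generated domain over the integers has a homomorphism to an algebraically closed
field of positive characteristic. -/
theorem exists_hom88 (B : Type u) [CommRing B] [Nontrivial B] [Algebra.FiniteType ℤ B] :
    ∃ (κ : Type u) (_ : Field κ) (_ : IsAlgClosed κ) (p : ℕ) (_ : Fact p.Prime) (_ : CharP κ p),
      Nonempty (B →+* κ) := by
  obtain ⟨M, hM⟩ := Ideal.exists_maximal B
  letI : Field (B ⧸ M) := Ideal.Quotient.field M
  haveI := jacobsonInt88
  haveI hft : Algebra.FiniteType ℤ (B ⧸ M) :=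
    Algebra.FiniteType.of_surjective (Ideal.Quotient.mkₐ ℤ M) (Ideal.Quotient.mkₐ_surjective ℤ M)
  haveI hfin : Module.Finite ℤ (B ⧸ M) := finite_of_finite_type_of_isJacobsonRing ℤ (B ⧸ M)
  obtain ⟨p, hp⟩ := CharP.exists (B ⧸ M)
  have hp0 : p ≠ 0 := by
    rintro rfl
    haveI : CharZero (B ⧸ M) := CharP.charP_to_charZero _
    have h1 : Function.Injective (algebraMap ℤ (B ⧸ M)) := by
      intro a b h
      simpa using h
    exact Int.not_isField (isField_of_isIntegral_of_isField h1 (Field.toIsField (B ⧸ M)))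
  have hpp : p.Prime := (CharP.char_is_prime_or_zero (B ⧸ M) p).resolve_right hp0
  exact ⟨AlgebraicClosure (B ⧸ M), inferInstance, inferInstance, p, ⟨hpp⟩,
    charP_of_injective_algebraMap (algebraMap (B ⧸ M) (AlgebraicClosure (B ⧸ M))).injective p,
    ⟨(algebraMap (B ⧸ M) (AlgebraicClosure (B ⧸ M))).comp (Ideal.Quotient.mk M)⟩⟩

/-- Elements of `AA` as lists of fractions. -/
theorem mem_AA88 {F : Type u} [Field F] {m t : ℕ}
    {φ : FractionRing (MvPolynomial (Fin m) F)} (h : φ ∈ AA F m t) :
    ∃ L : List (MvPolynomial (Fin m) F × MvPolynomial (Fin m) F),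
      (∀ x ∈ L, x.1.totalDegree ≤ t ∧ x.2.totalDegree ≤ t ∧ x.2 ≠ 0) ∧
      φ = (L.map fun x => algebraMap _ (FractionRing (MvPolynomial (Fin m) F)) x.1 /
        algebraMap _ (FractionRing (MvPolynomial (Fin m) F)) x.2).sum := by
  refine Submodule.span_induction (p := fun φ _ => ∃ L : List (MvPolynomial (Fin m) F ×
      MvPolynomial (Fin m) F), (∀ x ∈ L, x.1.totalDegree ≤ t ∧ x.2.totalDegree ≤ t ∧ x.2 ≠ 0) ∧
      φ = (L.map fun x => algebraMap _ (FractionRing (MvPolynomial (Fin m) F)) x.1 /
        algebraMap _ (FractionRing (MvPolynomial (Fin m) F)) x.2).sum) ?_ ?_ ?_ ?_ h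
  · rintro _ ⟨a, b, ha, hb, hb0, rfl⟩
    exact ⟨[(a, b)], by simp [ha, hb, hb0], by simp⟩
  · exact ⟨[], by simp, by simp⟩
  · rintro _ _ _ _ ⟨L, hL, rfl⟩ ⟨L', hL', rfl⟩
    refine ⟨L ++ L', ?_, by simp⟩
    intro x hx
    rcases List.mem_append.1 hx with hx | hx
    · exact hL x hx
    · exact hL' x hx
  · rintro c _ _ ⟨L, hL, rfl⟩
    refine ⟨L.map fun x => (c • x.1, x.2), ?_, ?_⟩
    · intro x hx
      obtain ⟨y, hy, rfl⟩ := List.mem_map.1 hx
      exact ⟨(totalDegree_smul_le _ _).trans (hL y hy).1, (hL y hy).2⟩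
    · rw [List.map_map, List.smul_sum, List.map_map]
      congr 1
      apply List.map_congr_left
      intro x _
      show c • (algebraMap _ (FractionRing (MvPolynomial (Fin m) F)) x.1 /
        algebraMap _ (FractionRing (MvPolynomial (Fin m) F)) x.2) =
        algebraMap _ (FractionRing (MvPolynomial (Fin m) F)) (c • x.1) /
        algebraMap _ (FractionRing (MvPolynomial (Fin m) F)) x.2
      rw [← smul_div_assoc]
      congr 1
      exact (map_smul (IsScalarTower.toAlgHom F (MvPolynomial (Fin m) F)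
        (FractionRing (MvPolynomial (Fin m) F))) c x.1).symm

/-- The numerator of the sum of a list of fractions, over any commutative ring. -/
def num88 {R : Type u} [CommRing R] : List (R × R) → R
  | [] => 0
  | x :: L => x.1 * (L.map Prod.snd).prod + x.2 * num88 L

theorem num_map88 {R S : Type u} [CommRing R] [CommRing S] (φ : R →+* S) (L : List (R × R)) :
    num88 (L.map fun x => (φ x.1, φ x.2)) = φ (num88 L) := by
  induction L with
  | nil => simp [num88]
  | cons x L ih =>
    simp only [List.map_cons, num88, ih, map_add, map_mul, map_list_prod, List.map_map]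
    rfl

theorem num_sum88 {R K : Type u} [CommRing R] [Field K] [Algebra R K]
    (hinj : Function.Injective (algebraMap R K)) (L : List (R × R)) (hL : ∀ x ∈ L, x.2 ≠ 0) :
    (L.map fun x => algebraMap R K x.1 / algebraMap R K x.2).sum =
      algebraMap R K (num88 L) / algebraMap R K (L.map Prod.snd).prod := by
  have h0 : ∀ r : R, r ≠ 0 → algebraMap R K r ≠ 0 := fun r hr h =>
    hr (hinj (by rw [h, map_zero]))
  induction L with
  | nil => simp [num88]
  | cons x L ih =>
    have hx := h0 _ (hL x (by simp))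
    have hP : algebraMap R K (L.map Prod.snd).prod ≠ 0 := by
      rw [map_list_prod]
      apply List.prod_ne_zero
      intro h
      obtain ⟨y, hy, hy0⟩ := List.mem_map.1 h
      obtain ⟨z, hz, rfl⟩ := List.mem_map.1 hy
      exact h0 _ (hL z (List.mem_cons_of_mem _ hz)) hy0
    rw [List.map_cons, List.sum_cons, ih (fun y hy => hL y (List.mem_cons_of_mem _ hy)),
      div_add_div _ _ hx hP]
    simp only [num88, List.map_cons, List.prod_cons, map_add, map_mul]

/-- `Mixed` by an identity between polynomials. -/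
theorem mixed_iff88 {F : Type u} [Field F] {m d t : ℕ} (f : MvPolynomial (Fin m) F) :
    Mixed d t f ↔ ∃ T : Multiset (MvPolynomial (Fin m) F), (∀ g ∈ T, g ≠ 0 ∧ g.totalDegree ≤ d) ∧
      ∃ L : List (MvPolynomial (Fin m) F × MvPolynomial (Fin m) F),
        (∀ x ∈ L, x.1.totalDegree ≤ t ∧ x.2.totalDegree ≤ t ∧ x.2 ≠ 0) ∧
        f * (L.map Prod.snd).prod = T.prod * num88 L := by
  have hinj : Function.Injective (algebraMap (MvPolynomial (Fin m) F)
    (FractionRing (MvPolynomial (Fin m) F))) := IsFractionRing.injective _ _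
  have hPL : ∀ L : List (MvPolynomial (Fin m) F × MvPolynomial (Fin m) F),
      (∀ x ∈ L, x.1.totalDegree ≤ t ∧ x.2.totalDegree ≤ t ∧ x.2 ≠ 0) →
      algebraMap (MvPolynomial (Fin m) F) (FractionRing (MvPolynomial (Fin m) F))
        (L.map Prod.snd).prod ≠ 0 := by
    intro L hL h
    rw [← map_zero (algebraMap (MvPolynomial (Fin m) F)
      (FractionRing (MvPolynomial (Fin m) F)))] at h
    have h1 := hinj h
    apply List.prod_ne_zero _ h1
    intro h2
    obtain ⟨y, hy, hy0⟩ := List.mem_map.1 h2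
    exact (hL y hy).2.2 hy0
  constructor
  · rintro ⟨T, hT, φ, hφ, hf⟩
    obtain ⟨L, hL, rfl⟩ := mem_AA88 hφ
    refine ⟨T, hT, L, hL, hinj ?_⟩
    rw [num_sum88 hinj L (fun x hx => (hL x hx).2.2)] at hf
    rw [map_mul, map_mul, hf]
    field_simp [hPL L hL]
  · rintro ⟨T, hT, L, hL, h⟩
    refine ⟨T, hT, (L.map fun x => algebraMap _ (FractionRing (MvPolynomial (Fin m) F)) x.1 /
        algebraMap _ (FractionRing (MvPolynomial (Fin m) F)) x.2).sum, ?_, ?_⟩
    · apply list_sum_mem
      intro y hy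
      obtain ⟨x, hx, rfl⟩ := List.mem_map.1 hy
      exact Submodule.subset_span ⟨x.1, x.2, (hL x hx).1, (hL x hx).2.1, (hL x hx).2.2, rfl⟩
    · rw [num_sum88 hinj L (fun x hx => (hL x hx).2.2), mul_div_assoc',
        eq_div_iff (hPL L hL), ← map_mul, ← map_mul, h]

/-- Row HIT in characteristic `p`. -/
def StHITp : Prop :=
  ∀ d t : ℕ, ∃ D : ℕ, ∀ (F : Type u) [Field F] [Infinite F] (p : ℕ) [Fact p.Prime] [CharP F p]
    (m : ℕ), m < p → ∀ f : MvPolynomial (Fin m) F, Mixed d t f → f ≠ 0 → S3.gen F m D f ≠ 0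

/-- the generator over a commutative ring -/
noncomputable def genR88 (R : Type u) [CommRing R] (m s : ℕ) :
    MvPolynomial (Fin m) R →ₐ[R] MvPolynomial (Fin s ⊕ Fin s) R :=
  aeval fun k => ∑ i : Fin s, X (Sum.inr i) *
    ∏ j ∈ Finset.univ.erase k, (X (Sum.inl i) - C ((j : ℕ) : R))

theorem gen_eq88 (F : Type u) [Field F] (m s : ℕ) (f : MvPolynomial (Fin m) F) :
    S3.gen F m s f = genR88 F m s f := rfl

theorem gen_map88 {R S : Type u} [CommRing R] [CommRing S] (φ : R →+* S) (m s : ℕ)
    (f : MvPolynomial (Fin m) R) : map φ (genR88 R m s f) = genR88 S m s (map φ f) := by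
  have h : (map φ).comp (genR88 R m s).toRingHom = (genR88 S m s).toRingHom.comp (map φ) := by
    apply MvPolynomial.ringHom_ext
    · intro r
      simp [genR88, MvPolynomial.algebraMap_eq]
    · intro i
      simp [genR88, map_sum, map_prod]
  exact RingHom.congr_fun h f

theorem tr88 (h : StHITp.{u}) : StHIT.{u} := by
  intro d t
  obtain ⟨D, hD⟩ := h d t
  refine ⟨D, fun F _ _ m f hf hf0 hgen => ?_⟩
  obtain ⟨T, hT, L, hL, hid⟩ := (mixed_iff88 f).1 hf
  classical
  let P : Finset (MvPolynomial (Fin m) F) :=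
    insert f (T.toFinset ∪ ((L.map Prod.fst).toFinset ∪ (L.map Prod.snd).toFinset))
  have hfP : f ∈ P := Finset.mem_insert_self _ _
  have hTP : ∀ g ∈ T, g ∈ P := fun g hg => Finset.mem_insert_of_mem
    (Finset.mem_union_left _ (Multiset.mem_toFinset.2 hg))
  have hL1 : ∀ x ∈ L, x.1 ∈ P := fun x hx => Finset.mem_insert_of_mem
    (Finset.mem_union_right _ (Finset.mem_union_left _
      (List.mem_toFinset.2 (List.mem_map.2 ⟨x, hx, rfl⟩))))
  have hL2 : ∀ x ∈ L, x.2 ∈ P := fun x hx => Finset.mem_insert_of_mem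
    (Finset.mem_union_right _ (Finset.mem_union_right _
      (List.mem_toFinset.2 (List.mem_map.2 ⟨x, hx, rfl⟩))))
  have hc : ∀ g : MvPolynomial (Fin m) F, ∃ e : Fin m →₀ ℕ, g ≠ 0 → coeff e g ≠ 0 := by
    intro g
    by_cases hg : g = 0
    · exact ⟨0, fun h => absurd hg h⟩
    · obtain ⟨e, he⟩ := ne_zero_iff.1 hg
      exact ⟨e, fun _ => he⟩
  choose e he using hc
  let S : Finset F := P.biUnion coeffs ∪ (P.image (fun g => (coeff (e g) g)⁻¹) ∪
    {((m.factorial : ℕ) : F)⁻¹})
  let B : Subalgebra ℤ F := Algebra.adjoin ℤ (S : Set F)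
  have hSB : ∀ x ∈ S, x ∈ B := fun x hx => Algebra.subset_adjoin hx
  haveI : Algebra.FiniteType ℤ B := by
    rw [← Subalgebra.fg_iff_finiteType]
    exact ⟨S, rfl⟩
  obtain ⟨κ, i1, i2, p, i3, i4, ⟨ψ⟩⟩ := exists_hom88 B
  let ι : B →+* F := B.val.toRingHom
  have hι : Function.Injective ι := Subtype.val_injective
  have hιr : ∀ x : F, x ∈ Set.range ι ↔ x ∈ B := fun x =>
    ⟨by rintro ⟨y, rfl⟩; exact y.2, fun hx => ⟨⟨x, hx⟩, rfl⟩⟩
  have hlift : ∀ g : MvPolynomial (Fin m) F, ∃ gB : MvPolynomial (Fin m) B, g ∈ P →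
      map ι gB = g := by
    intro g
    by_cases hg : g ∈ P
    · have : g ∈ Set.range (map ι) := by
        rw [mem_range_map_iff_coeffs_subset]
        intro x hx
        rw [hιr]
        exact hSB x (Finset.mem_union_left _ (Finset.mem_biUnion.2 ⟨g, hg, hx⟩))
      obtain ⟨y, hy⟩ := this
      exact ⟨y, fun _ => hy⟩
    · exact ⟨0, fun h => absurd h hg⟩
  choose lift hlift using hlift
  have hmι : Function.Injective (map ι : MvPolynomial (Fin m) B → MvPolynomial (Fin m) F) :=
    map_injective ι hι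
  have hunit : ∀ (u : B) (v : F), v ∈ S → ι u * v = 1 → ψ u ≠ 0 := by
    intro u v hv huv h0
    have h1 : u * ⟨v, hSB v hv⟩ = 1 := hι (by
      rw [map_mul, map_one]
      exact huv)
    have h2 := congrArg ψ h1
    rw [map_mul, h0, zero_mul, map_one] at h2
    exact zero_ne_one h2
  have hred0 : ∀ g ∈ P, g ≠ 0 → map ψ (lift g) ≠ 0 := by
    intro g hg hg0 h0
    have h1 := he g hg0
    have h2 : ι (coeff (e g) (lift g)) = coeff (e g) g := by
      rw [← coeff_map, hlift g hg]
    refine hunit (coeff (e g) (lift g)) (coeff (e g) g)⁻¹ ?_ ?_ ?_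
    · exact Finset.mem_union_right _ (Finset.mem_union_left _ (Finset.mem_image_of_mem _ hg))
    · rw [h2]
      exact mul_inv_cancel₀ h1
    · rw [← coeff_map, h0, coeff_zero]
  have hdeg : ∀ g ∈ P, (map ψ (lift g)).totalDegree ≤ g.totalDegree := by
    intro g hg
    have h1 : (map ψ (lift g)).totalDegree ≤ (lift g).totalDegree :=
      Finset.sup_mono (support_map_subset ψ (lift g))
    have h2 : (map ι (lift g)).totalDegree = (lift g).totalDegree := by
      rw [totalDegree, totalDegree, support_map_of_injective (lift g) hι]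
    rw [hlift g hg] at h2
    rw [h2]
    exact h1
  have hpm : m < p := by
    by_contra hcon
    have h1 : p ∣ m.factorial := (Nat.Prime.dvd_factorial i3.out).2 (not_lt.1 hcon)
    have h2 : ((m.factorial : ℕ) : κ) = 0 := (CharP.cast_eq_zero_iff κ p _).2 h1
    refine hunit ((m.factorial : ℕ) : B) ((m.factorial : ℕ) : F)⁻¹ ?_ ?_ ?_
    · exact Finset.mem_union_right _ (Finset.mem_union_right _ (Finset.mem_singleton_self _))
    · rw [map_natCast]
      exact mul_inv_cancel₀ (Nat.cast_ne_zero.2 (Nat.factorial_ne_zero m))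
    · rw [map_natCast, h2]
  -- the identity over `B`
  have hidB : lift f * ((L.map fun x => (lift x.1, lift x.2)).map Prod.snd).prod =
      (T.map lift).prod * num88 (L.map fun x => (lift x.1, lift x.2)) := by
    apply hmι
    have e1 : (map ι) ((L.map fun x => (lift x.1, lift x.2)).map Prod.snd).prod =
        (L.map Prod.snd).prod := by
      rw [map_list_prod, List.map_map, List.map_map]
      congr 1
      apply List.map_congr_left
      intro x hx
      exact hlift _ (hL2 x hx)
    have e2 : (map ι) (T.map lift).prod = T.prod := by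
      rw [map_multiset_prod, Multiset.map_map]
      congr 1
      conv_rhs => rw [← Multiset.map_id T]
      apply Multiset.map_congr rfl
      intro x hx
      exact hlift _ (hTP x hx)
    have e3 : (map ι) (num88 (L.map fun x => (lift x.1, lift x.2))) = num88 L := by
      rw [← num_map88, List.map_map]
      congr 1
      conv_rhs => rw [← List.map_id L]
      apply List.map_congr_left
      intro x hx
      show (map ι (lift x.1), map ι (lift x.2)) = x
      rw [hlift _ (hL1 x hx), hlift _ (hL2 x hx)]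
    rw [map_mul, map_mul, hlift f hfP, e1, e2, e3, hid]
  have hmix : Mixed d t (map ψ (lift f)) := by
    rw [mixed_iff88]
    refine ⟨T.map fun g => map ψ (lift g), ?_, L.map fun x => (map ψ (lift x.1), map ψ (lift x.2)),
      ?_, ?_⟩
    · intro g hg
      obtain ⟨g', hg', rfl⟩ := Multiset.mem_map.1 hg
      exact ⟨hred0 g' (hTP g' hg') (hT g' hg').1, (hdeg g' (hTP g' hg')).trans (hT g' hg').2⟩
    · intro x hx
      obtain ⟨y, hy, rfl⟩ := List.mem_map.1 hx
      exact ⟨(hdeg _ (hL1 y hy)).trans (hL y hy).1, (hdeg _ (hL2 y hy)).trans (hL y hy).2.1,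
        hred0 _ (hL2 y hy) (hL y hy).2.2⟩
    · have h1 := congrArg (map ψ) hidB
      rw [map_mul, map_mul, map_list_prod, map_multiset_prod, ← num_map88, List.map_map,
        List.map_map, List.map_map, Multiset.map_map] at h1
      rw [List.map_map]
      exact h1
  refine hD κ p m hpm (map ψ (lift f)) hmix (hred0 f hfP hf0) ?_
  rw [gen_eq88, ← gen_map88]
  have h3 : genR88 B m D (lift f) = 0 := by
    apply map_injective ι hι
    rw [gen_map88, hlift f hfP, map_zero, ← gen_eq88]
    exact hgen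
  rw [h3, map_zero]

end Pool.Agent.Lib.MP_64d474_lc.GF
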